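import Pool.Agent.L5helper11.PE.Rig

/-!
# Counting numbers `θ` for which the weights `wt N a * θ`, `a ∈ A`, are close to integers
-/

set_option autoImplicit false

namespace Pool.Agent.L5helper11.PE

open Finset Pool.Agent.Helper112
open Pool.Agent.L5helper11.PD (dn dn_nonneg dn_le_half dn_le dn_add_int dn_sub_le dn_mul_le dn_mul_eq
  dvd_of_dn_lt le_dn_of_not_dvd wt)

/-- `j` lies between two elements of `A` at distance at most `s` -/
def Cov (s : ℕ) (A : Finset ℕ) (j : ℕ) : Prop := ∃ a ∈ A, ∃ b ∈ A, a ≤ j ∧ j < b ∧ b ≤ a + s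

open Classical in
/-- the number of places of `W` which do not lie between two elements of `A` at distance at most `s` -/
noncomputable def unc (s : ℕ) (A W : Finset ℕ) : ℕ := (W.filter fun j => ¬ Cov s A j).card

lemma Cov_mono {s : ℕ} {A B : Finset ℕ} (h : A ⊆ B) {j : ℕ} (hj : Cov s A j) : Cov s B j := by
  obtain ⟨a, ha, b, hb, h1⟩ := hj
  exact ⟨a, h ha, b, h hb, h1⟩

lemma unc_sdiff (s : ℕ) (A b W : Finset ℕ) : unc s (A \ b) W ≤ unc s A W + 2 * s * b.card := by
  classical
  unfold unc
  have h1 : (W.filter fun j => ¬ Cov s (A \ b) j) ⊆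
      (W.filter fun j => ¬ Cov s A j) ∪ b.biUnion (fun a => Ico (a - s) (a + s)) := by
    intro j hj
    rw [mem_filter] at hj
    rw [mem_union, mem_filter, mem_biUnion]
    by_cases h2 : Cov s A j
    · right
      obtain ⟨x, hx, y, hy, h3, h4, h5⟩ := h2
      by_contra h6
      push Not at h6
      apply hj.2
      refine ⟨x, ?_, y, ?_, h3, h4, h5⟩
      · rw [mem_sdiff]
        refine ⟨hx, fun hb => ?_⟩
        have := h6 x hb
        rw [mem_Ico] at this
        omega
      · rw [mem_sdiff]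
        refine ⟨hy, fun hb => ?_⟩
        have := h6 y hb
        rw [mem_Ico] at this
        omega
    · exact Or.inl ⟨hj.1, h2⟩
  refine (card_le_card h1).trans ((card_union_le _ _).trans ?_)
  apply Nat.add_le_add_left
  refine card_biUnion_le.trans ?_
  calc ∑ a ∈ b, (Ico (a - s) (a + s)).card ≤ ∑ _a ∈ b, 2 * s := by
        refine sum_le_sum fun a _ => ?_
        rw [Nat.card_Ico]
        omega
    _ = 2 * s * b.card := by rw [sum_const, smul_eq_mul, mul_comm]

lemma round_ten {z : ℝ} (h : dn z < 1 / 20) : round (10 * z) = 10 * round z := by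
  have h1 : |10 * z - ((10 * round z : ℤ) : ℝ)| < 1 / 2 := by
    have e : 10 * z - ((10 * round z : ℤ) : ℝ) = 10 * (z - round z) := by push_cast; ring
    rw [e, abs_mul, abs_of_nonneg (by norm_num : (0 : ℝ) ≤ 10)]
    unfold dn at h
    linarith
  have h2 : |10 * z - round (10 * z)| ≤ 1 / 2 := abs_sub_round _
  have h3 : |((round (10 * z) - 10 * round z : ℤ) : ℝ)| < 1 := by
    have e : ((round (10 * z) - 10 * round z : ℤ) : ℝ) =
        (10 * z - ((10 * round z : ℤ) : ℝ)) - (10 * z - round (10 * z)) := by push_cast; ring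
    rw [e]
    calc |(10 * z - ((10 * round z : ℤ) : ℝ)) - (10 * z - round (10 * z))|
        ≤ |10 * z - ((10 * round z : ℤ) : ℝ)| + |10 * z - round (10 * z)| := abs_sub _ _
      _ < 1 := by linarith
  have h4 : |round (10 * z) - 10 * round z| < 1 := by exact_mod_cast h3
  have h5 := Int.abs_lt_one_iff.1 h4
  omega

lemma round_ten_mem (z : ℝ) : round (10 * z) - 10 * round z ∈ Icc (-5 : ℤ) 5 := by
  have h1 : |z - round z| ≤ 1 / 2 := abs_sub_round _
  have h2 : |10 * z - round (10 * z)| ≤ 1 / 2 := abs_sub_round _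
  have h3 : |((round (10 * z) - 10 * round z : ℤ) : ℝ)| ≤ 11 / 2 := by
    have e : ((round (10 * z) - 10 * round z : ℤ) : ℝ) =
        10 * (z - round z) - (10 * z - round (10 * z)) := by push_cast; ring
    rw [e]
    refine (abs_sub _ _).trans ?_
    rw [abs_mul, abs_of_nonneg (by norm_num : (0 : ℝ) ≤ 10)]
    linarith
  rw [abs_le] at h3
  have h4 : (-6 : ℤ) < round (10 * z) - 10 * round z := by
    have : ((-6 : ℤ) : ℝ) < ((round (10 * z) - 10 * round z : ℤ) : ℝ) := by
      push_cast at h3 ⊢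
      linarith [h3.1]
    exact_mod_cast this
  have h5 : round (10 * z) - 10 * round z < (6 : ℤ) := by
    have : ((round (10 * z) - 10 * round z : ℤ) : ℝ) < ((6 : ℤ) : ℝ) := by
      push_cast at h3 ⊢
      linarith [h3.2]
    exact_mod_cast this
  rw [mem_Icc]
  omega

/-- the position of `θ` at scale `10 ^ (-ℓ)` -/
noncomputable def pos (s u ℓ K : ℕ) (θ : ℝ) : ℤ :=
  round ((10 : ℝ) ^ ℓ * Int.fract ((10 : ℝ) ^ u * ((LL s : ℝ) * (K * θ))))

/-- few positions -/
theorem cls {ι : Type*} (Θ : Finset ι) (th : ι → ℝ) {s u N K : ℕ} {A : Finset ℕ} {η : ℝ}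
    (hA : ∀ a ∈ A, u ≤ a ∧ a < N) (hη : (10 : ℝ) ^ s * (LL s * η) < 1 / 20)
    (hg : ∀ x ∈ Θ, ∀ a ∈ A, dn (K * (wt N a * th x)) ≤ η) (ℓ : ℕ) :
    (Θ.image fun x => pos s u ℓ K (th x)).card ≤ 2 * 11 ^ unc s A (Ico u (u + ℓ)) := by
  classical
  induction ℓ with
  | zero =>
    have h1 : (Θ.image fun x => pos s u 0 K (th x)) ⊆ {0, 1} := by
      intro k hk
      rw [mem_image] at hk
      obtain ⟨x, _, rfl⟩ := hk
      unfold pos
      rw [pow_zero, one_mul]
      set y := Int.fract ((10 : ℝ) ^ u * ((LL s : ℝ) * (K * th x))) with hy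
      have h0 : 0 ≤ y := Int.fract_nonneg _
      have h1 : y < 1 := Int.fract_lt_one _
      rw [round_eq]
      rw [mem_insert, mem_singleton]
      have h2 : 0 ≤ ⌊y + 1 / 2⌋ := Int.floor_nonneg.2 (by linarith)
      have h3 : ⌊y + 1 / 2⌋ < 2 := Int.floor_lt.2 (by push_cast; linarith)
      omega
    refine (card_le_card h1).trans ?_
    have h2 : ({0, 1} : Finset ℤ).card = 2 := by decide
    rw [h2]
    have h3 : 1 ≤ 11 ^ unc s A (Ico u (u + 0)) := Nat.one_le_pow _ _ (by norm_num)
    omega
  | succ ℓ ih =>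
    have hR : ∀ θ : ℝ, (10 : ℝ) ^ (ℓ + 1) * Int.fract ((10 : ℝ) ^ u * ((LL s : ℝ) * (K * θ))) =
        10 * ((10 : ℝ) ^ ℓ * Int.fract ((10 : ℝ) ^ u * ((LL s : ℝ) * (K * θ)))) := by
      intro θ
      rw [pow_succ]
      ring
    by_cases hc : Cov s A (u + ℓ)
    · -- covered
      have h1 : unc s A (Ico u (u + (ℓ + 1))) = unc s A (Ico u (u + ℓ)) := by
        unfold unc
        congr 1
        ext j
        rw [mem_filter, mem_filter, mem_Ico, mem_Ico]
        constructor
        · rintro ⟨⟨h2, h3⟩, h4⟩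
          refine ⟨⟨h2, ?_⟩, h4⟩
          have : j ≠ u + ℓ := by
            rintro rfl
            exact h4 hc
          omega
        · rintro ⟨⟨h2, h3⟩, h4⟩
          exact ⟨⟨h2, by omega⟩, h4⟩
      rw [h1]
      refine le_trans ?_ ih
      obtain ⟨a, ha, b, hb, hab1, hab2, hab3⟩ := hc
      have hua := (hA a ha).1
      have hbN := (hA b hb).2
      have key : ∀ x ∈ Θ, pos s u (ℓ + 1) K (th x) = 10 * pos s u ℓ K (th x) := by
        intro x hx
        unfold pos
        rw [hR]
        apply round_ten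
        have h2 := hg x hx a ha
        have h3 := hg x hx b hb
        obtain ⟨g, hg'⟩ : ∃ g, b = a + g := ⟨b - a, by omega⟩
        have e1 : (K : ℝ) * (wt N a * th x) = wt N a * (K * th x) := by ring
        have e2 : (K : ℝ) * (wt N b * th x) = wt N b * (K * th x) := by ring
        rw [e1] at h2
        rw [e2, hg'] at h3
        have h4 := step (N := N) (i := a) (g := g) (G := s) (by omega) (by omega) (by omega) h2 h3
        -- shift
        have h5 : dn ((10 : ℝ) ^ ℓ * Int.fract ((10 : ℝ) ^ u * ((LL s : ℝ) * (K * th x)))) =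
            dn (((10 ^ (u + ℓ - a) : ℕ) : ℝ) * ((10 : ℝ) ^ a * ((LL s : ℝ) * (K * th x)))) := by
          have e3 : ((10 ^ (u + ℓ - a) : ℕ) : ℝ) * ((10 : ℝ) ^ a * ((LL s : ℝ) * (K * th x))) =
              (10 : ℝ) ^ ℓ * Int.fract ((10 : ℝ) ^ u * ((LL s : ℝ) * (K * th x))) +
              (((10 ^ ℓ * ⌊(10 : ℝ) ^ u * ((LL s : ℝ) * (K * th x))⌋ : ℤ)) : ℝ) := by
            have e4 : ((10 ^ (u + ℓ - a) : ℕ) : ℝ) * (10 : ℝ) ^ a = (10 : ℝ) ^ ℓ * (10 : ℝ) ^ u := by
              push_cast
              rw [← pow_add, ← pow_add]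
              congr 1
              omega
            rw [← mul_assoc, e4]
            have e5 := Int.floor_add_fract ((10 : ℝ) ^ u * ((LL s : ℝ) * (K * th x)))
            push_cast
            rw [mul_assoc]
            conv_lhs => rw [← e5]
            ring
          rw [e3, dn_add_int]
        rw [h5]
        refine lt_of_le_of_lt (dn_mul_le _ _) (lt_of_le_of_lt ?_ hη)
        have h6 : (((10 ^ (u + ℓ - a) : ℕ)) : ℝ) ≤ (10 : ℝ) ^ s := by
          push_cast
          exact pow_le_pow_right₀ (by norm_num) (by omega)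
        exact mul_le_mul h6 h4 (dn_nonneg _) (by positivity)
      have h2 : (Θ.image fun x => pos s u (ℓ + 1) K (th x)) =
          (Θ.image fun x => pos s u ℓ K (th x)).image (fun k => 10 * k) := by
        rw [image_image]
        apply image_congr
        intro x hx
        exact key x hx
      rw [h2]
      exact card_image_le
    · -- uncovered
      have h1 : unc s A (Ico u (u + (ℓ + 1))) = unc s A (Ico u (u + ℓ)) + 1 := by
        unfold unc
        have e : Ico u (u + (ℓ + 1)) = insert (u + ℓ) (Ico u (u + ℓ)) := by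
          ext j
          rw [mem_insert, mem_Ico, mem_Ico]
          omega
        rw [e, filter_insert, if_pos hc, card_insert_of_notMem]
        simp
      rw [h1]
      have h2 : (Θ.image fun x => pos s u (ℓ + 1) K (th x)) ⊆
          ((Θ.image fun x => pos s u ℓ K (th x)) ×ˢ Icc (-5 : ℤ) 5).image (fun p => 10 * p.1 + p.2) := by
        intro k hk
        rw [mem_image] at hk
        obtain ⟨x, hx, rfl⟩ := hk
        rw [mem_image]
        refine ⟨(pos s u ℓ K (th x), pos s u (ℓ + 1) K (th x) - 10 * pos s u ℓ K (th x)), ?_, by simp⟩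
        rw [mem_product]
        refine ⟨mem_image_of_mem _ hx, ?_⟩
        simp only
        unfold pos
        rw [hR]
        exact round_ten_mem _
      refine (card_le_card h2).trans (card_image_le.trans ?_)
      rw [card_product]
      have h3 : (Icc (-5 : ℤ) 5).card = 11 := by decide
      rw [h3, pow_succ]
      calc (Θ.image fun x => pos s u ℓ K (th x)).card * 11 ≤ (2 * 11 ^ unc s A (Ico u (u + ℓ))) * 11 :=
            Nat.mul_le_mul_right _ ih
        _ = _ := by ring

/-- the number of small subsets -/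
lemma card_sets {α : Type*} (A : Finset α) (R : ℕ) {y : ℝ} (hy0 : 0 < y) (hy1 : y ≤ 1) :
    ((A.powerset.filter fun b => b.card ≤ R).card : ℝ) ≤ (1 + y) ^ A.card / y ^ R := by
  classical
  rw [le_div_iff₀ (by positivity)]
  have h1 := Finset.sum_pow_mul_eq_add_pow y 1 A
  simp only [one_pow, mul_one] at h1
  rw [add_comm 1 y, ← h1, ← nsmul_eq_mul, ← Finset.sum_const]
  refine (Finset.sum_le_sum (g := fun b : Finset α => y ^ b.card) ?_).trans
    (Finset.sum_le_sum_of_subset_of_nonneg (filter_subset _ _) fun b _ _ => by positivity)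
  intro b hb
  exact pow_le_pow_of_le_one hy0.le hy1 (mem_filter.1 hb).2

/-- the bad places -/
noncomputable def bd (K N : ℕ) (A : Finset ℕ) (η θ : ℝ) : Finset ℕ :=
  A.filter fun a => η ≤ dn (K * (wt N a * θ))

/-- few numbers have few bad places -/
theorem exc {ι : Type*} (P : Finset ι) (th : ι → ℝ) {s u ℓ N K R m : ℕ} {A : Finset ℕ} {η : ℝ}
    (hA : ∀ a ∈ A, u ≤ a ∧ a < N) (hη : (10 : ℝ) ^ s * (LL s * η) < 1 / 20)
    (hm : ∀ k : ℤ, (P.filter fun x => pos s u ℓ K (th x) = k).card ≤ m) {y : ℝ} (hy0 : 0 < y) (hy1 : y ≤ 1) :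
    ((P.filter fun x => (bd K N A η (th x)).card ≤ R).card : ℝ) ≤
      ((1 + y) ^ A.card / y ^ R) * ((2 * 11 ^ (unc s A (Ico u (u + ℓ)) + 2 * s * R) * m : ℕ) : ℝ) := by
  classical
  have h1 : (P.filter fun x => (bd K N A η (th x)).card ≤ R).card ≤
      (2 * 11 ^ (unc s A (Ico u (u + ℓ)) + 2 * s * R) * m) *
      (A.powerset.filter fun b => b.card ≤ R).card := by
    refine Finset.card_le_mul_card_image_of_maps_to (f := fun x => bd K N A η (th x)) ?_ _ ?_
    · intro x hx
      rw [mem_filter] at hx ⊢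
      exact ⟨mem_powerset.2 (filter_subset _ _), hx.2⟩
    · intro b hb
      rw [mem_filter] at hb
      set Θ := (P.filter fun x => (bd K N A η (th x)).card ≤ R).filter (fun x => bd K N A η (th x) = b) with hΘ
      have h2 : Θ.card ≤ m * (Θ.image fun x => pos s u ℓ K (th x)).card := by
        refine Finset.card_le_mul_card_image Θ m fun k _ => ?_
        refine (card_le_card ?_).trans (hm k)
        intro x hx
        rw [mem_filter, hΘ, mem_filter, mem_filter] at hx
        rw [mem_filter]
        exact ⟨hx.1.1.1, hx.2⟩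
      have h3 := cls Θ th (s := s) (u := u) (N := N) (K := K) (A := A \ b) (η := η)
        (fun a ha => hA a (mem_sdiff.1 ha).1) hη (by
          intro x hx a ha
          rw [hΘ, mem_filter] at hx
          rw [mem_sdiff] at ha
          by_contra h4
          push Not at h4
          apply ha.2
          rw [← hx.2]
          unfold bd
          rw [mem_filter]
          exact ⟨ha.1, h4.le⟩) ℓ
      have h4 : unc s (A \ b) (Ico u (u + ℓ)) ≤ unc s A (Ico u (u + ℓ)) + 2 * s * R := by
        refine (unc_sdiff s A b _).trans ?_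
        apply Nat.add_le_add_left
        exact Nat.mul_le_mul_left _ hb.2
      calc Θ.card ≤ m * (Θ.image fun x => pos s u ℓ K (th x)).card := h2
        _ ≤ m * (2 * 11 ^ unc s (A \ b) (Ico u (u + ℓ))) := Nat.mul_le_mul_left _ h3
        _ ≤ m * (2 * 11 ^ (unc s A (Ico u (u + ℓ)) + 2 * s * R)) := by
            apply Nat.mul_le_mul_left
            apply Nat.mul_le_mul_left
            exact Nat.pow_le_pow_right (by norm_num) h4
        _ = _ := by ring
  have h2 := card_sets A R hy0 hy1
  calc ((P.filter fun x => (bd K N A η (th x)).card ≤ R).card : ℝ)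
      ≤ ((2 * 11 ^ (unc s A (Ico u (u + ℓ)) + 2 * s * R) * m : ℕ) : ℝ) *
        ((A.powerset.filter fun b => b.card ≤ R).card : ℝ) := by exact_mod_cast h1
    _ ≤ ((2 * 11 ^ (unc s A (Ico u (u + ℓ)) + 2 * s * R) * m : ℕ) : ℝ) * ((1 + y) ^ A.card / y ^ R) :=
        mul_le_mul_of_nonneg_left h2 (Nat.cast_nonneg _)
    _ = _ := by ring

end Pool.Agent.L5helper11.PE
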