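import Pool.Agent.L5helper11.PE.Mult
import Pool.Agent.L5helper11.PD.BigA

/-!
# The free places
-/

set_option autoImplicit false

namespace Pool.Agent.L5helper11.PE

open Finset Pool.Agent.Helper112
open Pool.Agent.L5helper11.PD (dn dn_nonneg dn_le_half dn_le dn_add_int dn_sub_le dn_mul_le dn_mul_eq
  dvd_of_dn_lt le_dn_of_not_dvd wt PQ fra mem_PQ frac_inj coprime_ten sd sd_nonneg sd_le_one
  FF FF_nonneg FF_le_one FF_anti FF_union)

/-- the digit sets: at least two digits in all but at most `N / 15` inner places -/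
structure GoodP (N : ℕ) (D : ℕ → Finset ℕ) : Prop where
  sub : ∀ i, D i ⊆ range 10
  ne : ∀ i, i ≤ N → (D i).Nonempty
  few : 15 * ((Ico 1 N).filter fun i => (D i).card < 2).card ≤ N

/-- the free places -/
def Fr (N : ℕ) (D : ℕ → Finset ℕ) : Finset ℕ := (Ico 1 N).filter fun i => 2 ≤ (D i).card

/-- the places of `W` which are not free -/
def NF (D : ℕ → Finset ℕ) (W : Finset ℕ) : Finset ℕ := W.filter fun i => (D i).card < 2

lemma mem_Fr {N : ℕ} {D : ℕ → Finset ℕ} {i : ℕ} : i ∈ Fr N D ↔ (1 ≤ i ∧ i < N) ∧ 2 ≤ (D i).card := by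
  unfold Fr
  rw [mem_filter, mem_Ico]

lemma mem_NF {D : ℕ → Finset ℕ} {W : Finset ℕ} {i : ℕ} : i ∈ NF D W ↔ i ∈ W ∧ (D i).card < 2 := by
  unfold NF
  rw [mem_filter]

/-- the saving from bad places -/
lemma FF_bd {N K : ℕ} {D : ℕ → Finset ℕ} (hD : ∀ i, D i ⊆ range 10) (hK0 : 0 < K) (hK : 2520 ∣ K) {A B : Finset ℕ}
    (hA : A ⊆ Fr N D) (hAB : A ⊆ B) {η : ℝ} (hη : 0 < η) (θ : ℝ) :
    FF N D B θ ≤ rho K η ^ (bd K N A η θ).card := by
  have h1 : bd K N A η θ ⊆ B := (filter_subset _ _).trans hAB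
  refine (FF_anti h1 θ).trans ?_
  unfold FF
  refine (Finset.prod_le_prod (fun _ _ => sd_nonneg _ _) fun j hj => ?_).trans
    (le_of_eq (Finset.prod_const (rho K η)))
  unfold bd at hj
  rw [mem_filter] at hj
  exact sd_bad (hD j) (mem_Fr.1 (hA hj.1)).2 hK0 hK hη hj.2

/-- all free places are used -/
lemma unc_full {N : ℕ} {D : ℕ → Finset ℕ} {u ℓ s : ℕ} (hu : 1 ≤ u) (hN : u + ℓ ≤ N) :
    s * unc s (Fr N D ∩ Ico u (u + ℓ)) (Ico u (u + ℓ)) ≤ (s + 1) * (NF D (Ico u (u + ℓ))).card + s := by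
  classical
  set W := Ico u (u + ℓ) with hW
  set A := Fr N D ∩ W with hA
  have hWF : ∀ j ∈ W, 2 ≤ (D j).card → j ∈ A := by
    intro j hj h2
    rw [hA, mem_inter, mem_Fr]
    rw [hW, mem_Ico] at hj
    exact ⟨⟨⟨by omega, by omega⟩, h2⟩, by rw [hW, mem_Ico]; exact hj⟩
  set E := A.filter fun j => ∀ b ∈ A, j < b → j + s < b with hE
  have h1 : (W.filter fun j => ¬ Cov s A j) ⊆ NF D W ∪ E := by
    intro j hj
    rw [mem_filter] at hj
    rw [mem_union, mem_NF]
    by_cases h2 : (D j).card < 2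
    · exact Or.inl ⟨hj.1, h2⟩
    · right
      rw [hE, mem_filter]
      refine ⟨hWF j hj.1 (by omega), fun b hb hjb => ?_⟩
      by_contra h3
      exact hj.2 ⟨j, hWF j hj.1 (by omega), b, hb, le_rfl, hjb, by omega⟩
  have h2 : unc s A W ≤ (NF D W).card + E.card := by
    unfold unc
    exact (card_le_card h1).trans (card_union_le _ _)
  have h3 : s * E.card ≤ (NF D W).card + s := by
    rcases Finset.eq_empty_or_nonempty E with h0 | h0
    · rw [h0]; simp
    set mx := E.max' h0 with hmx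
    have hmxE : mx ∈ E := E.max'_mem h0
    have h4 : (E.erase mx).biUnion (fun j => Ioc j (j + s)) ⊆ NF D W := by
      intro i hi
      rw [mem_biUnion] at hi
      obtain ⟨j, hj, hij⟩ := hi
      rw [mem_erase] at hj
      rw [mem_Ioc] at hij
      have hjmx : j < mx := lt_of_le_of_ne (E.le_max' j hj.2) hj.1
      have hjE := hj.2
      rw [hE, mem_filter] at hjE hmxE
      have h5 := hjE.2 mx hmxE.1 hjmx
      have hjW : j ∈ W := (mem_inter.1 hjE.1).2
      have hmW : mx ∈ W := (mem_inter.1 hmxE.1).2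
      rw [hW, mem_Ico] at hjW hmW
      rw [mem_NF]
      have hiW : i ∈ W := by rw [hW, mem_Ico]; omega
      refine ⟨hiW, ?_⟩
      by_contra h6
      have h7 := hjE.2 i (hWF i hiW (by omega)) (by omega)
      omega
    have h5 : ((E.erase mx).biUnion (fun j => Ioc j (j + s))).card = (E.erase mx).card * s := by
      rw [card_biUnion]
      · simp
      · intro a ha b hb hab
        change Disjoint (Ioc a (a + s)) (Ioc b (b + s))
        rw [Finset.disjoint_left]
        intro i hi hi2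
        rw [mem_Ioc] at hi hi2
        have haE := (mem_erase.1 ha).2
        have hbE := (mem_erase.1 hb).2
        rw [hE, mem_filter] at haE hbE
        rcases lt_or_gt_of_ne hab with h6 | h6
        · have := haE.2 b hbE.1 h6
          omega
        · have := hbE.2 a haE.1 h6
          omega
    have h6 := card_le_card h4
    rw [h5, card_erase_of_mem hmxE] at h6
    have h7 : 1 ≤ E.card := card_pos.2 h0
    obtain ⟨e, he⟩ : ∃ e, E.card = e + 1 := ⟨E.card - 1, by omega⟩
    rw [he] at h6 ⊢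
    have h8 : e + 1 - 1 = e := by omega
    rw [h8] at h6
    nlinarith
  calc s * unc s A W ≤ s * ((NF D W).card + E.card) := Nat.mul_le_mul_left _ h2
    _ = s * (NF D W).card + s * E.card := by ring
    _ ≤ s * (NF D W).card + ((NF D W).card + s) := Nat.add_le_add_left h3 _
    _ = _ := by ring

/-- a sparse set of free places: the first free place of every cell of length `t` -/
def Sp (N : ℕ) (D : ℕ → Finset ℕ) (t : ℕ) : Finset ℕ :=
  (Fr N D).filter fun i => ∀ i' ∈ Fr N D, i' / t = i / t → i ≤ i'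

lemma Sp_sub (N : ℕ) (D : ℕ → Finset ℕ) (t : ℕ) : Sp N D t ⊆ Fr N D := filter_subset _ _

lemma card_Sp (N : ℕ) (D : ℕ → Finset ℕ) (t : ℕ) : (Sp N D t).card ≤ N / t + 1 := by
  have h1 := Finset.card_le_card_of_injOn (s := Sp N D t) (t := range (N / t + 1)) (fun i => i / t) ?_ ?_
  · rwa [card_range] at h1
  · intro i hi
    rw [mem_coe] at hi
    have h2 := (mem_Fr.1 (Sp_sub N D t hi)).1.2
    rw [mem_coe, mem_range]
    exact Nat.lt_succ_of_le (Nat.div_le_div_right h2.le)
  · intro i hi j hj hij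
    rw [mem_coe] at hi hj
    unfold Sp at hi hj
    rw [mem_filter] at hi hj
    simp only at hij
    exact le_antisymm (hi.2 j hj.1 hij.symm) (hj.2 i hi.1 hij)

/-- every cell with a free place contains a place of `Sp` -/
lemma Sp_cell {N : ℕ} {D : ℕ → Finset ℕ} {t i : ℕ} (hi : i ∈ Fr N D) :
    ∃ a ∈ Sp N D t, a / t = i / t ∧ a ≤ i := by
  classical
  set S := (Fr N D).filter fun j => j / t = i / t with hS
  have hmem : ∀ j, j ∈ S ↔ j ∈ Fr N D ∧ j / t = i / t := by
    intro j
    rw [hS, mem_filter]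
  have hne : S.Nonempty := ⟨i, (hmem i).2 ⟨hi, rfl⟩⟩
  have h1 := (hmem _).1 (S.min'_mem hne)
  refine ⟨S.min' hne, ?_, h1.2, ?_⟩
  · unfold Sp
    rw [mem_filter]
    refine ⟨h1.1, fun i' hi' h2 => ?_⟩
    apply Finset.min'_le
    exact (hmem _).2 ⟨hi', h2.trans h1.2⟩
  · apply Finset.min'_le
    exact (hmem _).2 ⟨hi, rfl⟩

lemma unc_sparse {N : ℕ} {D : ℕ → Finset ℕ} {u ℓ t : ℕ} (hu : 1 ≤ u) (hN : u + ℓ ≤ N) (ht : 1 ≤ t) :
    unc (2 * t) (Sp N D t ∩ Ico u (u + ℓ)) (Ico u (u + ℓ)) ≤ 3 * (NF D (Ico u (u + ℓ))).card + 4 * t := by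
  classical
  set W := Ico u (u + ℓ) with hW
  set A := Sp N D t ∩ W with hA
  set B := NF D W with hB
  have h1 : (W.filter fun j => ¬ Cov (2 * t) A j) ⊆
      ((B ∪ B.image (fun j => j + t)) ∪ B.image (fun j => j - t)) ∪
        (Ico u (u + 2 * t) ∪ Ico (u + ℓ - 2 * t) (u + ℓ)) := by
    intro j hj
    rw [mem_filter] at hj
    have hjW := hj.1
    rw [hW, mem_Ico] at hjW
    by_contra hcon
    simp only [mem_union, not_or] at hcon
    obtain ⟨⟨⟨h2, h3⟩, h4⟩, h5, h6⟩ := hcon
    rw [mem_Ico] at h5 h6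
    have hj1 : u + 2 * t ≤ j := by
      by_contra h7
      exact h5 ⟨hjW.1, by omega⟩
    have hj2 : j + 2 * t < u + ℓ := by
      by_contra h7
      exact h6 ⟨by omega, hjW.2⟩
    have hfree : ∀ i, i ∈ W → i ∉ B → i ∈ Fr N D := by
      intro i hi hiB
      rw [mem_Fr]
      rw [hB, mem_NF] at hiB
      have h8 : ¬ (D i).card < 2 := fun h => hiB ⟨hi, h⟩
      rw [hW, mem_Ico] at hi
      exact ⟨⟨by omega, by omega⟩, by omega⟩
    -- the places `j - t`, `j`, `j + t` are free
    have hW0 : j ∈ W := hj.1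
    have hWm : j - t ∈ W := by rw [hW, mem_Ico]; omega
    have hWp : j + t ∈ W := by rw [hW, mem_Ico]; omega
    have f0 := hfree j hW0 h2
    have fm := hfree (j - t) hWm (fun h => h3 (mem_image.2 ⟨j - t, h, by omega⟩))
    have fp := hfree (j + t) hWp (fun h => h4 (mem_image.2 ⟨j + t, h, by omega⟩))
    obtain ⟨a0, ha0, ha1, ha2⟩ := Sp_cell (t := t) f0
    obtain ⟨b0, hb0, hb1, hb2⟩ := Sp_cell (t := t) fm
    obtain ⟨c0, hc0, hc1, hc2⟩ := Sp_cell (t := t) fp
    have e1 : (j - t) / t = j / t - 1 := by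
      have h7 := Nat.add_div_right (j - t) (show 0 < t by omega)
      rw [show j - t + t = j by omega] at h7
      rw [h7, Nat.add_sub_cancel]
    have e2 : (j + t) / t = j / t + 1 := Nat.add_div_right j (by omega)
    have d0 := Nat.div_add_mod j t
    have d0' := Nat.mod_lt j (show 0 < t by omega)
    have da := Nat.div_add_mod a0 t
    have da' := Nat.mod_lt a0 (show 0 < t by omega)
    have db := Nat.div_add_mod b0 t
    have db' := Nat.mod_lt b0 (show 0 < t by omega)
    have dc := Nat.div_add_mod c0 t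
    have dc' := Nat.mod_lt c0 (show 0 < t by omega)
    have hj1' : 1 ≤ j / t := by
      rw [Nat.le_div_iff_mul_le (by omega)]
      omega
    rw [ha1] at da
    rw [hb1, e1] at db
    rw [hc1, e2] at dc
    obtain ⟨k, hk⟩ : ∃ k, j / t = k + 1 := ⟨j / t - 1, by omega⟩
    rw [hk] at d0 da db dc
    have x1 : t * (k + 1) = t * k + t := by ring
    have x2 : t * (k + 1 + 1) = t * k + 2 * t := by ring
    have x3 : t * (k + 1 - 1) = t * k := by simp
    rw [x1] at d0 da
    rw [x2] at dc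
    rw [x3] at db
    have haW : a0 ∈ A := by rw [hA, mem_inter, hW, mem_Ico]; exact ⟨ha0, by omega, by omega⟩
    have hbW : b0 ∈ A := by rw [hA, mem_inter, hW, mem_Ico]; exact ⟨hb0, by omega, by omega⟩
    have hcW : c0 ∈ A := by rw [hA, mem_inter, hW, mem_Ico]; exact ⟨hc0, by omega, by omega⟩
    apply hj.2
    exact ⟨a0, haW, c0, hcW, ha2, by omega, by omega⟩
  unfold unc
  refine (card_le_card h1).trans ((card_union_le _ _).trans ?_)
  have h2 : ((B ∪ B.image (fun j => j + t)) ∪ B.image (fun j => j - t)).card ≤ 3 * B.card := by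
    refine (card_union_le _ _).trans ?_
    have h3 := card_union_le B (B.image (fun j => j + t))
    have h4 : (B.image (fun j => j + t)).card ≤ B.card := card_image_le
    have h5 : (B.image (fun j => j - t)).card ≤ B.card := card_image_le
    omega
  have h3 : (Ico u (u + 2 * t) ∪ Ico (u + ℓ - 2 * t) (u + ℓ)).card ≤ 4 * t := by
    refine (card_union_le _ _).trans ?_
    rw [Nat.card_Ico, Nat.card_Ico]
    omega
  omega

end Pool.Agent.L5helper11.PE
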