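import Pool.Agent.L5helper11.PD.Sieve

/-!
# Decimal palindromes and their digits
-/

set_option autoImplicit false

namespace Pool.Agent.L5helper11.PE

open Finset
open Pool.Agent.L5helper11.PD (wt vB vv Ix cf vB_inj XX S21 card_cf)

/-- the digits of the palindrome with lower half `e` -/
def dl (N : ℕ) (e : ℕ → ℕ) : List ℕ := (List.range (2 * N + 1)).map fun j => e (min j (2 * N - j))

lemma dl_length (N : ℕ) (e : ℕ → ℕ) : (dl N e).length = 2 * N + 1 := by simp [dl]

lemma dl_getElem {N : ℕ} {e : ℕ → ℕ} {i : ℕ} (h : i < (dl N e).length) :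
    (dl N e)[i] = e (min i (2 * N - i)) := by simp [dl]

lemma dl_reverse (N : ℕ) (e : ℕ → ℕ) : (dl N e).reverse = dl N e := by
  apply List.ext_getElem
  · simp
  · intro i h1 h2
    rw [dl_length] at h2
    rw [List.getElem_reverse, dl_getElem, dl_getElem]
    congr 1
    rw [dl_length]
    omega

lemma ofDigits_range (b : ℕ) (f : ℕ → ℕ) (n : ℕ) :
    Nat.ofDigits b ((List.range n).map f) = ∑ j ∈ range n, f j * b ^ j := by
  induction n with
  | zero => simp
  | succ n ih =>
    rw [List.range_succ, List.map_append, Nat.ofDigits_append, ih, sum_range_succ]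
    simp [mul_comm]

/-- the value of the palindrome with lower half `e` -/
lemma ofDigits_dl (N : ℕ) (e : ℕ → ℕ) : Nat.ofDigits 10 (dl N e) = ∑ i ∈ range (N + 1), e i * wt N i := by
  unfold dl
  rw [ofDigits_range, show 2 * N + 1 = (N + 1) + N by ring, sum_range_add, sum_range_succ, sum_range_succ]
  have h1 : ∑ j ∈ range N, e (min j (2 * N - j)) * 10 ^ j = ∑ j ∈ range N, e j * 10 ^ j := by
    refine sum_congr rfl fun j hj => ?_
    rw [mem_range] at hj
    rw [min_eq_left (by omega)]
  have h2 : ∑ j ∈ range N, e (min (N + 1 + j) (2 * N - (N + 1 + j))) * 10 ^ (N + 1 + j) =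
      ∑ j ∈ range N, e j * 10 ^ (2 * N - j) := by
    rw [← Finset.sum_range_reflect]
    refine sum_congr rfl fun j hj => ?_
    rw [mem_range] at hj
    rw [min_eq_right (by omega)]
    congr 2 <;> omega
  have h3 : ∑ j ∈ range N, e j * wt N j = ∑ j ∈ range N, e j * 10 ^ j + ∑ j ∈ range N, e j * 10 ^ (2 * N - j) := by
    rw [← sum_add_distrib]
    refine sum_congr rfl fun j hj => ?_
    rw [mem_range] at hj
    unfold wt
    rw [if_pos hj]
    ring
  have h4 : wt N N = 10 ^ N := by
    unfold wt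
    rw [if_neg (by omega)]
  rw [h1, h2, h3, h4, min_eq_left (by omega)]
  ring

/-- digits of the value -/
lemma digits_val {N : ℕ} {e : ℕ → ℕ} (he : ∀ i, e i < 10) (h0 : e 0 ≠ 0) :
    Nat.digits 10 (∑ i ∈ range (N + 1), e i * wt N i) = dl N e := by
  rw [← ofDigits_dl]
  apply Nat.digits_ofDigits 10 (by norm_num)
  · intro x hx
    unfold dl at hx
    rw [List.mem_map] at hx
    obtain ⟨j, _, rfl⟩ := hx
    exact he _
  · intro h
    rw [List.getLast_eq_getElem, dl_getElem, dl_length]
    have : min (2 * N + 1 - 1) (2 * N - (2 * N + 1 - 1)) = 0 := by omega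
    rw [this]
    exact h0

lemma val_pal {N : ℕ} {e : ℕ → ℕ} (he : ∀ i, e i < 10) (h0 : e 0 ≠ 0) :
    (Nat.digits 10 (∑ i ∈ range (N + 1), e i * wt N i)).reverse =
      Nat.digits 10 (∑ i ∈ range (N + 1), e i * wt N i) := by
  rw [digits_val he h0, dl_reverse]

lemma val_digit {N : ℕ} {e : ℕ → ℕ} (he : ∀ i, e i < 10) (h0 : e 0 ≠ 0) {i : ℕ} (hi : i ≤ N) :
    (∑ i ∈ range (N + 1), e i * wt N i) / 10 ^ i % 10 = e i := by
  have h3 := Nat.getD_digits (∑ i ∈ range (N + 1), e i * wt N i) i (b := 10) (by norm_num)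
  rw [digits_val he h0] at h3
  rw [← h3, List.getD_eq_getElem _ _ (by rw [dl_length]; omega), dl_getElem, min_eq_left (by omega)]

lemma val_lt {N : ℕ} {e : ℕ → ℕ} (he : ∀ i, e i < 10) :
    ∑ i ∈ range (N + 1), e i * wt N i < 10 ^ (2 * N + 1) := by
  have h1 : ∑ i ∈ range (N + 1), e i * wt N i ≤ ∑ i ∈ range (N + 1), 9 * wt N i :=
    sum_le_sum fun i _ => Nat.mul_le_mul_right _ (by have := he i; omega)
  have h2 := Pool.Agent.L5helper11.PD.wt_sum_lt N
  rw [← mul_sum] at h1
  omega

lemma le_val {N : ℕ} {e : ℕ → ℕ} (h0 : e 0 ≠ 0) : 10 ^ (2 * N) ≤ ∑ i ∈ range (N + 1), e i * wt N i := by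
  have h1 : e 0 * wt N 0 ≤ ∑ i ∈ range (N + 1), e i * wt N i :=
    single_le_sum (f := fun i => e i * wt N i) (fun _ _ => Nat.zero_le _) (mem_range.2 (by omega))
  refine le_trans ?_ h1
  have h2 : 10 ^ (2 * N) ≤ wt N 0 := by
    unfold wt
    split_ifs with h
    · rw [Nat.sub_zero]
      omega
    · have : N = 0 := by omega
      subst this
      norm_num
  calc 10 ^ (2 * N) ≤ wt N 0 := h2
    _ = 1 * wt N 0 := by ring
    _ ≤ _ := Nat.mul_le_mul_right _ (Nat.pos_of_ne_zero h0)

/-- every palindrome has this form -/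
lemma pal_val {N n : ℕ} (h1 : 10 ^ (2 * N) ≤ n) (h2 : n < 10 ^ (2 * N + 1))
    (h3 : (Nat.digits 10 n).reverse = Nat.digits 10 n) :
    n = ∑ i ∈ range (N + 1), (n / 10 ^ i % 10) * wt N i := by
  have hlen : (Nat.digits 10 n).length = 2 * N + 1 := by
    apply le_antisymm
    · exact (Nat.digits_length_le_iff (by norm_num) n).2 h2
    · exact (Nat.lt_digits_length_iff (by norm_num) n).2 h1
  have h4 : Nat.digits 10 n = dl N fun i => n / 10 ^ i % 10 := by
    apply List.ext_getElem
    · rw [hlen, dl_length]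
    · intro i hi1 hi2
      rw [dl_getElem]
      have e : ∀ j (hj : j < (Nat.digits 10 n).length), (Nat.digits 10 n)[j] = n / 10 ^ j % 10 := by
        intro j hj
        have h5 := Nat.getD_digits n j (b := 10) (by norm_num)
        rw [← h5, List.getD_eq_getElem _ _ hj]
      rcases le_total i (2 * N - i) with h | h
      · rw [min_eq_left h]
        exact e i hi1
      · rw [min_eq_right h]
        have h5 : (Nat.digits 10 n)[i] = (Nat.digits 10 n).reverse[i]'(by rw [List.length_reverse]; exact hi1) := by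
          congr 1
          exact h3.symm
        have h6 : (Nat.digits 10 n).length - 1 - i = 2 * N - i := by rw [hlen]; omega
        rw [h5, List.getElem_reverse, e, h6]
  conv_lhs => rw [← Nat.ofDigits_digits 10 n, h4]
  exact ofDigits_dl N _

/-- extension of a choice of digits -/
def xt (N : ℕ) (m : Ix N) (i : ℕ) : ℕ := if h : i ∈ range (N + 1) then m ⟨i, h⟩ else 0

lemma vv_eq (N : ℕ) (m : Ix N) : vv N m = ∑ i ∈ range (N + 1), xt N m i * wt N i := by
  unfold vv vB
  rw [← Finset.sum_coe_sort (range (N + 1)) (fun i => xt N m i * wt N i)]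
  refine sum_congr rfl fun i _ => ?_
  unfold xt
  rw [dif_pos i.2]

end Pool.Agent.L5helper11.PE
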