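import Pool.Agent.L5helper11.PE.Mid
import Pool.Agent.L5helper11.PD.Big

/-!
# Small denominators
-/

set_option autoImplicit false

namespace Pool.Agent.L5helper11.PE

open Finset Filter Topology Pool.Agent.Helper112
open Pool.Agent.L5helper11.PD (dn dn_nonneg dn_le_half dn_le dn_add_int dn_sub_le dn_mul_le dn_mul_eq
  dvd_of_dn_lt le_dn_of_not_dvd wt wt_step PQ fra mem_PQ card_PQ frac_inj coprime_ten sd sd_nonneg sd_le_one
  FF FF_nonneg FF_le_one FF_anti FF_union few_bound len len_spec le_len log_ten eleven_wt)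

/-- two neighbouring free places -/
lemma adjacent {N ℓ k : ℕ} {D : ℕ → Finset ℕ} (hN : 1 + ℓ * k + ℓ ≤ N) (hℓ : 2 ≤ ℓ)
    (hd : 14 * (NF D (Wn ℓ k)).card ≤ ℓ) : ∃ i, i ∈ Fr N D ∩ Wn ℓ k ∧ i + 1 ∈ Fr N D ∩ Wn ℓ k := by
  classical
  by_contra hcon
  push Not at hcon
  have h1 : ∀ j ∈ range (ℓ / 2), ∃ i, i ∈ NF D (Wn ℓ k) ∧ (i = 1 + ℓ * k + 2 * j ∨ i = 1 + ℓ * k + 2 * j + 1) := by
    intro j hj
    rw [mem_range] at hj
    set i := 1 + ℓ * k + 2 * j with hi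
    have hiW : i ∈ Wn ℓ k := by rw [mem_Wn]; omega
    have hiW1 : i + 1 ∈ Wn ℓ k := by rw [mem_Wn]; omega
    by_cases h2 : (D i).card < 2
    · exact ⟨i, mem_NF.2 ⟨hiW, h2⟩, Or.inl rfl⟩
    by_cases h3 : (D (i + 1)).card < 2
    · exact ⟨i + 1, mem_NF.2 ⟨hiW1, h3⟩, Or.inr rfl⟩
    exfalso
    apply hcon i
    · rw [mem_inter, mem_Fr]
      exact ⟨⟨by omega, by omega⟩, hiW⟩
    · rw [mem_inter, mem_Fr]
      rw [mem_Wn] at hiW1
      exact ⟨⟨by omega, by omega⟩, by rw [mem_Wn]; exact hiW1⟩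
  choose! f hf1 hf2 using h1
  have h2 := Finset.card_le_card_of_injOn (s := range (ℓ / 2)) (t := NF D (Wn ℓ k)) f
    (fun j hj => hf1 j hj) (by
      intro a ha b hb hab
      have h3 := hf2 a ha
      have h4 := hf2 b hb
      omega)
  rw [card_range] at h2
  omega

/-- no denominator divides two neighbouring weights -/
lemma no_dvd {N i q : ℕ} (hi : i + 1 < N) (hq : 1 < q) (hc : q.Coprime 210) (h1 : q ∣ wt N i)
    (h2 : q ∣ wt N (i + 1)) : False := by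
  have h3 := wt_step (N := N) (i := i) (s := 1) hi
  have h4 : q ∣ 10 ^ i * 99 := by
    have e : 10 ^ 1 * wt N (i + 1) = wt N i + 10 ^ i * 99 := by
      have : 10 ^ (2 * 1) * 10 ^ i = 10 ^ i * 99 + 10 ^ i := by ring
      omega
    have h5 : q ∣ wt N i + 10 ^ i * 99 := by
      rw [← e]
      exact Dvd.dvd.mul_left h2 _
    exact (Nat.dvd_add_right h1).1 h5
  have h5 : q ∣ 99 := (Nat.Coprime.pow_right i (coprime_ten hc)).dvd_of_dvd_mul_left h4
  have h6 : q ∣ 11 := by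
    have e : 99 = 11 * 3 ^ 2 := by norm_num
    rw [e] at h5
    have h8 : q.Coprime 3 := Nat.Coprime.coprime_dvd_right ⟨70, by norm_num⟩ hc
    exact (h8.pow_right 2).dvd_of_dvd_mul_right h5
  have h7 : q = 11 := by
    rcases (Nat.dvd_prime (by norm_num : Nat.Prime 11)).1 h6 with h8 | h8
    · omega
    · exact h8
  subst h7
  exact eleven_wt (by omega) h1

/-- every window with many free places contains a bad place -/
lemma bad_window {N ℓ k q h : ℕ} {D : ℕ → Finset ℕ} {η : ℝ} (hN : 1 + ℓ * k + ℓ ≤ N) (hℓ : 2 ≤ ℓ)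
    (hd : 14 * (NF D (Wn ℓ k)).card ≤ ℓ) (hq : 1 < q) (hq2 : q ≤ 10 ^ ℓ) (hc : q.Coprime 210)
    (hh : h.Coprime q) (hη : 0 < η)
    (hlarge : 6 * ((2 * (2520 * LL 20) + 1 : ℕ) : ℝ) * Real.exp (12 / 5 * (3 / 40 * ℓ + 1)) <
      tol 20 / (21 * η) - 1) :
    1 ≤ (bd 2520 N (Fr N D ∩ Wn ℓ k) η (fra (q, h))).card := by
  classical
  by_contra hcon
  have h0 : bd 2520 N (Fr N D ∩ Wn ℓ k) η (fra (q, h)) = ∅ := card_eq_zero.1 (by omega)
  set A := Fr N D ∩ Wn ℓ k with hA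
  have hq0 : 0 < q := by omega
  have hqR : (0 : ℝ) < q := by exact_mod_cast hq0
  have hgood : ∀ a ∈ A, dn ((2520 : ℕ) * (wt N a * fra (q, h))) < η := by
    intro a ha
    by_contra h1
    rw [not_lt] at h1
    have h2 : a ∈ bd 2520 N A η (fra (q, h)) := by
      unfold bd
      rw [mem_filter]
      exact ⟨ha, h1⟩
    rw [h0] at h2
    simp at h2
  rcases le_or_gt ((q : ℝ) * η) 1 with hqη | hqη
  · -- small `q`
    have hdvd : ∀ a ∈ A, q ∣ wt N a := by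
      intro a ha
      have h1 := hgood a ha
      have e : ((2520 : ℕ) : ℝ) * (wt N a * fra (q, h)) = (((120 * (wt N a * h) : ℕ) : ℤ) : ℝ) / (q : ℝ) := by
        unfold fra
        push_cast
        field_simp
        ring
      rw [e] at h1
      have h2 := dvd_of_dn_lt hq0 (c := ((120 * (wt N a * h) : ℕ) : ℤ)) (h1.trans_le (by
        rw [le_div_iff₀ hqR]
        linarith))
      have h3 : q ∣ 120 * (wt N a * h) := by exact_mod_cast h2
      have hc2 : q.Coprime 120 := by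
        have h7 : q.Coprime 2 := Nat.Coprime.coprime_dvd_right ⟨105, by norm_num⟩ hc
        have h8 : q.Coprime 3 := Nat.Coprime.coprime_dvd_right ⟨70, by norm_num⟩ hc
        have h9 : q.Coprime 5 := Nat.Coprime.coprime_dvd_right ⟨42, by norm_num⟩ hc
        have e2 : 120 = 2 ^ 3 * 3 * 5 := by norm_num
        rw [e2]
        exact Nat.Coprime.mul_right (Nat.Coprime.mul_right (h7.pow_right 3) h8) h9
      exact hh.symm.dvd_of_dvd_mul_right (hc2.dvd_of_dvd_mul_left h3)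
    obtain ⟨i, hi1, hi2⟩ := adjacent hN hℓ hd
    have hi3 := (mem_Fr.1 (mem_inter.1 hi2).1).1.2
    exact no_dvd hi3 hq hc (hdvd i hi1) (hdvd (i + 1) hi2)
  · -- large `q`: many multiples
    set m0 := ⌊tol 20 / (21 * η)⌋₊ with hm0
    have hm0le : (m0 : ℝ) ≤ tol 20 / (21 * η) := Nat.floor_le (div_nonneg (tol_pos 20).le (by positivity))
    have hm0lt : tol 20 / (21 * η) < m0 + 1 := Nat.lt_floor_add_one _
    have hm0q : m0 ≤ q := by
      have h1 : tol 20 / (21 * η) ≤ q := by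
        rw [div_le_iff₀ (by positivity)]
        have := tol_le_one 20
        nlinarith
      exact_mod_cast hm0le.trans h1
    set P := range q with hP
    set Θ := P.filter fun a : ℕ => ∀ b ∈ A, dn ((2520 : ℕ) * (wt N b * ((a : ℝ) / q))) ≤ tol 20 with hΘ
    have h1 : m0 ≤ Θ.card := by
      have h2 := Finset.card_le_card_of_injOn (s := range m0) (t := Θ) (fun m => (m * h) % q) ?_ ?_
      · rwa [card_range] at h2
      · intro m hm
        rw [mem_coe, mem_range] at hm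
        rw [mem_coe, hΘ, mem_filter, hP, mem_range]
        refine ⟨Nat.mod_lt _ hq0, fun b hb => ?_⟩
        have h3 := hgood b hb
        have e1 : ((2520 : ℕ) : ℝ) * (wt N b * ((((m * h) % q : ℕ) : ℝ) / q)) =
            ((21 * m : ℕ) : ℝ) * ((2520 : ℕ) * (wt N b * fra (q, h))) +
            (((-((2520 * wt N b * ((m * h) / q) : ℕ) : ℤ)) : ℤ) : ℝ) := by
          have e2 := Nat.div_add_mod (m * h) q
          have e3 : (q : ℝ) * (((m * h) / q : ℕ) : ℝ) + (((m * h) % q : ℕ) : ℝ) = m * h := by exact_mod_cast e2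
          have e5 : (((-((2520 * wt N b * ((m * h) / q) : ℕ) : ℤ)) : ℤ) : ℝ) =
              -(2520 * (wt N b : ℝ) * (((m * h) / q : ℕ) : ℝ)) := by
            rw [Int.cast_neg, Int.cast_natCast, Nat.cast_mul, Nat.cast_mul, Nat.cast_ofNat]
          rw [e5]
          generalize (((m * h) / q : ℕ) : ℝ) = d at e3 ⊢
          have e4 : (((m * h) % q : ℕ) : ℝ) = m * h - q * d := by linarith
          rw [e4]
          unfold fra
          push_cast
          field_simp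
          ring
        rw [e1, dn_add_int]
        refine (dn_mul_le _ _).trans ?_
        have h4 : ((21 * m : ℕ) : ℝ) * dn ((2520 : ℕ) * (wt N b * fra (q, h))) ≤ ((21 * m : ℕ) : ℝ) * η :=
          mul_le_mul_of_nonneg_left h3.le (Nat.cast_nonneg _)
        refine h4.trans ?_
        have h5 : (m : ℝ) ≤ tol 20 / (21 * η) := by
          have : (m : ℝ) ≤ m0 := by exact_mod_cast hm.le
          linarith
        rw [le_div_iff₀ (by positivity)] at h5
        push_cast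
        linarith
      · intro a ha b hb hab
        rw [mem_coe, mem_range] at ha hb
        have h3 : a * h ≡ b * h [MOD q] := hab
        have h4 : a ≡ b [MOD q] := Nat.ModEq.cancel_right_of_coprime (by rw [Nat.gcd_comm]; exact hh) h3
        rwa [Nat.ModEq, Nat.mod_eq_of_lt (by omega), Nat.mod_eq_of_lt (by omega)] at h4
    have h2 : Θ.card ≤ ((2 * (2520 * LL 20) + 1) * (q / 10 ^ ℓ + 2)) *
        (Θ.image fun x : ℕ => pos 20 (1 + ℓ * k) ℓ 2520 ((x : ℝ) / q)).card := by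
      refine Finset.card_le_mul_card_image Θ _ fun c _ => ?_
      refine (card_le_card ?_).trans (pos_den (M := q) (s := 20) (u := 1 + ℓ * k) (ℓ := ℓ) (K := 2520) hq0
        (coprime_ten hc) (by norm_num) c)
      intro x hx
      rw [mem_filter, hΘ, mem_filter] at hx
      rw [mem_filter]
      exact ⟨hx.1.1, hx.2⟩
    have h3 := cls Θ (fun x : ℕ => (x : ℝ) / q) (s := 20) (u := 1 + ℓ * k) (N := N) (K := 2520) (A := A)
      (η := tol 20) (by
        intro a ha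
        rw [hA, mem_inter, mem_Wn] at ha
        omega) (tol_spec 20) (fun x hx b hb => by
        rw [hΘ, mem_filter] at hx
        exact hx.2 b hb) ℓ
    have h4 : q / 10 ^ ℓ ≤ 1 := by
      apply Nat.div_le_of_le_mul
      rw [mul_one]
      exact hq2
    have hunc := unc_full (N := N) (D := D) (u := 1 + ℓ * k) (ℓ := ℓ) (s := 20) (by omega) hN
    have h5 : ((unc 20 A (Ico (1 + ℓ * k) (1 + ℓ * k + ℓ)) : ℕ) : ℝ) ≤ 3 / 40 * ℓ + 1 := by
      have h6 : 280 * unc 20 A (Ico (1 + ℓ * k) (1 + ℓ * k + ℓ)) ≤ 21 * ℓ + 280 := by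
        rw [hA]
        unfold Wn at hd ⊢
        omega
      have h7 : 280 * ((unc 20 A (Ico (1 + ℓ * k) (1 + ℓ * k + ℓ)) : ℕ) : ℝ) ≤ 21 * ℓ + 280 := by
        exact_mod_cast h6
      linarith
    have h6 := eleven_pow_le h5
    have h7 : m0 ≤ ((2 * (2520 * LL 20) + 1) * 3) * (2 * 11 ^ unc 20 A (Ico (1 + ℓ * k) (1 + ℓ * k + ℓ))) := by
      refine h1.trans (h2.trans ?_)
      apply Nat.mul_le_mul _ h3
      exact Nat.mul_le_mul_left _ (by omega)
    have h8 : (m0 : ℝ) ≤ 6 * ((2 * (2520 * LL 20) + 1 : ℕ) : ℝ) * Real.exp (12 / 5 * (3 / 40 * ℓ + 1)) := by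
      have h9 : (m0 : ℝ) ≤ ((((2 * (2520 * LL 20) + 1) * 3) *
          (2 * 11 ^ unc 20 A (Ico (1 + ℓ * k) (1 + ℓ * k + ℓ))) : ℕ) : ℝ) := by exact_mod_cast h7
      refine h9.trans ?_
      rw [Nat.cast_mul, Nat.cast_mul (2 * (2520 * LL 20) + 1) 3]
      have hC0 : (0 : ℝ) ≤ ((2 * (2520 * LL 20) + 1 : ℕ) : ℝ) := Nat.cast_nonneg _
      set C1 : ℝ := ((2 * (2520 * LL 20) + 1 : ℕ) : ℝ)
      have e : ((2 * 11 ^ unc 20 A (Ico (1 + ℓ * k) (1 + ℓ * k + ℓ)) : ℕ) : ℝ) =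
          2 * 11 ^ unc 20 A (Ico (1 + ℓ * k) (1 + ℓ * k + ℓ)) := by push_cast; ring
      rw [e]
      calc C1 * ((3 : ℕ) : ℝ) * (2 * 11 ^ unc 20 A (Ico (1 + ℓ * k) (1 + ℓ * k + ℓ)))
          = 6 * C1 * 11 ^ unc 20 A (Ico (1 + ℓ * k) (1 + ℓ * k + ℓ)) := by push_cast; ring
        _ ≤ _ := by gcongr
    linarith

/-- small denominators -/
theorem small_one (A0 : ℕ) : ∀ᶠ N : ℕ in atTop, ∀ D : ℕ → Finset ℕ, GoodP N D → ∀ q h : ℕ, 1 < q → q ≤ N ^ 6 →
    q.Coprime 210 → h.Coprime q → FF N D (range (N + 1)) (fra (q, h)) ≤ 1 / (N : ℝ) ^ A0 := by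
  classical
  set C1 : ℝ := ((2 * (2520 * LL 20) + 1 : ℕ) : ℝ) with hC1
  have hC10 : 0 ≤ C1 := Nat.cast_nonneg _
  have ht0 := tol_pos 20
  -- comparison of powers
  have e1 : ∀ᶠ N : ℕ in atTop, 6 * C1 * Real.exp 3 * (N : ℝ) ^ (47 / 100 : ℝ) + 1 <
      tol 20 / 21 * (N : ℝ) ^ (12 / 25 : ℝ) := by
    have h1 : Tendsto (fun N : ℕ => (N : ℝ) ^ (1 / 100 : ℝ)) atTop atTop :=
      (tendsto_rpow_atTop (by norm_num)).comp tendsto_natCast_atTop_atTop
    filter_upwards [h1.eventually_gt_atTop ((6 * C1 * Real.exp 3 + 1) / (tol 20 / 21)),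
      eventually_ge_atTop 1] with N hN hN1
    have hNp : (0 : ℝ) < N := by exact_mod_cast hN1
    have hN1' : (1 : ℝ) ≤ N := by exact_mod_cast hN1
    rw [div_lt_iff₀ (by positivity)] at hN
    have e2 : (N : ℝ) ^ (12 / 25 : ℝ) = (N : ℝ) ^ (1 / 100 : ℝ) * (N : ℝ) ^ (47 / 100 : ℝ) := by
      rw [← Real.rpow_add hNp]
      norm_num
    have h2 : (1 : ℝ) ≤ (N : ℝ) ^ (47 / 100 : ℝ) := Real.one_le_rpow hN1' (by norm_num)
    rw [e2]
    calc 6 * C1 * Real.exp 3 * (N : ℝ) ^ (47 / 100 : ℝ) + 1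
        ≤ (6 * C1 * Real.exp 3 + 1) * (N : ℝ) ^ (47 / 100 : ℝ) := by linarith
      _ < (N : ℝ) ^ (1 / 100 : ℝ) * (tol 20 / 21) * (N : ℝ) ^ (47 / 100 : ℝ) :=
          mul_lt_mul_of_pos_right hN (by linarith)
      _ = _ := by ring
  have hlog : ∀ c : ℝ, 0 < c → ∀ᶠ N : ℕ in atTop, Real.log N ≤ c * (N : ℝ) ^ (1 / 100 : ℝ) := by
    intro c hc
    have h1 := (isLittleO_log_rpow_atTop (show (0 : ℝ) < 1 / 100 by norm_num)).def hc
    have h2 := tendsto_natCast_atTop_atTop (R := ℝ) |>.eventually h1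
    filter_upwards [h2, eventually_ge_atTop 1] with N hN hN1
    have hNp : (0 : ℝ) < N := by exact_mod_cast hN1
    rw [Real.norm_of_nonneg (Real.log_natCast_nonneg N), Real.norm_of_nonneg (by positivity)] at hN
    exact hN
  have hbig : ∀ c : ℝ, ∀ᶠ N : ℕ in atTop, c ≤ (N : ℝ) ^ (1 / 100 : ℝ) := by
    intro c
    have h1 : Tendsto (fun N : ℕ => (N : ℝ) ^ (1 / 100 : ℝ)) atTop atTop :=
      (tendsto_rpow_atTop (by norm_num)).comp tendsto_natCast_atTop_atTop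
    exact h1.eventually_ge_atTop c
  set c0 : ℝ := 2 / 5 * (1 / 2520) ^ 2 / 15 with hc0
  have hc0p : 0 < c0 := by rw [hc0]; positivity
  filter_upwards [e1, hlog (1 / 4) (by norm_num), hbig 2, hbig ((A0 + 1) / c0), eventually_ge_atTop 10]
    with N h1 h2 h3 h4 hN10 D hD q h hq hq6 hc hh
  have hNp : (0 : ℝ) < N := by exact_mod_cast (show 0 < N by omega)
  have hN1 : (1 : ℝ) ≤ N := by exact_mod_cast (show 1 ≤ N by omega)
  set ℓ := Nat.clog 10 (N ^ 6) with hℓ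
  have hspec : N ^ 6 ≤ 10 ^ ℓ := Nat.le_pow_clog (by norm_num) _
  have hlN : 0 ≤ Real.log N := Real.log_natCast_nonneg N
  have hℓle : (ℓ : ℝ) ≤ 1 + 60 / 23 * Real.log N := by
    have h5 : 10 ^ ℓ.pred < N ^ 6 := Nat.pow_pred_clog_lt_self (by norm_num) (by
      have : 1 < 10 ^ 6 := by norm_num
      exact this.trans_le (Nat.pow_le_pow_left hN10 6))
    have h6 : (10 : ℝ) ^ ℓ.pred < (N : ℝ) ^ 6 := by exact_mod_cast h5
    have h7 := Real.log_lt_log (by positivity) h6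
    rw [Real.log_pow, Real.log_pow] at h7
    have h8 : (ℓ : ℝ) ≤ ℓ.pred + 1 := by
      have : ℓ ≤ ℓ.pred + 1 := by
        rw [Nat.pred_eq_sub_one]
        omega
      exact_mod_cast this
    have h9 := log_ten_gt
    have h10 : (0 : ℝ) ≤ (ℓ.pred : ℝ) := Nat.cast_nonneg _
    push_cast at h7
    have h11 : (ℓ.pred : ℝ) * (23 / 10) ≤ 6 * Real.log N := by nlinarith
    linarith
  have hℓ2 : 2 ≤ ℓ := by
    by_contra hcon
    have h5 : 10 ^ ℓ ≤ 10 ^ 1 := Nat.pow_le_pow_right (by norm_num) (by omega)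
    have h6 : 10 ^ 6 ≤ N ^ 6 := Nat.pow_le_pow_left hN10 6
    have h7 : (10 : ℕ) ^ 6 ≤ 10 ^ 1 := h6.trans (hspec.trans h5)
    norm_num at h7
  have hℓ0 : (0 : ℝ) < ℓ := by exact_mod_cast (show 0 < ℓ by omega)
  set η : ℝ := (N : ℝ) ^ (-(12 / 25) : ℝ) with hη
  have hη0 : 0 < η := by positivity
  have hη1 : η ≤ 1 := Real.rpow_le_one_of_one_le_of_nonpos hN1 (by norm_num)
  have hlarge : 6 * C1 * Real.exp (12 / 5 * (3 / 40 * ℓ + 1)) < tol 20 / (21 * η) - 1 := by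
    have h5 : Real.exp (12 / 5 * (3 / 40 * ℓ + 1)) ≤ Real.exp 3 * (N : ℝ) ^ (47 / 100 : ℝ) := by
      rw [Real.rpow_def_of_pos hNp, ← Real.exp_add]
      apply Real.exp_le_exp.2
      linarith
    have h6 : tol 20 / (21 * η) = tol 20 / 21 * (N : ℝ) ^ (12 / 25 : ℝ) := by
      rw [hη, Real.rpow_neg hNp.le]
      field_simp
    rw [h6]
    have h7 : 6 * C1 * Real.exp (12 / 5 * (3 / 40 * ℓ + 1)) ≤ 6 * C1 * (Real.exp 3 * (N : ℝ) ^ (47 / 100 : ℝ)) :=
      mul_le_mul_of_nonneg_left h5 (by positivity)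
    linarith
  have hw : ∀ k ∈ dense N D ℓ, 1 ≤ (bd 2520 N (Fr N D ∩ Wn ℓ k) η (fra (q, h))).card := by
    intro k hk
    unfold dense at hk
    rw [mem_filter, mem_range] at hk
    exact bad_window (Wn_end (by omega) hk.1) hℓ2 hk.2 hq (hq6.trans hspec) hc hh hη0 hlarge
  have h5 := FF_windows (N := N) (K := 2520) (ℓ := ℓ) (R := 1) hD.sub (by omega) (by norm_num) (dvd_refl _)
    hη0 hη1 (filter_subset _ _ : dense N D ℓ ⊆ range ((N - 1) / ℓ)) (fra (q, h)) hw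
  rw [pow_one] at h5
  refine h5.trans ?_
  have h6 := dense_many hD (by omega) (show 1 ≤ ℓ by omega)
  -- the exponential bound
  have h7 : rho 2520 η ≤ Real.exp (-(15 * c0 * η ^ 2)) := by
    have h8 := Real.add_one_le_exp (-(15 * c0 * η ^ 2))
    have e : rho 2520 η = -(15 * c0 * η ^ 2) + 1 := by
      unfold rho
      rw [hc0]
      push_cast
      ring
    rw [e]
    exact h8
  have h8 : rho 2520 η ^ (dense N D ℓ).card ≤ Real.exp (-(15 * c0 * η ^ 2) * ((dense N D ℓ).card : ℝ)) := by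
    refine (pow_le_pow_left₀ (rho_pos (by norm_num) hη0 hη1).le h7 _).trans (le_of_eq ?_)
    rw [← Real.exp_nat_mul]
    congr 1
    ring
  refine h8.trans ?_
  have h9 : 1 / (N : ℝ) ^ A0 = Real.exp (-(A0 * Real.log N)) := by
    rw [Real.exp_neg, mul_comm, Real.exp_mul, Real.exp_log hNp, Real.rpow_natCast, one_div]
  rw [h9]
  apply Real.exp_le_exp.2
  rw [neg_mul, neg_le_neg_iff]
  -- `N ^ (1 / 100)`
  set X : ℝ := (N : ℝ) ^ (1 / 100 : ℝ) with hX
  have hX0 : 0 < X := by positivity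
  have hη2 : η ^ 2 * N = X ^ 4 := by
    rw [hη, hX, ← Real.rpow_natCast, ← Real.rpow_natCast, ← Real.rpow_mul hNp.le, ← Real.rpow_mul hNp.le]
    rw [← Real.rpow_add_one hNp.ne']
    norm_num
  have hℓX : (ℓ : ℝ) ≤ 2 * X := by
    have : 60 / 23 * Real.log N ≤ 60 / 23 * (1 / 4 * X) := mul_le_mul_of_nonneg_left h2 (by norm_num)
    linarith
  have h10 : η ^ 2 * (N / (15 * ℓ)) ≥ X ^ 3 / 30 := by
    have e : η ^ 2 * (N / (15 * ℓ)) = X ^ 4 / (15 * ℓ) := by rw [← hη2]; ring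
    rw [e, ge_iff_le, div_le_div_iff₀ (by norm_num) (by positivity)]
    calc X ^ 3 * (15 * ℓ) ≤ X ^ 3 * (15 * (2 * X)) := by gcongr
      _ = X ^ 4 * 30 := by ring
  have h11 : η ^ 2 * 2 ≤ 2 := by
    have : η ^ 2 ≤ 1 := pow_le_one₀ hη0.le hη1
    linarith
  have h12 : X ^ 3 / 30 - 2 ≤ η ^ 2 * ((dense N D ℓ).card : ℝ) := by
    have h13 := mul_le_mul_of_nonneg_left h6 (show 0 ≤ η ^ 2 by positivity)
    rw [mul_sub] at h13
    linarith
  have h13 : (A0 : ℝ) * Real.log N ≤ A0 * (1 / 4 * X) := mul_le_mul_of_nonneg_left h2 (Nat.cast_nonneg _)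
  have h14 : (A0 + 1 : ℝ) ≤ c0 * X := by
    rw [div_le_iff₀ hc0p] at h4
    linarith
  have h15 : 15 * c0 * (X ^ 3 / 30 - 2) ≤ 15 * c0 * η ^ 2 * ((dense N D ℓ).card : ℝ) := by
    have := mul_le_mul_of_nonneg_left h12 (show 0 ≤ 15 * c0 by positivity)
    linarith
  refine h13.trans (le_trans ?_ h15)
  have hc01 : c0 ≤ 1 / 60 := by rw [hc0]; norm_num
  have hA0 : (0 : ℝ) ≤ A0 := Nat.cast_nonneg _
  -- `c0 X ^ 3 / 2 - 30 c0 ≥ (A0 + 1) X ^ 2 / 2 - 1 / 2 ≥ A0 X / 4`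
  have h16 : (A0 + 1) * X ^ 2 ≤ c0 * X ^ 3 := by
    have := mul_le_mul_of_nonneg_right h14 (show 0 ≤ X ^ 2 by positivity)
    linarith
  have h17 : (A0 + 1) * X ≤ (A0 + 1) * X ^ 2 := by
    have : X ≤ X ^ 2 := by nlinarith
    exact mul_le_mul_of_nonneg_left this (by linarith)
  have h18 : (A0 : ℝ) * X + X ≤ c0 * X ^ 3 := by
    have e : (A0 : ℝ) * X + X = (A0 + 1) * X := by ring
    rw [e]
    exact h17.trans h16
  have h19 : 0 ≤ (A0 : ℝ) * X := by positivity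
  have e : 15 * c0 * (X ^ 3 / 30 - 2) = c0 * X ^ 3 / 2 - 30 * c0 := by ring
  rw [e]
  have h20 : (A0 : ℝ) * (1 / 4 * X) = (A0 : ℝ) * X / 4 := by ring
  rw [h20]
  have h21 : 30 * c0 ≤ 1 / 2 := by linarith
  generalize (A0 : ℝ) * X = u at h18 h19 ⊢
  generalize c0 * X ^ 3 = v at h18 ⊢
  generalize 30 * c0 = w at h21 ⊢
  linarith

end Pool.Agent.L5helper11.PE
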