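import Pool.Agent.L5helper11.PE.Large
import Pool.Agent.L5helper11.PE.Small
import Pool.Agent.L5helper11.PD.Sq

/-!
# Families with a bound for the exponential sum: Fourier analysis
-/

set_option autoImplicit false

namespace Pool.Agent.L5helper11.PE

open Finset Filter Topology Pool.Agent.Helper112
open Pool.Agent.H623R3.PBT8 (orth group)
open Pool.Agent.L5helper11.PD (dn dn_nonneg dn_le_half dn_le dn_add_int dn_sub_le dn_mul_le dn_mul_eq
  dvd_of_dn_lt le_dn_of_not_dvd wt wt_step PQ fra mem_PQ card_PQ frac_inj coprime_ten sd sd_nonneg sd_le_one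
  FF FF_nonneg FF_le_one FF_anti FF_union few_bound len len_spec le_len log_ten gh norm_gh ind21)

/-- the sum over the shifts by multiples of `1 / 21` -/
noncomputable def f21 (f : ℝ → ℝ) (x : ℝ) : ℝ := ∑ c ∈ range 21, f (x + (c : ℝ) / 21)

lemma f21_nonneg {f : ℝ → ℝ} (hf : ∀ x, 0 ≤ f x) (x : ℝ) : 0 ≤ f21 f x :=
  Finset.sum_nonneg fun _ _ => hf _

/-- the reduced part at denominator `q` -/
noncomputable def UU (f : ℝ → ℝ) (q : ℕ) : ℝ :=
  ∑ a ∈ (range q).filter (fun a => a.Coprime q), f21 f ((a : ℝ) / q)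

lemma UU_nonneg {f : ℝ → ℝ} (hf : ∀ x, 0 ≤ f x) (q : ℕ) : 0 ≤ UU f q :=
  Finset.sum_nonneg fun _ _ => f21_nonneg hf _

/-- the fractions `a / q + c / 21` and the fractions `h / (21 q)` -/
lemma UU_le {f : ℝ → ℝ} (hf : ∀ x, 0 ≤ f x) (hfi : ∀ (x : ℝ) (k : ℤ), f (x + k) = f x) {q : ℕ} (hq : 0 < q)
    (hc : q.Coprime 21) : UU f q ≤ ∑ h ∈ (range (21 * q)).filter (fun h => h.Coprime q), f (fra (q, h)) := by
  classical
  have hqR : (0 : ℝ) < q := by exact_mod_cast hq
  set S := ((range q).filter (fun a => a.Coprime q)) ×ˢ range 21 with hS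
  set φ : ℕ × ℕ → ℕ := fun x => (21 * x.1 + x.2 * q) % (21 * q) with hφ
  have h1 : UU f q = ∑ x ∈ S, f (fra (q, φ x)) := by
    unfold UU f21
    rw [hS, Finset.sum_product]
    refine sum_congr rfl fun a _ => sum_congr rfl fun c _ => ?_
    have e1 := Nat.div_add_mod (21 * a + c * q) (21 * q)
    have e2 : ((21 * q : ℕ) : ℝ) * (((21 * a + c * q) / (21 * q) : ℕ) : ℝ) + (((21 * a + c * q) % (21 * q) : ℕ) : ℝ) =
        ((21 * a + c * q : ℕ) : ℝ) := by exact_mod_cast e1
    have e3 : (a : ℝ) / q + (c : ℝ) / 21 = fra (q, (21 * a + c * q) % (21 * q)) +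
        ((((21 * a + c * q) / (21 * q) : ℕ) : ℤ) : ℝ) := by
      unfold fra
      simp only
      rw [Int.cast_natCast]
      generalize (((21 * a + c * q) / (21 * q) : ℕ) : ℝ) = d at e2
      generalize (((21 * a + c * q) % (21 * q) : ℕ) : ℝ) = r at e2
      push_cast at e2
      field_simp
      linarith
    rw [e3, hfi]
  have hinj : Set.InjOn φ (S : Set (ℕ × ℕ)) := by
    rintro ⟨a, c⟩ hx ⟨a', c'⟩ hy hxy
    rw [hS, mem_coe, mem_product, mem_filter, mem_range, mem_range] at hx hy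
    simp only [hφ] at hxy
    simp only at hx hy
    have h2 : 21 * a + c * q ≡ 21 * a' + c' * q [MOD 21 * q] := hxy
    have h3 : 21 * a ≡ 21 * a' [MOD q] := by
      have h4 : 21 * a + c * q ≡ 21 * a' + c' * q [MOD q] := h2.of_dvd (Dvd.intro_left 21 rfl)
      have h5 : 21 * a + c * q ≡ 21 * a [MOD q] := by
        simp
      have h6 : 21 * a' + c' * q ≡ 21 * a' [MOD q] := by
        simp
      exact h5.symm.trans (h4.trans h6)
    have h4 : a ≡ a' [MOD q] := Nat.ModEq.cancel_left_of_coprime hc h3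
    have h5 : a = a' := by
      rwa [Nat.ModEq, Nat.mod_eq_of_lt hx.1.1, Nat.mod_eq_of_lt hy.1.1] at h4
    subst h5
    have h6 : c * q ≡ c' * q [MOD 21 * q] := Nat.ModEq.add_left_cancel' _ h2
    have h7 : c * q ≡ c' * q [MOD 21] := h6.of_dvd (Dvd.intro q rfl)
    have h8 : c ≡ c' [MOD 21] := Nat.ModEq.cancel_right_of_coprime (by rw [Nat.gcd_comm]; exact hc) h7
    have h9 : c = c' := by
      rwa [Nat.ModEq, Nat.mod_eq_of_lt hx.2, Nat.mod_eq_of_lt hy.2] at h8
    rw [h9]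
  rw [h1, ← Finset.sum_image (f := fun h => f (fra (q, h))) hinj]
  apply Finset.sum_le_sum_of_subset_of_nonneg
  · intro h hh
    rw [mem_image] at hh
    obtain ⟨⟨a, c⟩, hx, rfl⟩ := hh
    rw [hS, mem_product, mem_filter, mem_range, mem_range] at hx
    simp only at hx
    rw [mem_filter, mem_range]
    refine ⟨Nat.mod_lt _ (by omega), ?_⟩
    simp only [hφ]
    have h2 : ((21 * a + c * q) % (21 * q)) ≡ 21 * a [MOD q] := by
      have h3 : ((21 * a + c * q) % (21 * q)) ≡ 21 * a + c * q [MOD q] :=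
        (Nat.mod_modEq _ (21 * q)).of_dvd (Dvd.intro_left 21 rfl)
      have h5 : 21 * a + c * q ≡ 21 * a [MOD q] := by
        simp
      exact h3.trans h5
    have h3 : (21 * a).Coprime q := Nat.Coprime.mul_left hc.symm hx.1.2
    rw [Nat.Coprime, h2.gcd_eq]
    exact h3
  · intro _ _ _
    exact hf _

/-- dyadic sums of `UU` -/
lemma UU_dyadic {f : ℝ → ℝ} (hf : ∀ x, 0 ≤ f x) (hfi : ∀ (x : ℝ) (k : ℤ), f (x + k) = f x) {Q : ℕ} (_hQ : 1 ≤ Q) :
    ∑ q ∈ (Ico Q (2 * Q)).filter (fun q => q.Coprime 210), UU f q ≤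
      ∑ x ∈ PQ Q, f (fra x) := by
  rw [Finset.sum_finset_product (PQ Q) ((Ico Q (2 * Q)).filter (fun q => q.Coprime 210))
    (fun q => (range (21 * q)).filter (fun h => h.Coprime q)) (by
      rintro ⟨q, h⟩
      rw [mem_PQ, mem_filter, mem_Ico, mem_filter, mem_range]
      tauto)]
  refine sum_le_sum fun q hq => ?_
  rw [mem_filter, mem_Ico] at hq
  exact UU_le hf hfi (by omega) (Nat.Coprime.coprime_dvd_right ⟨10, by norm_num⟩ hq.2)

/-- counting by exponential sums -/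
theorem cnt_bound {ι : Type*} (S0 : Finset ι) (v : ι → ℕ) {X : ℝ} {f : ℝ → ℝ}
    (hX : ∀ α : ℝ, ‖∑ m ∈ S0, ee (α * (v m : ℝ))‖ ≤ X * f α) {q : ℕ} (hq0 : 0 < q) :
    |(((S0.filter fun m => (v m).Coprime 21).filter (fun m => q ∣ v m)).card : ℝ) -
      ((S0.filter fun m => (v m).Coprime 21).card : ℝ) / q| ≤
      X / q * ∑ d ∈ q.divisors.filter (fun d => 1 < d), UU f d := by
  classical
  set S1 := S0.filter fun m => (v m).Coprime 21 with hS1
  have hqr : (0 : ℝ) < q := by exact_mod_cast hq0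
  have hqc : (q : ℂ) ≠ 0 := by exact_mod_cast hq0.ne'
  set T : ℕ → ℂ := fun a => ∑ m ∈ S1, ee ((a : ℝ) * (((v m : ℕ) : ℝ) / q)) with hT
  have h1 : (((S1.filter (fun m => q ∣ v m)).card : ℝ) : ℂ) = (1 / (q : ℂ)) * ∑ a ∈ range q, T a := by
    have h2 : (((S1.filter (fun m => q ∣ v m)).card : ℝ) : ℂ) = ∑ m ∈ S1,
        (1 / (q : ℂ)) * ∑ a ∈ range q, ee ((a : ℝ) * ((((v m : ℕ) : ℝ) - ((0 : ℕ) : ℝ)) / q)) := by
      rw [Finset.card_filter]
      push_cast
      refine sum_congr rfl fun m _ => ?_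
      have := orth hq0 (v m) 0
      push_cast at this
      rw [this]
      by_cases hm : q ∣ v m
      · rw [if_pos hm, if_pos (Nat.modEq_zero_iff_dvd.2 hm)]
        push_cast
        field_simp
      · rw [if_neg hm, if_neg (fun h => hm (Nat.modEq_zero_iff_dvd.1 h))]
        simp
    rw [h2, ← mul_sum, sum_comm]
    congr 1
    refine sum_congr rfl fun a _ => ?_
    simp only [hT]
    refine sum_congr rfl fun m _ => ?_
    congr 1
    push_cast
    ring
  have hT0 : T 0 = (S1.card : ℂ) := by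
    simp only [hT]
    simp [ls_ee_zero]
  have hTn : ∀ a, ‖T a‖ ≤ X * f21 f ((a : ℝ) / q) := by
    intro a
    have e1 : T a = ∑ c ∈ range 21, gh c * ∑ m ∈ S0,
        ee (((a : ℝ) / q + (c : ℝ) / 21) * (v m : ℝ)) := by
      simp only [hT]
      rw [hS1]
      rw [Finset.sum_filter]
      simp only [mul_sum]
      rw [Finset.sum_comm]
      refine sum_congr rfl fun m _ => ?_
      have e2 := ind21 (v m)
      have e3 : ∀ c ∈ range 21, gh c * ee (((a : ℝ) / q + (c : ℝ) / 21) * (v m : ℝ)) =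
          (gh c * ee ((c : ℝ) * (v m : ℝ) / 21)) * ee ((a : ℝ) * (((v m : ℕ) : ℝ) / q)) := by
        intro c _
        rw [mul_assoc, ← ls_ee_add]
        congr 2
        ring
      rw [sum_congr rfl e3, ← Finset.sum_mul, e2]
      split_ifs
      · rw [one_mul]
      · rw [zero_mul]
    rw [e1]
    refine (norm_sum_le _ _).trans ?_
    unfold f21
    rw [mul_sum]
    refine sum_le_sum fun c _ => ?_
    rw [norm_mul]
    have h5 := norm_gh c
    calc ‖gh c‖ * _ ≤ 1 * ‖∑ m ∈ S0, ee (((a : ℝ) / q + (c : ℝ) / 21) * (v m : ℝ))‖ :=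
          mul_le_mul_of_nonneg_right h5 (norm_nonneg _)
      _ ≤ _ := by rw [one_mul]; exact hX _
  have h3 : (((S1.filter (fun m => q ∣ v m)).card : ℝ) : ℂ) - (S1.card : ℂ) / q =
      (1 / (q : ℂ)) * ∑ a ∈ (range q).erase 0, T a := by
    rw [h1, ← Finset.add_sum_erase _ _ (mem_range.2 hq0), hT0]
    ring
  have h4 : |((S1.filter (fun m => q ∣ v m)).card : ℝ) - (S1.card : ℝ) / q| ≤
      (1 / (q : ℝ)) * ∑ a ∈ (range q).erase 0, X * f21 f ((a : ℝ) / q) := by
    have h5 : |((S1.filter (fun m => q ∣ v m)).card : ℝ) - (S1.card : ℝ) / q| =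
        ‖(((S1.filter (fun m => q ∣ v m)).card : ℝ) : ℂ) - (S1.card : ℂ) / q‖ := by
      rw [← Real.norm_eq_abs, ← Complex.norm_real]
      push_cast
      rfl
    rw [h5, h3, norm_mul]
    have h6 : ‖(1 / (q : ℂ))‖ = 1 / (q : ℝ) := by simp
    rw [h6]
    refine mul_le_mul_of_nonneg_left ?_ (by positivity)
    exact (norm_sum_le _ _).trans (sum_le_sum fun a _ => hTn a)
  refine h4.trans (le_of_eq ?_)
  rw [← mul_sum]
  have h7 : ∑ a ∈ (range q).erase 0, f21 f ((a : ℝ) / q) =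
      ∑ d ∈ q.divisors.filter (fun d => 1 < d), UU f d := by
    have h8 := group hq0 (f21 f)
    rw [← Finset.add_sum_erase _ _ (mem_range.2 hq0)] at h8
    have h9 : q.divisors.filter (fun d => 1 < d) = q.divisors.erase 1 := by
      ext d
      rw [mem_filter, mem_erase, Nat.mem_divisors]
      constructor
      · rintro ⟨h1, h2⟩
        exact ⟨by omega, h1⟩
      · rintro ⟨h1, h2⟩
        refine ⟨h2, ?_⟩
        have := Nat.pos_of_dvd_of_pos h2.1 hq0
        omega
    have h10 : (1 : ℕ) ∈ q.divisors := Nat.one_mem_divisors.2 hq0.ne'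
    rw [← Finset.add_sum_erase _ _ h10] at h8
    have h11 : ∑ a ∈ (range 1).filter (fun a => a.Coprime 1), f21 f ((a : ℝ) / (1 : ℕ)) =
        f21 f (((0 : ℕ) : ℝ) / q) := by
      simp
    rw [h11] at h8
    rw [h9]
    unfold UU
    linarith
  rw [h7]
  ring

/-- counting by exponential sums, upper bound -/
lemma cnt_le {ι : Type*} (S0 : Finset ι) (v : ι → ℕ) {X : ℝ} {f : ℝ → ℝ}
    (hX : ∀ α : ℝ, ‖∑ m ∈ S0, ee (α * (v m : ℝ))‖ ≤ X * f α) {M : ℕ} (hM : 0 < M) :
    ((S0.filter (fun m => M ∣ v m)).card : ℝ) ≤ X * ((∑ a ∈ range M, f ((a : ℝ) / M)) / M) := by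
  classical
  have hM1 : (0 : ℝ) < M := by exact_mod_cast hM
  have h1 : ((M * ((S0.filter (fun m => M ∣ v m)).card : ℝ) : ℝ) : ℂ) =
      ∑ a ∈ range M, ∑ m ∈ S0, ee ((a : ℝ) / M * (v m : ℝ)) := by
    rw [Finset.sum_comm]
    have h2 : ∀ m ∈ S0, ∑ a ∈ range M, ee ((a : ℝ) / M * (v m : ℝ)) =
        if M ∣ v m then (M : ℂ) else 0 := by
      intro m _
      have h3 := orth hM (v m) 0
      have h4 : v m ≡ 0 [MOD M] ↔ M ∣ v m := Nat.modEq_zero_iff_dvd
      simp only [h4] at h3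
      rw [← h3]
      refine sum_congr rfl fun a _ => ?_
      congr 1
      push_cast
      ring
    rw [sum_congr rfl h2, ← Finset.sum_filter, Finset.sum_const, nsmul_eq_mul]
    push_cast
    ring
  have h2 : (M : ℝ) * ((S0.filter (fun m => M ∣ v m)).card : ℝ) ≤
      ∑ a ∈ range M, X * f ((a : ℝ) / M) := by
    have h3 : (0 : ℝ) ≤ M * ((S0.filter (fun m => M ∣ v m)).card : ℝ) := by
      positivity
    have h4 : ‖((M * ((S0.filter (fun m => M ∣ v m)).card : ℝ) : ℝ) : ℂ)‖ =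
        M * ((S0.filter (fun m => M ∣ v m)).card : ℝ) := by
      rw [Complex.norm_real, Real.norm_of_nonneg h3]
    rw [← h4, h1]
    exact (norm_sum_le _ _).trans (Finset.sum_le_sum fun a _ => hX _)
  rw [← Finset.mul_sum] at h2
  rw [← mul_div_assoc, le_div_iff₀ hM1]
  linarith

end Pool.Agent.L5helper11.PE
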