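import Pool.Agent.L5helper11.PE.Sv

/-!
# Palindromes with digits from prescribed digit sets: the main theorem
-/

set_option autoImplicit false

namespace Pool.Agent.L5helper11.PE

open Finset Filter Topology Pool.Agent.Helper112
open Pool.Agent.L5helper11.PD (wt PQ fra mem_PQ card_PQ coprime_ten FF FF_nonneg FF_le_one FF_union FF_anti FF_add_int
  cut XX cf card_cf L2_PQ L2_sq cs_part ten_pow Ix vv vB S21 S21_card norm_sum vB_lt vv_coprime_ten)

lemma card_D {N : ℕ} {D : ℕ → Finset ℕ} (hD : GoodP N D) {i : ℕ} (hi : i ≤ N) :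
    1 ≤ (D i).card ∧ (D i).card ≤ 10 := by
  refine ⟨card_pos.2 (hD.ne i hi), ?_⟩
  have := card_le_card (hD.sub i)
  rwa [card_range] at this

/-- the two halves -/
lemma halves3 {N t : ℕ} {D : ℕ → Finset ℕ} (hD : GoodP N D) {Y : ℝ} (hY : 1 ≤ Y)
    (h : 10 * Y ^ 2 * 10 ^ ((Sp N D t).card + 2) ≤ (XX N D : ℝ)) :
    ∃ B1 B2 : Finset ℕ, B1 ⊆ range (N + 1) ∧ B2 ⊆ range (N + 1) ∧
      Y ≤ ((cf D B1).card : ℝ) ∧ Y ≤ ((cf D B2).card : ℝ) ∧
      ∀ θ, FF N D (range (N + 1)) θ ≤ FF N D (Sp N D t) θ * (FF N D B1 θ * FF N D B2 θ) := by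
  classical
  set A := Sp N D t with hA
  have hAN : A ⊆ Ico 1 N := by
    intro i hi
    have := (mem_Fr.1 (Sp_sub N D t hi)).1
    rw [mem_Ico]
    exact this
  set S := Ico 1 N \ A with hS
  have hSN : ∀ i ∈ S, 1 ≤ i ∧ i < N := by
    intro i hi
    rw [hS, Finset.mem_sdiff, mem_Ico] at hi
    exact hi.1
  have hprod : (XX N D : ℝ) ≤ ((∏ i ∈ S, (D i).card : ℕ) : ℝ) * 10 ^ (A.card + 2) := by
    have h1 : XX N D ≤ (∏ i ∈ S, (D i).card) * 10 ^ (A.card + 2) := by
      unfold XX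
      have e : range (N + 1) = S ∪ (range (N + 1) \ S) := by
        rw [Finset.union_sdiff_of_subset]
        intro i hi
        have := hSN i hi
        rw [mem_range]
        omega
      rw [e, Finset.prod_union disjoint_sdiff]
      apply Nat.mul_le_mul_left
      calc ∏ i ∈ range (N + 1) \ S, (D i).card ≤ ∏ i ∈ range (N + 1) \ S, 10 := by
            refine Finset.prod_le_prod' fun i hi => ?_
            rw [Finset.mem_sdiff, mem_range] at hi
            exact (card_D hD (by omega)).2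
        _ = 10 ^ (range (N + 1) \ S).card := by rw [Finset.prod_const]
        _ ≤ 10 ^ (A.card + 2) := by
            apply Nat.pow_le_pow_right (by norm_num)
            have h2 : range (N + 1) \ S ⊆ A ∪ {0, N} := by
              intro i hi
              rw [hS, Finset.mem_sdiff, Finset.mem_sdiff, mem_range, mem_Ico] at hi
              rw [mem_union, mem_insert, mem_singleton]
              by_cases h3 : i ∈ A
              · exact Or.inl h3
              · right
                have := hi.2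
                by_contra h4
                push Not at h4
                exact this ⟨by omega, h3⟩
            refine (card_le_card h2).trans ((card_union_le _ _).trans ?_)
            have h4 : ({0, N} : Finset ℕ).card ≤ 2 := Finset.card_le_two
            omega
    exact_mod_cast h1
  have h2 : 10 * Y ^ 2 ≤ ((∏ i ∈ S, (D i).card : ℕ) : ℝ) := by
    have h3 : (0 : ℝ) < 10 ^ (A.card + 2) := by positivity
    exact le_of_mul_le_mul_right (h.trans hprod) h3
  obtain ⟨u, ht1, ht2⟩ := cut (fun i => (D i).card) S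
    (fun i hi => card_D hD (by have := hSN i hi; omega)) hY h2
  refine ⟨S.filter (fun i => i < u), S.filter (fun i => ¬ i < u), ?_, ?_, ?_, ?_, ?_⟩
  · intro i hi
    have := hSN i (mem_filter.1 hi).1
    rw [mem_range]
    omega
  · intro i hi
    have := hSN i (mem_filter.1 hi).1
    rw [mem_range]
    omega
  · rw [card_cf]
    exact ht1
  · rw [card_cf]
    exact ht2
  · intro θ
    have h1 : FF N D (range (N + 1)) θ ≤ FF N D (A ∪ S) θ := by
      apply FF_anti
      intro i hi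
      rw [mem_union] at hi
      rw [mem_range]
      rcases hi with hi | hi
      · have := mem_Ico.1 (hAN hi)
        omega
      · have := hSN i hi
        omega
    have e2 : S = S.filter (fun i => i < u) ∪ S.filter (fun i => ¬ i < u) :=
      (Finset.filter_union_filter_not_eq _ _).symm
    have hd1 : Disjoint A S := by
      rw [hS]
      exact disjoint_sdiff
    have hd2 : Disjoint (S.filter (fun i => i < u)) (S.filter (fun i => ¬ i < u)) :=
      Finset.disjoint_filter_filter_not _ _ _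
    refine h1.trans (le_of_eq ?_)
    rw [FF_union hd1]
    conv_lhs => rw [e2]
    rw [FF_union hd2]

/-- the family of the digit sets `D` -/
theorem fmA {κ κX : ℝ} (hκ : 0 < κ) (hκX : 2 * κ < κX) : ∃ (t N0 : ℕ), 1 ≤ t ∧ ∀ (N : ℕ) (D : ℕ → Finset ℕ),
    N0 ≤ N → GoodP N D → (10 : ℝ) ^ (κX * N) ≤ (XX N D : ℝ) → ∃ g : ℝ → ℝ,
      Fm κ 42 t N D (FF N D (range (N + 1))) g := by
  classical
  set g0 : ℝ := κX - 2 * κ with hg0d
  have hg0 : 0 < g0 := by rw [hg0d]; linarith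
  obtain ⟨t, ht⟩ := exists_nat_ge (max 1 (2 / g0))
  have ht1 : 1 ≤ t := by exact_mod_cast (le_max_left _ _).trans ht
  have ht0 : (0 : ℝ) < t := by exact_mod_cast ht1
  have htg : 1 / (t : ℝ) ≤ g0 / 2 := by
    have h1 : 2 / g0 ≤ t := (le_max_right _ _).trans ht
    rw [div_le_iff₀ hg0] at h1
    rw [div_le_iff₀ ht0]
    linarith
  obtain ⟨N0, hN0⟩ := exists_nat_ge (8 / g0)
  refine ⟨t, N0, ht1, fun N D hN hD hX => ?_⟩
  have hNR : 8 / g0 ≤ (N : ℝ) := hN0.trans (by exact_mod_cast hN)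
  have hN8 : 4 ≤ g0 / 2 * N := by
    rw [div_le_iff₀ hg0] at hNR
    linarith
  have hNn : (0 : ℝ) ≤ N := Nat.cast_nonneg _
  have hY : (1 : ℝ) ≤ (10 : ℝ) ^ (κ * N) := Real.one_le_rpow (by norm_num) (by positivity)
  have hcard : ((Sp N D t).card : ℝ) ≤ 1 / t * N + 1 := by
    have h1 := card_Sp N D t
    have h2 : ((N / t : ℕ) : ℝ) ≤ (N : ℝ) / t := Nat.cast_div_le
    have h3 : ((Sp N D t).card : ℝ) ≤ ((N / t : ℕ) : ℝ) + 1 := by exact_mod_cast h1
    have e : 1 / (t : ℝ) * N = N / t := by ring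
    rw [e]
    linarith
  obtain ⟨B1, B2, hB1, hB2, hY1, hY2, hprod⟩ := halves3 (t := t) hD hY (by
    refine le_trans ?_ hX
    rw [ten_pow]
    apply Real.rpow_le_rpow_of_exponent_le (by norm_num)
    push_cast
    have : 1 / (t : ℝ) * N ≤ g0 / 2 * N := mul_le_mul_of_nonneg_right htg hNn
    have e : κX * N = 2 * κ * N + g0 / 2 * N + g0 / 2 * N := by rw [hg0d]; ring
    linarith)
  have hYpos : (0 : ℝ) < (10 : ℝ) ^ (κ * N) := by positivity
  have hposB : ∀ B : Finset ℕ, (10 : ℝ) ^ (κ * N) ≤ ((cf D B).card : ℝ) → 0 < (cf D B).card := by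
    intro B hB
    have : (0 : ℝ) < ((cf D B).card : ℝ) := by linarith
    exact_mod_cast this
  refine ⟨fun θ => FF N D B1 θ * FF N D B2 θ, ?_⟩
  constructor
  · exact hD
  · exact fun x => FF_nonneg _ _ _ _
  · exact fun x k => FF_add_int _ _ _ _ _
  · exact fun x => le_rfl
  · exact fun x => mul_nonneg (FF_nonneg _ _ _ _) (FF_nonneg _ _ _ _)
  · exact fun x => mul_le_one₀ (FF_le_one _ _ _ _) (FF_nonneg _ _ _ _) (FF_le_one _ _ _ _)
  · exact hprod
  · intro T hT Q hQ hQ2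
    have hT0 : 0 ≤ T := (Nat.cast_nonneg _).trans (hT 1 le_rfl (Nat.one_le_pow _ _ (by norm_num)))
    have hL2 : ∀ B : Finset ℕ, B ⊆ range (N + 1) → (10 : ℝ) ^ (κ * N) ≤ ((cf D B).card : ℝ) →
        ∑ x ∈ PQ Q, 1 * FF N D B (fra x) ^ 2 ≤ 42 * Q * (1 + T) := by
      intro B hB hYB
      simp only [one_mul]
      refine (L2_PQ hD.sub hB (hposB B hYB) Q hQ hT).trans ?_
      apply mul_le_mul_of_nonneg_left _ (by positivity)
      have : (Q : ℝ) / ((cf D B).card : ℝ) ≤ 1 := by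
        rw [div_le_one (by linarith)]
        exact hQ2.trans hYB
      linarith
    have h3 : ∑ x ∈ PQ Q, 1 * (FF N D B1 (fra x) * FF N D B2 (fra x)) ≤ 1 * (42 * Q * (1 + T)) := by
      refine cs_part (PQ Q) (fun x => FF N D B1 (fra x) * FF N D B2 (fra x)) (fun _ => 1)
        (fun _ _ => zero_le_one) (fun x => FF N D B1 (fra x)) (fun x => FF N D B2 (fra x))
        (fun _ _ => FF_nonneg _ _ _ _) (fun _ _ => FF_nonneg _ _ _ _) zero_le_one (by positivity)
        (fun x _ => by rw [one_mul]) (hL2 B1 hB1 hY1) (hL2 B2 hB2 hY2)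
    simp only [one_mul] at h3
    exact h3
  · intro T hT P hP hP2
    have hT0 : 0 ≤ T := (Nat.cast_nonneg _).trans (hT 1 le_rfl (Nat.one_le_pow _ _ (by norm_num)))
    set SS : Finset ((_ : ℕ) × ℕ) := (Ico P (2 * P)).sigma (fun p => range (p ^ 2)) with hSS
    set θ : (_ : ℕ) × ℕ → ℝ := fun x => (x.2 : ℝ) / ((x.1 ^ 2 : ℕ) : ℝ) with hθ
    have hL2 : ∀ B : Finset ℕ, B ⊆ range (N + 1) → (10 : ℝ) ^ (κ * N) ≤ ((cf D B).card : ℝ) →
        ∑ x ∈ SS, 1 / ((x.1 ^ 2 : ℕ) : ℝ) * FF N D B (θ x) ^ 2 ≤ 1 + T := by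
      intro B hB hYB
      have h1 := L2_sq hD.sub hB (hposB B hYB) P hP hT
      have h2 : ∑ x ∈ SS, 1 / ((x.1 ^ 2 : ℕ) : ℝ) * FF N D B (θ x) ^ 2 =
          ∑ p ∈ Ico P (2 * P), (∑ a ∈ range (p ^ 2), FF N D B ((a : ℝ) / ((p ^ 2 : ℕ) : ℝ)) ^ 2) /
            ((p ^ 2 : ℕ) : ℝ) := by
        rw [hSS, Finset.sum_sigma]
        refine sum_congr rfl fun p _ => ?_
        rw [Finset.sum_div]
        refine sum_congr rfl fun a _ => ?_
        simp only [hθ]
        ring
      rw [h2]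
      refine h1.trans ?_
      have : (P : ℝ) / ((cf D B).card : ℝ) ≤ 1 := by
        rw [div_le_one (by linarith)]
        exact hP2.trans hYB
      linarith
    have h3 : ∑ x ∈ SS, 1 / ((x.1 ^ 2 : ℕ) : ℝ) * (FF N D B1 (θ x) * FF N D B2 (θ x)) ≤ 1 * (1 + T) := by
      refine cs_part SS (fun x => FF N D B1 (θ x) * FF N D B2 (θ x)) (fun x => 1 / ((x.1 ^ 2 : ℕ) : ℝ))
        (fun _ _ => by positivity) (fun x => FF N D B1 (θ x)) (fun x => FF N D B2 (θ x))
        (fun _ _ => FF_nonneg _ _ _ _) (fun _ _ => FF_nonneg _ _ _ _) zero_le_one (by positivity)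
        (fun x _ => by rw [one_mul]) (hL2 B1 hB1 hY1) (hL2 B2 hB2 hY2)
    have h4 : ∑ x ∈ SS, 1 / ((x.1 ^ 2 : ℕ) : ℝ) * (FF N D B1 (θ x) * FF N D B2 (θ x)) =
        ∑ p ∈ Ico P (2 * P), (∑ a ∈ range (p ^ 2), FF N D B1 ((a : ℝ) / ((p ^ 2 : ℕ) : ℝ)) *
          FF N D B2 ((a : ℝ) / ((p ^ 2 : ℕ) : ℝ))) / ((p ^ 2 : ℕ) : ℝ) := by
      rw [hSS, Finset.sum_sigma]
      refine sum_congr rfl fun p _ => ?_
      rw [Finset.sum_div]
      refine sum_congr rfl fun a _ => ?_
      simp only [hθ]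
      ring
    rw [h4] at h3
    linarith

/-- the main theorem for digit sets -/
theorem mainA {r : ℕ} {κ κX lam : ℝ} (hκ0 : 0 < κ) (hκX : 2 * κ < κX) (hX1 : κX ≤ 1)
    (hl0 : 0 < lam) (hl1 : lam ≤ 1) (hlam : lam * (1174 / 1000) < 994 / 1000)
    (hr : 1 / lam + 88 / (43 * κ) < r + 1) :
    ∃ c : ℝ, 0 < c ∧ ∀ᶠ N : ℕ in atTop, ∀ D : ℕ → Finset ℕ, GoodP N D →
      (10 : ℝ) ^ (κX * N) ≤ (XX N D : ℝ) → D 0 ⊆ {1, 3, 7, 9} → (S21 N D).Nonempty →
      ∃ G : Finset (Ix N), G ⊆ S21 N D ∧ c * (XX N D : ℝ) / N ≤ G.card ∧ ∀ m ∈ G,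
        (vv N m).primeFactorsList.length ≤ r ∧ ∀ p ∈ (vv N m).primeFactorsList, (10 : ℝ) ^ (κ / 6 * N) < p := by
  classical
  obtain ⟨t, N0, ht, hfm⟩ := fmA hκ0 hκX
  obtain ⟨c, hc, hsv⟩ := sieve_abs (r := r) (κ := κ) (lam := lam) (B21 := (10 : ℝ) ^ 20) hκ0 (by linarith) hl0 hl1
    hlam hr (by positivity)
  have hlev := level3 hκ0 (by linarith) (C := 42) (by norm_num) ht hc
  have hsq := squares3 (κ := κ) (C := 42) (η := κ / 6) (by linarith) (by norm_num) ht (by positivity) hc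
  refine ⟨c, hc, ?_⟩
  filter_upwards [hsv, hlev, hsq, eventually_ge_atTop (max N0 1)] with N h1 h2 h3 hN D hD hX hD0 hne
  obtain ⟨g, hg⟩ := hfm N D ((le_max_left _ _).trans hN) hD hX
  have hN1 : 1 ≤ N := (le_max_right _ _).trans hN
  have hX0 : (0 : ℝ) < (XX N D : ℝ) := by
    have : (0 : ℝ) < (10 : ℝ) ^ (κX * N) := by positivity
    linarith
  have hXf : ∀ α : ℝ, ‖∑ m ∈ cf D (range (N + 1)), ee (α * (vv N m : ℝ))‖ ≤ (XX N D : ℝ) * FF N D (range (N + 1)) α := by
    intro α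
    have h4 := norm_sum N D (range (N + 1)) α
    rw [card_cf] at h4
    exact le_of_eq h4
  have h4 := h2 D _ g hg (Ix N) (cf D (range (N + 1))) (vv N) (XX N D : ℝ) hX0.le hXf
  have h5 := h3 D _ g hg (Ix N) (cf D (range (N + 1))) (vv N) (XX N D : ℝ) hX0.le hXf
  have hS : S21 N D = (cf D (range (N + 1))).filter fun m => (vv N m).Coprime 21 := rfl
  have h6 := h1 (Ix N) (S21 N D) (vv N) (XX N D : ℝ) hX0 (S21_card hD.sub hne) (by rw [hS]; exact h4)
    (fun B hB hBp => h5 B (hB.trans (filter_subset _ _)) hBp)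
    (fun m hm => by
      rw [hS, mem_filter] at hm
      have e : 210 = 10 * 21 := by norm_num
      rw [e]
      exact Nat.Coprime.mul_right (vv_coprime_ten hN1 hD0 hm.1) hm.2)
    (fun m hm => by
      rw [hS, mem_filter] at hm
      exact vB_lt hD.sub (subset_refl _) hm.1)
  exact h6

end Pool.Agent.L5helper11.PE
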