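import Pool.Agent.L5helper11.PE.FamA

/-!
# Palindromes with prescribed digits: the family
-/

set_option autoImplicit false

namespace Pool.Agent.L5helper11.PE

open Finset Filter Topology Pool.Agent.Helper112
open Pool.Agent.L5helper11.PD (wt PQ fra mem_PQ card_PQ coprime_ten FF FF_nonneg FF_le_one FF_union FF_anti FF_add_int
  sd sd_nonneg sd_le_one cut XX cf card_cf L2_PQ L2_sq cs_part ten_pow Ix vv vB S21 S21_card norm_sum vB_lt vv_coprime_ten)

/-- the first digit sets -/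
def D5 (F : Finset ℕ) (e : ℕ → ℕ) (i : ℕ) : Finset ℕ := if i ∈ F then range 5 else {e i}

/-- the second digit sets -/
def D6 (F : Finset ℕ) (i : ℕ) : Finset ℕ := if i ∈ F then range 6 else {0}

/-- mixed digit sets -/
def DS (S : Finset ℕ) (i : ℕ) : Finset ℕ := if i ∈ S then range 5 else range 6

lemma D5_sub {F : Finset ℕ} {e : ℕ → ℕ} (he : ∀ i, e i < 10) (i : ℕ) : D5 F e i ⊆ range 10 := by
  unfold D5
  split_ifs
  · exact range_subset_range.2 (by norm_num)
  · rw [singleton_subset_iff, mem_range]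
    exact he i

lemma D6_sub (F : Finset ℕ) (i : ℕ) : D6 F i ⊆ range 10 := by
  unfold D6
  split_ifs
  · exact range_subset_range.2 (by norm_num)
  · rw [singleton_subset_iff, mem_range]
    norm_num

lemma DS_sub (S : Finset ℕ) (i : ℕ) : DS S i ⊆ range 10 := by
  unfold DS
  split_ifs <;> exact range_subset_range.2 (by norm_num)

/-- the majorant -/
noncomputable def gB (N : ℕ) (F : Finset ℕ) (x : ℝ) : ℝ :=
  ∏ i ∈ F, (sd (range 5) (wt N i * x) ^ 2 + sd (range 6) (wt N i * x) ^ 2) / 2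

lemma gB_nonneg (N : ℕ) (F : Finset ℕ) (x : ℝ) : 0 ≤ gB N F x :=
  Finset.prod_nonneg fun _ _ => by positivity

lemma gB_le_one (N : ℕ) (F : Finset ℕ) (x : ℝ) : gB N F x ≤ 1 := by
  refine Finset.prod_le_one (fun _ _ => by positivity) fun i _ => ?_
  have h1 := pow_le_one₀ (n := 2) (sd_nonneg (range 5) (wt N i * x)) (sd_le_one _ _)
  have h2 := pow_le_one₀ (n := 2) (sd_nonneg (range 6) (wt N i * x)) (sd_le_one _ _)
  linarith

/-- the majorant is an average of squares -/
lemma gB_eq (N : ℕ) (F : Finset ℕ) (x : ℝ) :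
    gB N F x = (1 / 2) ^ F.card * ∑ S ∈ F.powerset, FF N (DS S) F x ^ 2 := by
  classical
  unfold gB
  have h1 : ∀ i, (sd (range 5) (wt N i * x) ^ 2 + sd (range 6) (wt N i * x) ^ 2) / 2 =
      (1 / 2) * (sd (range 5) (wt N i * x) ^ 2 + sd (range 6) (wt N i * x) ^ 2) := by
    intro i
    ring
  rw [prod_congr rfl fun i _ => h1 i, prod_mul_distrib, prod_const, Finset.prod_add]
  congr 1
  refine sum_congr rfl fun S hS => ?_
  rw [mem_powerset] at hS
  unfold FF
  rw [← prod_pow, ← Finset.prod_sdiff hS, mul_comm]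
  congr 1
  · refine prod_congr rfl fun i hi => ?_
    rw [Finset.mem_sdiff] at hi
    unfold DS
    rw [if_neg hi.2]
  · refine prod_congr rfl fun i hi => ?_
    unfold DS
    rw [if_pos hi]

lemma card_DS {F S : Finset ℕ} (hS : S ⊆ F) : (cf (DS S) F).card = 5 ^ S.card * 6 ^ (F.card - S.card) := by
  classical
  rw [card_cf, ← Finset.prod_sdiff hS, mul_comm]
  congr 1
  · rw [← card_range 5, ← prod_const]
    refine prod_congr rfl fun i hi => ?_
    unfold DS
    rw [if_pos hi, card_range]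
  · rw [← card_sdiff_of_subset hS]
    conv_rhs => rw [← card_range 6, ← prod_const]
    refine prod_congr rfl fun i hi => ?_
    rw [Finset.mem_sdiff] at hi
    unfold DS
    rw [if_neg hi.2]

/-- averages of the majorant -/
lemma avg {J : Type*} (s : Finset J) (w θ : J → ℝ) (N : ℕ) (F : Finset ℕ) {a Q T : ℝ}
    (h : ∀ S ⊆ F, ∑ j ∈ s, w j * FF N (DS S) F (θ j) ^ 2 ≤ a * (Q / ((cf (DS S) F).card : ℝ) + T)) :
    ∑ j ∈ s, w j * gB N F (θ j) ≤ a * (Q * (11 / 60) ^ F.card + T) := by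
  classical
  have h1 : ∑ j ∈ s, w j * gB N F (θ j) =
      (1 / 2) ^ F.card * ∑ S ∈ F.powerset, ∑ j ∈ s, w j * FF N (DS S) F (θ j) ^ 2 := by
    rw [Finset.sum_comm, mul_sum]
    refine sum_congr rfl fun j _ => ?_
    rw [gB_eq, ← mul_sum]
    ring
  rw [h1]
  have h2 : ∑ S ∈ F.powerset, ∑ j ∈ s, w j * FF N (DS S) F (θ j) ^ 2 ≤
      ∑ S ∈ F.powerset, a * (Q * ((1 / 5) ^ S.card * (1 / 6) ^ (F.card - S.card)) + T) := by
    refine sum_le_sum fun S hS => ?_
    rw [mem_powerset] at hS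
    refine (h S hS).trans (le_of_eq ?_)
    rw [card_DS hS]
    push_cast
    congr 2
    rw [div_pow, div_pow, one_pow, one_pow]
    field_simp
  refine (mul_le_mul_of_nonneg_left h2 (by positivity)).trans (le_of_eq ?_)
  rw [← mul_sum, sum_add_distrib, ← mul_sum, Finset.sum_pow_mul_eq_add_pow, sum_const, nsmul_eq_mul, card_powerset]
  have e1 : (1 / 5 + 1 / 6 : ℝ) = 2 * (11 / 60) := by norm_num
  rw [e1, mul_pow]
  have e2 : ((1 / 2 : ℝ)) ^ F.card * 2 ^ F.card = 1 := by
    rw [← mul_pow]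
    norm_num
  push_cast
  linear_combination (a * (Q * (11 / 60) ^ F.card + T)) * e2

lemma sd_singleton (a : ℕ) (x : ℝ) : sd {a} x = 1 := by
  unfold sd
  simp [ls_norm_ee]

lemma Fr_D5 {N : ℕ} {F : Finset ℕ} {e : ℕ → ℕ} (hF : F ⊆ Ico 1 N) : Fr N (D5 F e) = F := by
  ext i
  rw [mem_Fr]
  unfold D5
  constructor
  · rintro ⟨_, h⟩
    by_contra h1
    rw [if_neg h1, card_singleton] at h
    omega
  · intro h
    have h1 := hF h
    rw [mem_Ico] at h1
    rw [if_pos h, card_range]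
    exact ⟨h1, by norm_num⟩

/-- the family of the palindromes with prescribed digits -/
theorem fmB {θ : ℝ} (hθ0 : 0 ≤ θ) (hθ1 : θ ≤ 1 / 15) : ∃ (t N0 : ℕ), 1 ≤ t ∧ ∀ (N : ℕ) (F : Finset ℕ) (e : ℕ → ℕ),
    N0 ≤ N → F ⊆ Ico 1 N → (1 - θ) * N ≤ F.card + 1 → (∀ i, e i < 10) →
      Fm (277 / 376 * (1 - θ)) 42 t N (D5 F e)
        (fun x => FF N (D5 F e) (range (N + 1)) x * FF N (D6 F) (range (N + 1)) x)
        (gB N (F \ Sp N (D5 F e) t)) := by
  classical
  -- the slack
  have hslack : (10 : ℝ) ^ (277 / 376 : ℝ) < 60 / 11 := by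
    have h2 : ((10 : ℝ) ^ (277 / 376 : ℝ)) ^ 376 < (60 / 11) ^ 376 := by
      rw [← Real.rpow_natCast, ← Real.rpow_mul (by norm_num)]
      have e : (277 / 376 : ℝ) * ((376 : ℕ) : ℝ) = ((277 : ℕ) : ℝ) := by norm_num
      have e1 : (60 / 11 : ℝ) ^ 376 = (60 / 11) ^ 188 * (60 / 11) ^ 188 := by rw [← pow_add]
      have e2 : (10 : ℝ) ^ 277 = 10 ^ 138 * 10 ^ 139 := by rw [← pow_add]
      rw [e, Real.rpow_natCast, e1, e2]
      norm_num
    exact lt_of_pow_lt_pow_left₀ 376 (by norm_num) h2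
  set L : ℝ := Real.log (60 / 11) with hL
  set σ : ℝ := L - 277 / 376 * Real.log 10 with hσ
  have hσ0 : 0 < σ := by
    have h1 := Real.log_lt_log (by positivity) hslack
    rw [Real.log_rpow (by norm_num)] at h1
    rw [hσ]
    linarith
  have hL0 : 0 < L := Real.log_pos (by norm_num)
  obtain ⟨t, ht⟩ := exists_nat_ge (max 1 (4 * L / σ))
  have ht1 : 1 ≤ t := by exact_mod_cast (le_max_left _ _).trans ht
  have ht0 : (0 : ℝ) < t := by exact_mod_cast ht1
  have htσ : L / t ≤ σ / 4 := by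
    have h1 : 4 * L / σ ≤ t := (le_max_right _ _).trans ht
    rw [div_le_iff₀ hσ0] at h1
    rw [div_le_iff₀ ht0]
    linarith
  obtain ⟨N0, hN0⟩ := exists_nat_ge (8 * L / σ)
  refine ⟨t, N0, ht1, fun N F e hN hF hcard he => ?_⟩
  have hNR : 8 * L / σ ≤ (N : ℝ) := hN0.trans (by exact_mod_cast hN)
  have hN8 : 2 * L ≤ σ / 4 * N := by
    rw [div_le_iff₀ hσ0] at hNR
    linarith
  have hNn : (0 : ℝ) ≤ N := Nat.cast_nonneg _
  set A := Sp N (D5 F e) t with hA
  set F' := F \ A with hF'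
  have hAF : A ⊆ F := by
    have := Sp_sub N (D5 F e) t
    rwa [Fr_D5 hF] at this
  have hF'N : F' ⊆ range (N + 1) := by
    intro i hi
    have h1 := hF (Finset.mem_sdiff.1 hi).1
    rw [mem_Ico] at h1
    rw [mem_range]
    omega
  have hcardF' : (1 - θ) * N - 2 - N / t ≤ (F'.card : ℝ) := by
    have h1 := card_Sp N (D5 F e) t
    rw [← hA] at h1
    have h2 : ((N / t : ℕ) : ℝ) ≤ (N : ℝ) / t := Nat.cast_div_le
    have h3 : (A.card : ℝ) ≤ ((N / t : ℕ) : ℝ) + 1 := by exact_mod_cast h1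
    have h4 : F'.card + A.card = F.card := card_sdiff_add_card_eq_card hAF
    have h5 : (F'.card : ℝ) + A.card = F.card := by exact_mod_cast h4
    linarith
  have hbig : (10 : ℝ) ^ (277 / 376 * (1 - θ) * N) * (11 / 60) ^ F'.card ≤ 1 := by
    have e1 : (11 / 60 : ℝ) ^ F'.card = Real.exp (-(L * F'.card)) := by
      rw [Real.exp_neg, Real.exp_mul, hL, Real.exp_log (by norm_num), Real.rpow_natCast, ← inv_pow]
      norm_num
    rw [e1, Real.rpow_def_of_pos (by norm_num), ← Real.exp_add, Real.exp_le_one_iff]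
    have h1 := mul_le_mul_of_nonneg_left hcardF' hL0.le
    have h2 : L * ((1 - θ) * N - 2 - N / t) = (1 - θ) * L * N - 2 * L - L / t * N := by ring
    rw [h2] at h1
    have h3 : L / t * N ≤ σ / 4 * N := mul_le_mul_of_nonneg_right htσ hNn
    have h4 : Real.log 10 * (277 / 376 * (1 - θ) * N) = (1 - θ) * L * N - (1 - θ) * σ * N := by
      rw [hσ]
      ring
    rw [h4]
    have h5 : σ / 2 * N ≤ (1 - θ) * σ * N := by
      apply mul_le_mul_of_nonneg_right _ hNn
      nlinarith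
    linarith
  have hQsmall : ∀ Q : ℕ, (Q : ℝ) ≤ (10 : ℝ) ^ (277 / 376 * (1 - θ) * N) → (Q : ℝ) * (11 / 60) ^ F'.card ≤ 1 := by
    intro Q hQ
    exact (mul_le_mul_of_nonneg_right hQ (by positivity)).trans hbig
  constructor
  · -- good
    refine ⟨D5_sub he, ?_, ?_⟩
    · intro i _
      unfold D5
      split_ifs
      · exact ⟨0, by simp⟩
      · exact singleton_nonempty _
    · have h1 : ((Ico 1 N).filter fun i => (D5 F e i).card < 2) = Ico 1 N \ F := by
        ext i
        rw [mem_filter, Finset.mem_sdiff]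
        unfold D5
        constructor
        · rintro ⟨h2, h3⟩
          refine ⟨h2, fun h4 => ?_⟩
          rw [if_pos h4, card_range] at h3
          omega
        · rintro ⟨h2, h3⟩
          refine ⟨h2, ?_⟩
          rw [if_neg h3, card_singleton]
          norm_num
      rw [h1]
      have h2 : (Ico 1 N \ F).card + F.card = N - 1 := by
        rw [card_sdiff_add_card_eq_card hF, Nat.card_Ico]
      rcases Nat.eq_zero_or_pos N with h0 | h0
      · subst h0
        simp
      have h3 : ((Ico 1 N \ F).card : ℝ) + F.card + 1 = N := by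
        have : (Ico 1 N \ F).card + F.card + 1 = N := by omega
        exact_mod_cast this
      have h4 : 15 * ((Ico 1 N \ F).card : ℝ) ≤ N := by
        have : θ * N ≤ 1 / 15 * N := mul_le_mul_of_nonneg_right hθ1 hNn
        linarith
      exact_mod_cast h4
  · exact fun x => mul_nonneg (FF_nonneg _ _ _ _) (FF_nonneg _ _ _ _)
  · intro x k
    rw [FF_add_int, FF_add_int]
  · exact fun x => mul_le_of_le_one_right (FF_nonneg _ _ _ _) (FF_le_one _ _ _ _)
  · exact gB_nonneg N F'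
  · exact gB_le_one N F'
  · intro x
    have hsub : A ∪ F' ⊆ range (N + 1) := by
      intro i hi
      rw [mem_union] at hi
      rcases hi with hi | hi
      · have h1 := hF (hAF hi)
        rw [mem_Ico] at h1
        rw [mem_range]
        omega
      · exact hF'N hi
    have h1 : FF N (D5 F e) (range (N + 1)) x ≤ FF N (D5 F e) A x * FF N (D5 F e) F' x := by
      refine (FF_anti hsub x).trans (le_of_eq (FF_union ?_ x))
      rw [hF']
      exact disjoint_sdiff
    have h2 : FF N (D6 F) (range (N + 1)) x ≤ FF N (D6 F) F' x := FF_anti hF'N x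
    have h3 : FF N (D5 F e) F' x * FF N (D6 F) F' x ≤ gB N F' x := by
      unfold FF gB
      rw [← prod_mul_distrib]
      refine prod_le_prod (fun i _ => mul_nonneg (sd_nonneg _ _) (sd_nonneg _ _)) fun i hi => ?_
      have hiF : i ∈ F := (Finset.mem_sdiff.1 hi).1
      unfold D5 D6
      rw [if_pos hiF, if_pos hiF]
      nlinarith [sq_nonneg (sd (range 5) (wt N i * x) - sd (range 6) (wt N i * x))]
    calc FF N (D5 F e) (range (N + 1)) x * FF N (D6 F) (range (N + 1)) x
        ≤ (FF N (D5 F e) A x * FF N (D5 F e) F' x) * FF N (D6 F) F' x :=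
          mul_le_mul h1 h2 (FF_nonneg _ _ _ _) (mul_nonneg (FF_nonneg _ _ _ _) (FF_nonneg _ _ _ _))
      _ = FF N (D5 F e) A x * (FF N (D5 F e) F' x * FF N (D6 F) F' x) := by ring
      _ ≤ _ := mul_le_mul_of_nonneg_left h3 (FF_nonneg _ _ _ _)
  · intro T hT Q hQ hQ2
    have hT0 : 0 ≤ T := (Nat.cast_nonneg _).trans (hT 1 le_rfl (Nat.one_le_pow _ _ (by norm_num)))
    have h1 := avg (PQ Q) (fun _ => 1) fra N F' (a := 42 * Q) (Q := Q) (T := T) (fun S hS => by
      simp only [one_mul]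
      exact L2_PQ (DS_sub S) hF'N (by rw [card_DS hS]; positivity) Q hQ hT)
    simp only [one_mul] at h1
    refine h1.trans ?_
    apply mul_le_mul_of_nonneg_left _ (by positivity)
    have := hQsmall Q hQ2
    linarith
  · intro T hT P hP hP2
    have hT0 : 0 ≤ T := (Nat.cast_nonneg _).trans (hT 1 le_rfl (Nat.one_le_pow _ _ (by norm_num)))
    set SS : Finset ((_ : ℕ) × ℕ) := (Ico P (2 * P)).sigma (fun p => range (p ^ 2)) with hSS
    have hconv : ∀ G : ℝ → ℝ, ∑ x ∈ SS, 1 / ((x.1 ^ 2 : ℕ) : ℝ) * G ((x.2 : ℝ) / ((x.1 ^ 2 : ℕ) : ℝ)) =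
        ∑ p ∈ Ico P (2 * P), (∑ a ∈ range (p ^ 2), G ((a : ℝ) / ((p ^ 2 : ℕ) : ℝ))) / ((p ^ 2 : ℕ) : ℝ) := by
      intro G
      rw [hSS, Finset.sum_sigma]
      refine sum_congr rfl fun p _ => ?_
      rw [Finset.sum_div]
      refine sum_congr rfl fun a _ => ?_
      ring
    have h1 := avg SS (fun x => 1 / ((x.1 ^ 2 : ℕ) : ℝ)) (fun x => (x.2 : ℝ) / ((x.1 ^ 2 : ℕ) : ℝ)) N F'
      (a := 1) (Q := P) (T := T) (fun S hS => by
      rw [hconv (fun θ => FF N (DS S) F' θ ^ 2), one_mul]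
      exact L2_sq (DS_sub S) hF'N (by rw [card_DS hS]; positivity) P hP hT)
    rw [hconv (gB N F')] at h1
    refine h1.trans ?_
    have := hQsmall P hP2
    linarith

end Pool.Agent.L5helper11.PE
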