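import Pool.Agent.L5helper11.PE.Mid

/-!
# Large denominators
-/

set_option autoImplicit false

namespace Pool.Agent.L5helper11.PE

open Finset Filter Topology Pool.Agent.Helper112
open Pool.Agent.L5helper11.PD (dn dn_nonneg dn_le_half dn_le dn_add_int dn_sub_le dn_mul_le dn_mul_eq
  dvd_of_dn_lt le_dn_of_not_dvd wt wt_step PQ fra mem_PQ card_PQ frac_inj coprime_ten sd sd_nonneg sd_le_one
  FF FF_nonneg FF_le_one FF_anti FF_union few_bound len len_spec le_len log_ten)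

/-- a window with few uncovered places -/
lemma window {κ : ℝ} (hκ : κ ≤ 74 / 100) {t : ℕ} (ht : 1 ≤ t) :
    ∃ C : ℝ, 0 < C ∧ ∀ (N Q : ℕ) (D : ℕ → Finset ℕ), GoodP N D → 2 ≤ N → 1 ≤ Q → (Q : ℝ) ≤ (10 : ℝ) ^ (κ * N) →
      ∃ u ℓ : ℕ, 1 ≤ u ∧ u + ℓ ≤ N ∧
        (11 : ℝ) ^ (unc (2 * t) (Sp N D t ∩ Ico u (u + ℓ)) (Ico u (u + ℓ))) * ((4 * Q ^ 2 / 10 ^ ℓ + 2 : ℕ) : ℝ) ≤
          C * (Q : ℝ) ^ (94 / 100 : ℝ) := by
  refine ⟨42 * Real.exp (12 / 5 * (4 * t) + 2), by positivity, fun N Q D hD hN hQ hQ2 => ?_⟩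
  have hQ0 : (0 : ℝ) < Q := by exact_mod_cast hQ
  have hQ1 : (1 : ℝ) ≤ Q := by exact_mod_cast hQ
  have hlQ : 0 ≤ Real.log Q := Real.log_natCast_nonneg Q
  set ℓ := len Q with hℓ
  have hspec := len_spec Q
  rw [pow_one, ← hℓ] at hspec
  have hℓle := len_le' hQ
  rw [← hℓ] at hℓle
  have hℓ1 : 1 ≤ ℓ := by
    by_contra h
    have h0 : ℓ = 0 := by omega
    rw [h0, pow_zero] at hspec
    have : 1 ≤ Q ^ 2 := Nat.one_le_pow _ _ hQ
    omega
  rcases le_or_gt (2 * ℓ) N with hcase | hcase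
  · -- short windows
    have hν : 0 < (N - 1) / ℓ := Nat.div_pos (by omega) (by omega)
    obtain ⟨k, hk, hk2⟩ := best hD (by omega) hν
    have hend := Wn_end (by omega) hk
    refine ⟨1 + ℓ * k, ℓ, by omega, hend, ?_⟩
    have h1 := unc_sparse (N := N) (D := D) (u := 1 + ℓ * k) (ℓ := ℓ) (t := t) (by omega) hend ht
    set ν := (N - 1) / ℓ with hν'
    have h2 : N ≤ 2 * (ℓ * ν) := by
      have h3 := Nat.lt_mul_div_succ (N - 1) (show 0 < ℓ by omega)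
      rw [← hν'] at h3
      have e : ℓ * (ν + 1) = ℓ * ν + ℓ := by ring
      omega
    have h3 : 15 * (NF D (Wn ℓ k)).card ≤ 2 * ℓ := by
      have h4 : ν * (15 * (NF D (Wn ℓ k)).card) ≤ ν * (2 * ℓ) := by
        calc ν * (15 * (NF D (Wn ℓ k)).card) = 15 * (ν * (NF D (Wn ℓ k)).card) := by ring
          _ ≤ N := hk2
          _ ≤ 2 * (ℓ * ν) := h2
          _ = _ := by ring
      exact Nat.le_of_mul_le_mul_left h4 hν
    have h4 : ((unc (2 * t) (Sp N D t ∩ Ico (1 + ℓ * k) (1 + ℓ * k + ℓ)) (Ico (1 + ℓ * k) (1 + ℓ * k + ℓ)) : ℕ) : ℝ) ≤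
        2 / 5 * ℓ + 4 * t := by
      have h5 : 5 * unc (2 * t) (Sp N D t ∩ Ico (1 + ℓ * k) (1 + ℓ * k + ℓ)) (Ico (1 + ℓ * k) (1 + ℓ * k + ℓ)) ≤
          2 * ℓ + 20 * t := by
        unfold Wn at h3
        omega
      have h6 : 5 * ((unc (2 * t) (Sp N D t ∩ Ico (1 + ℓ * k) (1 + ℓ * k + ℓ))
          (Ico (1 + ℓ * k) (1 + ℓ * k + ℓ)) : ℕ) : ℝ) ≤ 2 * ℓ + 20 * t := by exact_mod_cast h5
      linarith
    have h5 := eleven_pow_le h4
    have h6 : ((4 * Q ^ 2 / 10 ^ ℓ + 2 : ℕ) : ℝ) ≤ 3 := by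
      have h7 : 4 * Q ^ 2 / 10 ^ ℓ ≤ 1 := by
        apply Nat.div_le_of_le_mul
        rw [mul_one]
        exact hspec
      have : 4 * Q ^ 2 / 10 ^ ℓ + 2 ≤ 3 := by omega
      exact_mod_cast this
    have h7 : Real.exp (12 / 5 * (2 / 5 * ℓ + 4 * t)) ≤
        Real.exp (12 / 5 * (4 * t) + 2) * (Q : ℝ) ^ (94 / 100 : ℝ) := by
      rw [Real.rpow_def_of_pos hQ0, ← Real.exp_add]
      apply Real.exp_le_exp.2
      linarith
    calc _ ≤ Real.exp (12 / 5 * (2 / 5 * ℓ + 4 * t)) * 3 := mul_le_mul h5 h6 (Nat.cast_nonneg _) (Real.exp_pos _).le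
      _ ≤ (Real.exp (12 / 5 * (4 * t) + 2) * (Q : ℝ) ^ (94 / 100 : ℝ)) * 3 := by gcongr
      _ ≤ _ := by
          have : 0 ≤ Real.exp (12 / 5 * (4 * t) + 2) * (Q : ℝ) ^ (94 / 100 : ℝ) := by positivity
          linarith
  · -- the whole interval
    refine ⟨1, N - 1, le_rfl, by omega, ?_⟩
    have h1 := unc_sparse (N := N) (D := D) (u := 1) (ℓ := N - 1) (t := t) le_rfl (by omega) ht
    have e : 1 + (N - 1) = N := by omega
    rw [e] at h1 ⊢
    have h2 := hD.few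
    have h4 : ((unc (2 * t) (Sp N D t ∩ Ico 1 N) (Ico 1 N) : ℕ) : ℝ) ≤ 1 / 5 * N + 4 * t := by
      have h5 : 5 * unc (2 * t) (Sp N D t ∩ Ico 1 N) (Ico 1 N) ≤ N + 20 * t := by
        unfold NF at h1
        omega
      have h6 : 5 * ((unc (2 * t) (Sp N D t ∩ Ico 1 N) (Ico 1 N) : ℕ) : ℝ) ≤ N + 20 * t := by exact_mod_cast h5
      linarith
    have h5 := eleven_pow_le h4
    have h6 : ((4 * Q ^ 2 / 10 ^ (N - 1) + 2 : ℕ) : ℝ) ≤ 40 * (Q : ℝ) ^ 2 / 10 ^ N + 2 := by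
      have h7 : ((4 * Q ^ 2 / 10 ^ (N - 1) : ℕ) : ℝ) ≤ ((4 * Q ^ 2 : ℕ) : ℝ) / ((10 ^ (N - 1) : ℕ) : ℝ) := Nat.cast_div_le
      have h8 : ((4 * Q ^ 2 : ℕ) : ℝ) / ((10 ^ (N - 1) : ℕ) : ℝ) = 40 * (Q : ℝ) ^ 2 / 10 ^ N := by
        have e2 : (10 : ℝ) ^ N = 10 * 10 ^ (N - 1) := by
          rw [← pow_succ']
          congr 1
          omega
        rw [e2]
        push_cast
        field_simp
        norm_num
      rw [Nat.cast_add]
      rw [h8] at h7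
      push_cast at h7 ⊢
      linarith
    have hlQ2 : Real.log Q ≤ 74 / 100 * N * (23027 / 10000) := by
      have h8 := Real.log_le_log hQ0 hQ2
      rw [Real.log_rpow (by norm_num)] at h8
      have h9 := log_ten_lt'
      have h10 := log_ten
      have hN0 : (0 : ℝ) ≤ N := Nat.cast_nonneg _
      calc Real.log Q ≤ κ * N * Real.log 10 := h8
        _ ≤ 74 / 100 * N * Real.log 10 := by
            apply mul_le_mul_of_nonneg_right _ (by linarith)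
            exact mul_le_mul_of_nonneg_right hκ hN0
        _ ≤ _ := mul_le_mul_of_nonneg_left h9.le (by positivity)
    have hN2 : (N : ℝ) ≤ 2 * ℓ := by exact_mod_cast hcase.le
    have h7 : Real.exp (12 / 5 * (1 / 5 * N + 4 * t)) * 2 ≤
        2 * (Real.exp (12 / 5 * (4 * t) + 2) * (Q : ℝ) ^ (94 / 100 : ℝ)) := by
      rw [Real.rpow_def_of_pos hQ0, ← Real.exp_add, mul_comm _ (2 : ℝ)]
      apply mul_le_mul_of_nonneg_left _ (by norm_num)
      apply Real.exp_le_exp.2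
      linarith
    have h8 : Real.exp (12 / 5 * (1 / 5 * N + 4 * t)) * (40 * (Q : ℝ) ^ 2 / 10 ^ N) ≤
        40 * (Real.exp (12 / 5 * (4 * t) + 2) * (Q : ℝ) ^ (94 / 100 : ℝ)) := by
      have e1 : (Q : ℝ) ^ 2 = Real.exp (2 * Real.log Q) := by
        rw [mul_comm, Real.exp_mul, Real.exp_log hQ0]
        norm_num
      have e2 : (10 : ℝ) ^ N = Real.exp (N * Real.log 10) := by
        rw [mul_comm, Real.exp_mul, Real.exp_log (by norm_num), Real.rpow_natCast]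
      have e3 : Real.exp (12 / 5 * (1 / 5 * N + 4 * t)) * (40 * (Q : ℝ) ^ 2 / 10 ^ N) =
          40 * Real.exp (12 / 5 * (1 / 5 * N + 4 * t) + (2 * Real.log Q) - N * Real.log 10) := by
        rw [e1, e2, Real.exp_sub, Real.exp_add]
        ring
      rw [e3, Real.rpow_def_of_pos hQ0, ← Real.exp_add]
      apply mul_le_mul_of_nonneg_left _ (by norm_num)
      apply Real.exp_le_exp.2
      have h9 := log_ten_gt
      have hN0 : (0 : ℝ) ≤ N := Nat.cast_nonneg _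
      have h10 : (N : ℝ) * (23 / 10) ≤ N * Real.log 10 := mul_le_mul_of_nonneg_left h9.le hN0
      linarith
    have hm0 : (0 : ℝ) ≤ ((4 * Q ^ 2 / 10 ^ (N - 1) + 2 : ℕ) : ℝ) := Nat.cast_nonneg _
    calc _ ≤ Real.exp (12 / 5 * (1 / 5 * N + 4 * t)) * (40 * (Q : ℝ) ^ 2 / 10 ^ N + 2) :=
          mul_le_mul h5 h6 hm0 (Real.exp_pos _).le
      _ = Real.exp (12 / 5 * (1 / 5 * N + 4 * t)) * (40 * (Q : ℝ) ^ 2 / 10 ^ N) +
          Real.exp (12 / 5 * (1 / 5 * N + 4 * t)) * 2 := by ring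
      _ ≤ 40 * (Real.exp (12 / 5 * (4 * t) + 2) * (Q : ℝ) ^ (94 / 100 : ℝ)) +
          2 * (Real.exp (12 / 5 * (4 * t) + 2) * (Q : ℝ) ^ (94 / 100 : ℝ)) := add_le_add h8 h7
      _ = _ := by ring

/-- large denominators -/
theorem large {κ η : ℝ} (hκ : κ ≤ 74 / 100) (hη : 0 < η) {t : ℕ} (ht : 1 ≤ t) :
    ∃ (c5 C : ℝ), 0 < c5 ∧ 0 < C ∧ ∀ (N Q : ℕ) (D : ℕ → Finset ℕ), GoodP N D → 2 ≤ N → 1 ≤ Q →
      (10 : ℝ) ^ (η * N) ≤ 2 * Q → (Q : ℝ) ≤ (10 : ℝ) ^ (κ * N) →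
      ∃ (W : Finset ℕ) (R : ℕ),
        (((PQ Q).filter fun x => (bd 2520 N (Sp N D t ∩ W) (tol (2 * t)) (fra x)).card ≤ R).card : ℝ) ≤
          C * (Q : ℝ) ^ (95 / 100 : ℝ) ∧
        (∀ p : ℕ, Q ≤ p → p < 2 * Q → p.Coprime 210 → (((range (p ^ 2)).filter fun a : ℕ =>
          (bd 2520 N (Sp N D t ∩ W) (tol (2 * t)) ((a : ℝ) / ((p ^ 2 : ℕ) : ℝ))).card ≤ R).card : ℝ) ≤
          C * (Q : ℝ) ^ (95 / 100 : ℝ)) ∧
        ∀ θ : ℝ, ¬ (bd 2520 N (Sp N D t ∩ W) (tol (2 * t)) θ).card ≤ R →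
          FF N D (Sp N D t) θ ≤ Real.exp (-(c5 * N)) := by
  classical
  obtain ⟨C0, hC0, hwin⟩ := window hκ ht
  set s := 2 * t with hs
  have hs0 : (0 : ℝ) < s := by
    have : 0 < s := by omega
    exact_mod_cast this
  obtain ⟨y, ε1, hy0, hy1, hε1, hfew⟩ := few_bound 1 (a := η / 100) (by positivity)
  set ε : ℝ := min ε1 (η / (480 * s)) with hε
  have hε0 : 0 < ε := by rw [hε]; positivity
  have hεε1 : ε ≤ ε1 := min_le_left _ _
  have hε2 : ε ≤ η / (480 * s) := min_le_right _ _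
  set τ : ℝ := tol s with hτ
  have hτ0 : 0 < τ := tol_pos s
  have hτ1 : τ ≤ 1 := tol_le_one s
  have hτs : (10 : ℝ) ^ s * (LL s * τ) < 1 / 20 := tol_spec s
  clear_value τ
  have hρ0 := rho_pos (K := 2520) (by norm_num) hτ0 hτ1
  have hρ1 := rho_lt_one (K := 2520) (by norm_num) hτ0
  set Λ : ℝ := -Real.log (rho 2520 τ) with hΛ
  have hΛ0 : 0 < Λ := by
    have := Real.log_neg hρ0 hρ1
    rw [hΛ]; linarith
  set C1 : ℝ := ((42 * (120 * LL s) + 1 : ℕ) : ℝ) with hC1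
  set C2 : ℝ := ((2 * (2520 * LL s) + 1 : ℕ) : ℝ) with hC2
  have hC10 : 0 ≤ C1 := Nat.cast_nonneg _
  have hC20 : 0 ≤ C2 := Nat.cast_nonneg _
  refine ⟨Λ * ε, 4 * (C1 + C2 + 1) * C0, by positivity, by positivity, fun N Q D hD hN hQ hQη hQκ => ?_⟩
  have hQ0 : (0 : ℝ) < Q := by exact_mod_cast hQ
  have hQ1 : (1 : ℝ) ≤ Q := by exact_mod_cast hQ
  have hlQ : 0 ≤ Real.log Q := Real.log_natCast_nonneg Q
  have hN0 : (0 : ℝ) < N := by exact_mod_cast (show 0 < N by omega)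
  obtain ⟨u, ℓ, hu, huN, hw⟩ := hwin N Q D hD hN hQ hQκ
  set R : ℕ := ⌊ε * (N : ℝ)⌋₊ with hR
  have hRle : (R : ℝ) ≤ ε * (N : ℝ) := Nat.floor_le (by positivity)
  have hRlt : ε * (N : ℝ) < R + 1 := Nat.lt_floor_add_one _
  set A := Sp N D t ∩ Ico u (u + ℓ) with hA
  have hAcard : A.card ≤ N := by
    refine (card_le_card inter_subset_right).trans ?_
    rw [Nat.card_Ico]
    omega
  have hAu : ∀ a ∈ A, u ≤ a ∧ a < N := by
    intro a ha
    rw [hA, mem_inter, mem_Ico] at ha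
    omega
  have h1 : (1 + y) ^ A.card / y ^ R ≤ Real.exp (η / 100 * N) := by
    have h3 := hfew N R (hRle.trans (mul_le_mul_of_nonneg_right hεε1 hN0.le))
    rw [Nat.cast_one, one_mul] at h3
    refine le_trans ?_ h3
    apply div_le_div_of_nonneg_right _ (by positivity)
    exact pow_le_pow_right₀ (by linarith) hAcard
  have h2 : (11 : ℝ) ^ (2 * s * R) ≤ Real.exp (η / 100 * N) := by
    have h3 : ((2 * s * R : ℕ) : ℝ) ≤ η / 240 * N := by
      push_cast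
      calc 2 * (s : ℝ) * R ≤ 2 * s * (ε * N) := by gcongr
        _ ≤ 2 * s * (η / (480 * s) * N) := by gcongr
        _ = _ := by field_simp; ring
    refine (eleven_pow_le h3).trans (Real.exp_le_exp.2 ?_)
    linarith
  have h3 : Real.exp (η / 100 * N) * Real.exp (η / 100 * N) ≤ 2 * (Q : ℝ) ^ (1 / 100 : ℝ) := by
    have h4 := Real.log_le_log (by positivity) hQη
    rw [Real.log_rpow (by norm_num), Real.log_mul (by norm_num) hQ0.ne'] at h4
    have h5 := log_ten_gt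
    have h6 : η * N * (23 / 10) ≤ η * N * Real.log 10 := mul_le_mul_of_nonneg_left h5.le (by positivity)
    have h7 := Real.log_two_lt_d9
    have e1 : 2 * (Q : ℝ) ^ (1 / 100 : ℝ) = Real.exp (Real.log 2 + Real.log Q * (1 / 100)) := by
      rw [Real.exp_add, Real.exp_log (by norm_num), Real.rpow_def_of_pos hQ0]
    rw [e1, ← Real.exp_add]
    apply Real.exp_le_exp.2
    have h8 := Real.log_two_gt_d9
    nlinarith
  have hQQ : (Q : ℝ) ^ (1 / 100 : ℝ) * (Q : ℝ) ^ (94 / 100 : ℝ) = (Q : ℝ) ^ (95 / 100 : ℝ) := by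
    rw [← Real.rpow_add hQ0]
    norm_num
  -- the common estimate
  have hcount : ∀ (C3 : ℕ) (m : ℕ), (m : ℝ) ≤ (C3 : ℝ) * ((4 * Q ^ 2 / 10 ^ ℓ + 2 : ℕ) : ℝ) → (C3 : ℝ) ≤ C1 + C2 →
      ((1 + y) ^ A.card / y ^ R) * ((2 * 11 ^ (unc s A (Ico u (u + ℓ)) + 2 * s * R) * m : ℕ) : ℝ) ≤
      4 * (C1 + C2 + 1) * C0 * (Q : ℝ) ^ (95 / 100 : ℝ) := by
    intro C3 m hm hC3
    set X : ℝ := (11 : ℝ) ^ unc s A (Ico u (u + ℓ)) with hX
    set m1 : ℝ := ((4 * Q ^ 2 / 10 ^ ℓ + 2 : ℕ) : ℝ) with hm1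
    have hm10 : 0 ≤ m1 := Nat.cast_nonneg _
    have hX0 : 0 ≤ X := by positivity
    have hm0 : (0 : ℝ) ≤ m := Nat.cast_nonneg _
    have hC30 : (0 : ℝ) ≤ C3 := Nat.cast_nonneg _
    have e1 : ((2 * 11 ^ (unc s A (Ico u (u + ℓ)) + 2 * s * R) * m : ℕ) : ℝ) = 2 * (X * 11 ^ (2 * s * R)) * m := by
      rw [hX]
      push_cast
      rw [pow_add]
    rw [e1]
    calc ((1 + y) ^ A.card / y ^ R) * (2 * (X * 11 ^ (2 * s * R)) * m)
        ≤ Real.exp (η / 100 * N) * (2 * (X * Real.exp (η / 100 * N)) * (C3 * m1)) := by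
          apply mul_le_mul h1 _ (by positivity) (Real.exp_pos _).le
          apply mul_le_mul _ hm hm0 (by positivity)
          apply mul_le_mul_of_nonneg_left _ (by norm_num)
          exact mul_le_mul_of_nonneg_left h2 hX0
      _ = 2 * C3 * (Real.exp (η / 100 * N) * Real.exp (η / 100 * N)) * (X * m1) := by ring
      _ ≤ 2 * (C1 + C2) * (2 * (Q : ℝ) ^ (1 / 100 : ℝ)) * (C0 * (Q : ℝ) ^ (94 / 100 : ℝ)) := by
          apply mul_le_mul _ hw (by positivity) (by positivity)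
          apply mul_le_mul _ h3 (by positivity) (by positivity)
          linarith
      _ = 4 * (C1 + C2) * C0 * ((Q : ℝ) ^ (1 / 100 : ℝ) * (Q : ℝ) ^ (94 / 100 : ℝ)) := by ring
      _ = 4 * (C1 + C2) * C0 * (Q : ℝ) ^ (95 / 100 : ℝ) := by rw [hQQ]
      _ ≤ _ := by
          apply mul_le_mul_of_nonneg_right _ (by positivity)
          apply mul_le_mul_of_nonneg_right _ hC0.le
          linarith
  refine ⟨Ico u (u + ℓ), R, ?_, ?_, ?_⟩
  · refine (exc (P := PQ Q) (th := fra) (s := s) (u := u) (ℓ := ℓ) (N := N) (K := 2520) (R := R)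
      (m := (42 * (120 * LL s) + 1) * (4 * Q ^ 2 / 10 ^ ℓ + 2)) (A := A) (η := τ)
      hAu hτs (fun k' => pos_PQ hQ k') hy0 hy1).trans ?_
    apply hcount (42 * (120 * LL s) + 1) _ _ (by linarith)
    rw [Nat.cast_mul]
  · intro p hp1 hp2 hp3
    refine (exc (P := range (p ^ 2)) (th := fun a : ℕ => (a : ℝ) / ((p ^ 2 : ℕ) : ℝ)) (s := s) (u := u)
      (ℓ := ℓ) (N := N) (K := 2520) (R := R)
      (m := (2 * (2520 * LL s) + 1) * (p ^ 2 / 10 ^ ℓ + 2)) (A := A) (η := τ)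
      hAu hτs (fun k' => pos_den (M := p ^ 2) (s := s) (u := u) (ℓ := ℓ) (K := 2520) (pow_pos (by omega) 2)
        ((coprime_ten hp3).pow_left 2) (by norm_num) k') hy0 hy1).trans ?_
    apply hcount (2 * (2520 * LL s) + 1) _ _ (by linarith)
    rw [Nat.cast_mul]
    apply mul_le_mul_of_nonneg_left _ (Nat.cast_nonneg _)
    have h4 : p ^ 2 / 10 ^ ℓ + 2 ≤ 4 * Q ^ 2 / 10 ^ ℓ + 2 := by
      apply Nat.add_le_add_right
      apply Nat.div_le_div_right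
      calc p ^ 2 ≤ (2 * Q) ^ 2 := Nat.pow_le_pow_left hp2.le 2
        _ = 4 * Q ^ 2 := by ring
    exact_mod_cast h4
  · intro θ hθ
    rw [not_le] at hθ
    refine (FF_bd hD.sub (by norm_num) (dvd_refl 2520) (A := A) (inter_subset_left.trans (Sp_sub N D t))
      inter_subset_left hτ0 θ).trans ?_
    calc rho 2520 τ ^ (bd 2520 N A τ θ).card ≤ rho 2520 τ ^ (R + 1) :=
          pow_le_pow_of_le_one hρ0.le hρ1.le hθ
      _ = Real.exp (-(Λ * (R + 1))) := by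
          rw [hΛ, ← Real.rpow_natCast, Real.rpow_def_of_pos hρ0]
          congr 1
          push_cast
          ring
      _ ≤ _ := by
          apply Real.exp_le_exp.2
          have := mul_le_mul_of_nonneg_left hRlt.le hΛ0.le
          linarith

end Pool.Agent.L5helper11.PE
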