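import Pool.Agent.L5helper11.PE.Sum
import Pool.Agent.L5helper11.PD.BigC

/-!
# Level of distribution and squares for a family
-/

set_option autoImplicit false

namespace Pool.Agent.L5helper11.PE

open Finset Filter Topology Pool.Agent.Helper112
open Pool.Agent.L5helper11.PD (wt PQ fra mem_PQ card_PQ coprime_ten FF FF_nonneg FF_le_one gdouble div_T)

/-- the data of a family: `f` bounds the normalised exponential sum, `g` is a bound for the factor without the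
places of the sparse set -/
structure Fm (κ C : ℝ) (t N : ℕ) (D : ℕ → Finset ℕ) (f g : ℝ → ℝ) : Prop where
  good : GoodP N D
  f0 : ∀ x, 0 ≤ f x
  fi : ∀ (x : ℝ) (k : ℤ), f (x + k) = f x
  fD : ∀ x, f x ≤ FF N D (range (N + 1)) x
  g0 : ∀ x, 0 ≤ g x
  g1 : ∀ x, g x ≤ 1
  fg : ∀ x, f x ≤ FF N D (Sp N D t) x * g x
  gPQ : ∀ T : ℝ, (∀ n : ℕ, 1 ≤ n → n ≤ 10 ^ (2 * N + 1) → (n.divisors.card : ℝ) ≤ T) →
    ∀ Q : ℕ, 1 ≤ Q → (Q : ℝ) ≤ (10 : ℝ) ^ (κ * N) → ∑ x ∈ PQ Q, g (fra x) ≤ C * Q * (1 + T)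
  gSq : ∀ T : ℝ, (∀ n : ℕ, 1 ≤ n → n ≤ 10 ^ (2 * N + 1) → (n.divisors.card : ℝ) ≤ T) →
    ∀ P : ℕ, 1 ≤ P → (P : ℝ) ≤ (10 : ℝ) ^ (κ * N) → ∑ p ∈ Ico P (2 * P),
      (∑ a ∈ range (p ^ 2), g ((a : ℝ) / ((p ^ 2 : ℕ) : ℝ))) / ((p ^ 2 : ℕ) : ℝ) ≤ C * (1 + T)

/-- the sum over the moduli -/
theorem UU_sum3 {κ C : ℝ} (hκ0 : 0 < κ) (hκ : κ ≤ 74 / 100) (hC : 0 < C) {t : ℕ} (ht : 1 ≤ t) {c0 : ℝ} (hc0 : 0 < c0) :
    ∀ᶠ N : ℕ in atTop, ∀ (D : ℕ → Finset ℕ) (f g : ℝ → ℝ), Fm κ C t N D f g →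
      ∑ d ∈ (Icc 2 ⌊(10 : ℝ) ^ (κ * N)⌋₊).filter (fun q => q.Coprime 210),
      (d.divisors.card : ℝ) ^ 2 * UU f d / d ≤ c0 / (N : ℝ) ^ 5 := by
  classical
  obtain ⟨CB, ν, hCB, hB⟩ := mid
  set ε4 : ℝ := 1 / (100 * (ν + 2)) with hε4
  have hε40 : 0 < ε4 := by rw [hε4]; positivity
  obtain ⟨c5, CL, hc5, hCL, hL⟩ := large hκ hε40 ht
  obtain ⟨T0, hT0, hT⟩ := div_T (c := c5 / 2) (by positivity)
  set δ : ℝ := min (5 / 100) (c5 / 6) with hδ
  have hδ0 : 0 < δ := by rw [hδ]; positivity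
  have hδ1 : δ ≤ 5 / 100 := min_le_left _ _
  have hδ2 : δ ≤ c5 / 6 := min_le_right _ _
  set CC : ℝ := CB + (CL + C * (1 + T0)) with hCC
  have hCC0 : 0 < CC := by rw [hCC]; positivity
  have hgs := gsum3 (κ := κ) (C := CC) (δ := δ) (ε4 := ε4) (by linarith) hCC0 hδ0 hε40 hc0
  filter_upwards [hgs, small_one 30, eventually_ge_atTop (100 * (ν + 2))] with N h1 h2 hN D f g hf
  have hN0 : (0 : ℝ) ≤ N := Nat.cast_nonneg _
  have hNν : (100 : ℝ) * (ν + 2) ≤ N := by exact_mod_cast hN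
  refine h1 (UU f) (UU_nonneg hf.f0) ?_ ?_ ?_
  · -- small
    intro q hq hq6 hc
    refine (UU_le hf.f0 hf.fi (by omega) (Nat.Coprime.coprime_dvd_right ⟨10, by norm_num⟩ hc)).trans ?_
    refine (Finset.sum_le_sum fun h hh => (hf.fD _).trans (h2 D hf.good q h hq hq6 hc (mem_filter.1 hh).2)).trans ?_
    rw [Finset.sum_const, nsmul_eq_mul]
    apply mul_le_mul_of_nonneg_right _ (by positivity)
    have := card_filter_le (range (21 * q)) (fun h => h.Coprime q)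
    rw [card_range] at this
    exact_mod_cast this
  · -- medium
    intro Q hQ hQ2
    have hQ0 : (0 : ℝ) < Q := by exact_mod_cast hQ
    refine (UU_dyadic hf.f0 hf.fi hQ).trans ?_
    refine (Finset.sum_le_sum fun x _ => hf.fD (fra x)).trans ?_
    refine (hB N Q D hf.good hQ ?_).trans ?_
    · have h3 := len_le' hQ
      have h4 := Real.log_le_log hQ0 hQ2
      rw [Real.log_rpow (by norm_num)] at h4
      have h5 := log_ten_lt'
      have h6 : ε4 * N * Real.log 10 ≤ ε4 * N * (23027 / 10000) := mul_le_mul_of_nonneg_left h5.le (by positivity)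
      have h7 : ε4 * N * (100 * (ν + 2)) = N := by
        rw [hε4]
        field_simp
      have h8 : (15 : ℝ) * PD.len Q * (ν + 2) ≤ N := by
        have h12 : 0 ≤ ε4 * N := by positivity
        have h9 : (PD.len Q : ℝ) ≤ 2 + 21 / 10 * (ε4 * N) := by linarith
        have h10 : (15 : ℝ) * PD.len Q * (ν + 2) ≤ 15 * (2 + 21 / 10 * (ε4 * N)) * (ν + 2) := by gcongr
        have h11 : 15 * (2 + 21 / 10 * (ε4 * N)) * ((ν : ℝ) + 2) = 30 * (ν + 2) + 315 / 1000 * N := by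
          linear_combination (315 / 1000) * h7
        linarith
      exact_mod_cast h8
    · rw [hCC]
      apply mul_le_mul_of_nonneg_right _ (by positivity)
      have : 0 ≤ CL + C * (1 + T0) := by positivity
      linarith
  · -- large
    intro Q hQ hQ1 hQ2
    have hQ0 : (0 : ℝ) < Q := by exact_mod_cast hQ
    have hQ1' : (1 : ℝ) ≤ Q := by exact_mod_cast hQ
    obtain ⟨W, R, hW1, _, hW3⟩ := hL N Q D hf.good (by omega) hQ (hQ1.trans (by linarith)) hQ2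
    set T : ℝ := T0 * Real.exp (c5 / 2 * N) with hTd
    have hT' : ∀ n : ℕ, 1 ≤ n → n ≤ 10 ^ (2 * N + 1) → (n.divisors.card : ℝ) ≤ T := fun n => hT N n
    have hTpos : 0 < T := by positivity
    refine (UU_dyadic hf.f0 hf.fi hQ).trans ?_
    have h3 : ∀ x ∈ PQ Q, f (fra x) ≤
        (if (bd 2520 N (Sp N D t ∩ W) (tol (2 * t)) (fra x)).card ≤ R then (1 : ℝ) else 0) +
        Real.exp (-(c5 * N)) * g (fra x) := by
      intro x _
      have hg0 := hf.g0 (fra x)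
      split_ifs with h4
      · have h5 := (hf.fD (fra x)).trans (FF_le_one _ _ _ _)
        have : 0 ≤ Real.exp (-(c5 * N)) * g (fra x) := by positivity
        linarith
      · rw [zero_add]
        exact (hf.fg _).trans (mul_le_mul_of_nonneg_right (hW3 _ h4) hg0)
    refine (Finset.sum_le_sum h3).trans ?_
    rw [Finset.sum_add_distrib, ← Finset.mul_sum, ← Finset.sum_filter, Finset.sum_const, nsmul_eq_mul, mul_one]
    have h4 := hf.gPQ T hT' Q hQ hQ2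
    have h5 : (Q : ℝ) ^ (95 / 100 : ℝ) ≤ (Q : ℝ) ^ (1 - δ) := by
      apply Real.rpow_le_rpow_of_exponent_le hQ1'
      linarith
    have h6 : Real.exp (-(c5 * N)) * (Q * (1 + T)) ≤ (1 + T0) * (Q : ℝ) ^ (1 - δ) := by
      have e1 : 1 + T ≤ (1 + T0) * Real.exp (c5 / 2 * N) := by
        have : 1 ≤ Real.exp (c5 / 2 * N) := Real.one_le_exp (by positivity)
        rw [hTd]
        nlinarith
      have e2 : Real.exp (-(c5 / 2 * N)) ≤ (Q : ℝ) ^ (-δ) := by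
        have h6 : (Q : ℝ) ^ δ ≤ Real.exp (c5 / 2 * N) := by
          have h7 : Real.log Q ≤ 3 * N := by
            have h8 := Real.log_le_log hQ0 hQ2
            rw [Real.log_rpow (by norm_num)] at h8
            have h9 : κ * N ≤ 1 * N := mul_le_mul_of_nonneg_right (by linarith) hN0
            have hL := log_ten_lt'
            have hL' := log_ten_gt
            nlinarith
          rw [Real.rpow_def_of_pos hQ0]
          apply Real.exp_le_exp.2
          have hlQ : 0 ≤ Real.log Q := Real.log_natCast_nonneg Q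
          calc Real.log Q * δ ≤ (3 * N) * (c5 / 6) := mul_le_mul h7 hδ2 hδ0.le (by positivity)
            _ = c5 / 2 * N := by ring
        rw [Real.exp_neg, Real.rpow_neg hQ0.le]
        exact inv_anti₀ (by positivity) h6
      calc Real.exp (-(c5 * N)) * (Q * (1 + T))
          ≤ Real.exp (-(c5 * N)) * (Q * ((1 + T0) * Real.exp (c5 / 2 * N))) := by gcongr
        _ = (1 + T0) * (Q * Real.exp (-(c5 / 2 * N))) := by
            have e3 : Real.exp (-(c5 * N)) * Real.exp (c5 / 2 * N) = Real.exp (-(c5 / 2 * N)) := by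
              rw [← Real.exp_add]; congr 1; ring
            rw [← e3]; ring
        _ ≤ (1 + T0) * (Q * (Q : ℝ) ^ (-δ)) := by gcongr
        _ = (1 + T0) * (Q : ℝ) ^ (1 - δ) := by
            congr 1
            rw [sub_eq_add_neg, Real.rpow_add hQ0, Real.rpow_one]
    calc _ ≤ CL * (Q : ℝ) ^ (95 / 100 : ℝ) + Real.exp (-(c5 * N)) * (C * Q * (1 + T)) := by
          apply add_le_add hW1
          exact mul_le_mul_of_nonneg_left h4 (Real.exp_pos _).le
      _ ≤ CL * (Q : ℝ) ^ (1 - δ) + C * ((1 + T0) * (Q : ℝ) ^ (1 - δ)) := by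
          apply add_le_add (mul_le_mul_of_nonneg_left h5 hCL.le)
          calc Real.exp (-(c5 * N)) * (C * Q * (1 + T)) = C * (Real.exp (-(c5 * N)) * (Q * (1 + T))) := by ring
            _ ≤ _ := mul_le_mul_of_nonneg_left h6 hC.le
      _ ≤ CC * (Q : ℝ) ^ (1 - δ) := by
          rw [hCC]
          have : 0 ≤ CB * (Q : ℝ) ^ (1 - δ) := by positivity
          linarith

/-- the level of distribution -/
theorem level3 {κ C : ℝ} (hκ0 : 0 < κ) (hκ : κ ≤ 74 / 100) (hC : 0 < C) {t : ℕ} (ht : 1 ≤ t) {c0 : ℝ} (hc0 : 0 < c0) :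
    ∀ᶠ N : ℕ in atTop, ∀ (D : ℕ → Finset ℕ) (f g : ℝ → ℝ), Fm κ C t N D f g →
      ∀ (ι : Type) (S0 : Finset ι) (v : ι → ℕ) (X : ℝ), 0 ≤ X →
      (∀ α : ℝ, ‖∑ m ∈ S0, ee (α * (v m : ℝ))‖ ≤ X * f α) →
      ∑ q ∈ (Icc 1 ⌊(10 : ℝ) ^ (κ * N)⌋₊).filter (fun q => q.Coprime 210),
      (q.divisors.card : ℝ) ^ 2 *
        |(((S0.filter fun m => (v m).Coprime 21).filter (fun m => q ∣ v m)).card : ℝ) -
          ((S0.filter fun m => (v m).Coprime 21).card : ℝ) / q| ≤ c0 * X / N := by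
  filter_upwards [UU_sum3 hκ0 hκ hC ht (c0 := c0 / 4 ^ 4) (by positivity), eventually_ge_atTop 1]
    with N hN hN1' D f g hf ι S0 v X hX0 hX
  set E := ⌊(10 : ℝ) ^ (κ * N)⌋₊ with hE
  have hN1 : (1 : ℝ) ≤ N := by exact_mod_cast hN1'
  have hN0 : (0 : ℝ) < N := by linarith
  have h1 : ∑ q ∈ (Icc 1 E).filter (fun q => q.Coprime 210),
      (q.divisors.card : ℝ) ^ 2 *
        |(((S0.filter fun m => (v m).Coprime 21).filter (fun m => q ∣ v m)).card : ℝ) -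
          ((S0.filter fun m => (v m).Coprime 21).card : ℝ) / q| ≤
      ∑ q ∈ (Icc 1 E).filter (fun q => q.Coprime 210),
      (q.divisors.card : ℝ) ^ 2 *
        (X / q * ∑ d ∈ q.divisors.filter (fun d => 1 < d), UU f d) := by
    refine sum_le_sum fun q hq => ?_
    rw [mem_filter, mem_Icc] at hq
    exact mul_le_mul_of_nonneg_left (cnt_bound S0 v hX hq.1.1) (by positivity)
  have h2 := h1.trans (gdouble 210 (UU_nonneg hf.f0) (P := X) hX0 E)
  have h3 := Pool.Agent.H316R2.tau_sq_sum_le E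
  have hlog : 1 + Real.log E ≤ 4 * N := by
    rcases Nat.eq_zero_or_pos E with h0 | h0
    · rw [h0]
      simp only [Nat.cast_zero, Real.log_zero, add_zero]
      linarith
    · have hEle : (E : ℝ) ≤ (10 : ℝ) ^ (κ * N) := Nat.floor_le (by positivity)
      have h4 := Real.log_le_log (by exact_mod_cast h0 : (0 : ℝ) < E) hEle
      rw [Real.log_rpow (by norm_num)] at h4
      have h5 := log_ten_lt'
      have h6 := log_ten_gt
      have h7 : κ * N ≤ 1 * N := mul_le_mul_of_nonneg_right (by linarith) hN0.le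
      nlinarith
  have hlog0 : 0 ≤ 1 + Real.log E := by
    have := Real.log_natCast_nonneg E
    linarith
  have h4 : ∑ e ∈ Icc 1 E, (e.divisors.card : ℝ) ^ 2 / e ≤ (4 : ℝ) ^ 4 * (N : ℝ) ^ 4 := by
    refine h3.trans ?_
    calc (1 + Real.log E) ^ 4 ≤ (4 * (N : ℝ)) ^ 4 := by gcongr
      _ = (4 : ℝ) ^ 4 * (N : ℝ) ^ 4 := by ring
  refine h2.trans ?_
  have hS0 : 0 ≤ ∑ e ∈ Icc 1 E, (e.divisors.card : ℝ) ^ 2 / e :=
    sum_nonneg fun _ _ => by positivity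
  have hNN := hN D f g hf
  calc X * ((∑ d ∈ (Icc 2 E).filter (fun q => q.Coprime 210),
      (d.divisors.card : ℝ) ^ 2 * UU f d / d) *
        ∑ e ∈ Icc 1 E, (e.divisors.card : ℝ) ^ 2 / e)
      ≤ X * ((c0 / 4 ^ 4 / (N : ℝ) ^ 5) * ((4 : ℝ) ^ 4 * (N : ℝ) ^ 4)) :=
        mul_le_mul_of_nonneg_left (mul_le_mul hNN h4 hS0 (by positivity)) hX0
    _ = c0 * X / N := by
        field_simp

/-- a dyadic block of square moduli -/
noncomputable def WW (f : ℝ → ℝ) (P : ℕ) : ℝ :=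
  ∑ p ∈ (Ico P (2 * P)).filter (fun p => p.Coprime 210),
    (∑ a ∈ range (p ^ 2), f ((a : ℝ) / ((p ^ 2 : ℕ) : ℝ))) / ((p ^ 2 : ℕ) : ℝ)

theorem WW_le3 {κ C η : ℝ} (hκ : κ ≤ 74 / 100) (hC : 0 < C) {t : ℕ} (ht : 1 ≤ t) (hη : 0 < η) :
    ∃ (C' c : ℝ), 0 < C' ∧ 0 < c ∧ ∀ (N : ℕ) (D : ℕ → Finset ℕ) (f g : ℝ → ℝ), 2 ≤ N → Fm κ C t N D f g →
      ∀ P : ℕ, 1 ≤ P → (10 : ℝ) ^ (η * N) ≤ 2 * P → (P : ℝ) ≤ (10 : ℝ) ^ (κ * N) →
        WW f P ≤ C' * Real.exp (-(c * N)) := by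
  classical
  obtain ⟨c5, CL, hc5, hCL, hL⟩ := large hκ hη ht
  obtain ⟨T0, hT0, hT⟩ := div_T (c := c5 / 2) (by positivity)
  refine ⟨2 * CL + C * (1 + T0), min (η / 10) (c5 / 2), by positivity, by positivity,
    fun N D f g hN hf P hP hP1 hP2 => ?_⟩
  set c : ℝ := min (η / 10) (c5 / 2) with hc
  have hc1 : c ≤ η / 10 := min_le_left _ _
  have hc2 : c ≤ c5 / 2 := min_le_right _ _
  have hP0 : (0 : ℝ) < P := by exact_mod_cast hP
  have hP1' : (1 : ℝ) ≤ P := by exact_mod_cast hP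
  have hN0 : (0 : ℝ) ≤ N := Nat.cast_nonneg _
  obtain ⟨W, R, _, hW2, hW3⟩ := hL N P D hf.good hN hP hP1 hP2
  set PP := (Ico P (2 * P)).filter (fun p => p.Coprime 210) with hPP
  have hmem : ∀ p ∈ PP, P ≤ p ∧ p < 2 * P ∧ p.Coprime 210 := by
    intro p hp
    rw [hPP, mem_filter, mem_Ico] at hp
    exact ⟨hp.1.1, hp.1.2, hp.2⟩
  have hcardPP : (PP.card : ℝ) ≤ P := by
    have : PP.card ≤ P := by
      rw [hPP]
      refine (card_filter_le _ _).trans ?_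
      rw [Nat.card_Ico]
      omega
    exact_mod_cast this
  set T : ℝ := T0 * Real.exp (c5 / 2 * N) with hTd
  have hT' : ∀ n : ℕ, 1 ≤ n → n ≤ 10 ^ (2 * N + 1) → (n.divisors.card : ℝ) ≤ T := fun n => hT N n
  have hTpos : 0 < T := by positivity
  have h3 : ∀ p ∈ PP, (∑ a ∈ range (p ^ 2), f ((a : ℝ) / ((p ^ 2 : ℕ) : ℝ))) / ((p ^ 2 : ℕ) : ℝ) ≤
      CL * (P : ℝ) ^ (95 / 100 : ℝ) / (P : ℝ) ^ 2 + Real.exp (-(c5 * N)) *
        ((∑ a ∈ range (p ^ 2), g ((a : ℝ) / ((p ^ 2 : ℕ) : ℝ))) / ((p ^ 2 : ℕ) : ℝ)) := by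
    intro p hp
    obtain ⟨g1, g2, g3⟩ := hmem p hp
    have hp0 : (0 : ℝ) < ((p ^ 2 : ℕ) : ℝ) := by
      have : 0 < p ^ 2 := pow_pos (by omega) 2
      exact_mod_cast this
    have h4 : ∀ a ∈ range (p ^ 2), f ((a : ℝ) / ((p ^ 2 : ℕ) : ℝ)) ≤
        (if (bd 2520 N (Sp N D t ∩ W) (tol (2 * t)) ((a : ℝ) / ((p ^ 2 : ℕ) : ℝ))).card ≤ R then (1 : ℝ) else 0) +
        Real.exp (-(c5 * N)) * g ((a : ℝ) / ((p ^ 2 : ℕ) : ℝ)) := by
      intro a _
      have hg0 := hf.g0 ((a : ℝ) / ((p ^ 2 : ℕ) : ℝ))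
      split_ifs with h4
      · have h5 := (hf.fD ((a : ℝ) / ((p ^ 2 : ℕ) : ℝ))).trans (FF_le_one _ _ _ _)
        have : 0 ≤ Real.exp (-(c5 * N)) * g ((a : ℝ) / ((p ^ 2 : ℕ) : ℝ)) := by positivity
        linarith
      · rw [zero_add]
        exact (hf.fg _).trans (mul_le_mul_of_nonneg_right (hW3 _ h4) hg0)
    have h5 := Finset.sum_le_sum h4
    rw [Finset.sum_add_distrib, ← Finset.mul_sum, ← Finset.sum_filter, Finset.sum_const, nsmul_eq_mul, mul_one] at h5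
    have h6 := hW2 p g1 g2 g3
    have h7 : (P : ℝ) ^ 2 ≤ ((p ^ 2 : ℕ) : ℝ) := by
      push_cast
      exact pow_le_pow_left₀ hP0.le (by exact_mod_cast g1) 2
    calc (∑ a ∈ range (p ^ 2), f ((a : ℝ) / ((p ^ 2 : ℕ) : ℝ))) / ((p ^ 2 : ℕ) : ℝ)
        ≤ (CL * (P : ℝ) ^ (95 / 100 : ℝ) + Real.exp (-(c5 * N)) *
          ∑ a ∈ range (p ^ 2), g ((a : ℝ) / ((p ^ 2 : ℕ) : ℝ))) / ((p ^ 2 : ℕ) : ℝ) := by
          apply div_le_div_of_nonneg_right _ hp0.le
          linarith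
      _ = CL * (P : ℝ) ^ (95 / 100 : ℝ) / ((p ^ 2 : ℕ) : ℝ) + Real.exp (-(c5 * N)) *
          ((∑ a ∈ range (p ^ 2), g ((a : ℝ) / ((p ^ 2 : ℕ) : ℝ))) / ((p ^ 2 : ℕ) : ℝ)) := by ring
      _ ≤ _ := by
          apply add_le_add _ le_rfl
          exact div_le_div_of_nonneg_left (by positivity) (by positivity) h7
  have h4 : WW f P ≤ P * (CL * (P : ℝ) ^ (95 / 100 : ℝ) / (P : ℝ) ^ 2) + Real.exp (-(c5 * N)) * (C * (1 + T)) := by
    unfold WW
    refine (sum_le_sum h3).trans ?_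
    rw [sum_add_distrib, sum_const, nsmul_eq_mul, ← mul_sum]
    apply add_le_add
    · exact mul_le_mul_of_nonneg_right hcardPP (by positivity)
    · apply mul_le_mul_of_nonneg_left _ (Real.exp_pos _).le
      refine le_trans ?_ (hf.gSq T hT' P hP hP2)
      apply sum_le_sum_of_subset_of_nonneg (filter_subset _ _)
      intro p _ _
      exact div_nonneg (sum_nonneg fun a _ => hf.g0 _) (Nat.cast_nonneg _)
  have h5 : P * (CL * (P : ℝ) ^ (95 / 100 : ℝ) / (P : ℝ) ^ 2) ≤ 2 * CL * Real.exp (-(c * N)) := by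
    have e1 : P * (CL * (P : ℝ) ^ (95 / 100 : ℝ) / (P : ℝ) ^ 2) = CL * (P : ℝ) ^ (-(5 / 100) : ℝ) := by
      have e2 : (P : ℝ) ^ (95 / 100 : ℝ) = (P : ℝ) ^ (-(5 / 100) : ℝ) * P := by
        rw [← Real.rpow_add_one hP0.ne']
        norm_num
      rw [e2]
      field_simp
    have e2 : (P : ℝ) ^ (-(5 / 100) : ℝ) ≤ 2 * Real.exp (-(c * N)) := by
      have h6 : Real.log (10 ^ (η * N)) ≤ Real.log (2 * P) := Real.log_le_log (by positivity) hP1
      rw [Real.log_rpow (by norm_num), Real.log_mul (by norm_num) hP0.ne'] at h6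
      have h7 := log_ten_gt
      have h8 := Real.log_two_lt_d9
      have h9 := Real.log_two_gt_d9
      have h10 : η * N * (23 / 10) ≤ η * N * Real.log 10 := mul_le_mul_of_nonneg_left h7.le (by positivity)
      have e3 : 2 * Real.exp (-(c * N)) = Real.exp (Real.log 2 - c * N) := by
        rw [sub_eq_add_neg, Real.exp_add, Real.exp_log (by norm_num)]
      rw [e3, Real.rpow_def_of_pos hP0]
      apply Real.exp_le_exp.2
      have h11 : c * N ≤ η / 10 * N := mul_le_mul_of_nonneg_right hc1 hN0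
      have h12 : 0 ≤ η * N := by positivity
      linarith
    rw [e1]
    calc CL * (P : ℝ) ^ (-(5 / 100) : ℝ) ≤ CL * (2 * Real.exp (-(c * N))) := by gcongr
      _ = _ := by ring
  have h6 : Real.exp (-(c5 * N)) * (C * (1 + T)) ≤ C * (1 + T0) * Real.exp (-(c * N)) := by
    have e1 : 1 + T ≤ (1 + T0) * Real.exp (c5 / 2 * N) := by
      have : 1 ≤ Real.exp (c5 / 2 * N) := Real.one_le_exp (by positivity)
      rw [hTd]
      nlinarith
    have e2 : Real.exp (-(c5 * N)) * Real.exp (c5 / 2 * N) ≤ Real.exp (-(c * N)) := by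
      rw [← Real.exp_add]
      apply Real.exp_le_exp.2
      have : c * N ≤ c5 / 2 * N := mul_le_mul_of_nonneg_right hc2 hN0
      linarith
    calc Real.exp (-(c5 * N)) * (C * (1 + T))
        ≤ Real.exp (-(c5 * N)) * (C * ((1 + T0) * Real.exp (c5 / 2 * N))) := by gcongr
      _ = C * (1 + T0) * (Real.exp (-(c5 * N)) * Real.exp (c5 / 2 * N)) := by ring
      _ ≤ _ := by gcongr
  calc WW f P ≤ _ := h4
    _ ≤ 2 * CL * Real.exp (-(c * N)) + C * (1 + T0) * Real.exp (-(c * N)) := add_le_add h5 h6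
    _ = _ := by ring

/-- values divisible by the square of a large integer are rare -/
theorem squares3 {κ C η : ℝ} (hκ : κ ≤ 74 / 100) (hC : 0 < C) {t : ℕ} (ht : 1 ≤ t) (hη : 0 < η) {c0 : ℝ}
    (hc0 : 0 < c0) : ∀ᶠ N : ℕ in atTop, ∀ (D : ℕ → Finset ℕ) (f g : ℝ → ℝ), Fm κ C t N D f g →
      ∀ (ι : Type) (S0 : Finset ι) (v : ι → ℕ) (X : ℝ), 0 ≤ X →
      (∀ α : ℝ, ‖∑ m ∈ S0, ee (α * (v m : ℝ))‖ ≤ X * f α) → ∀ S ⊆ S0,
      (∀ m ∈ S, ∃ p : ℕ, p.Coprime 210 ∧ (10 : ℝ) ^ (η * N) ≤ p ∧ (p : ℝ) ≤ (10 : ℝ) ^ (κ * N) ∧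
        p ^ 2 ∣ v m) → (S.card : ℝ) ≤ c0 * X / N := by
  classical
  obtain ⟨C', c, hC', hc, hW⟩ := WW_le3 (C := C) hκ hC ht hη
  have hlim : ∀ᶠ N : ℕ in atTop, ((4 * N + 1 : ℕ) : ℝ) * (C' * Real.exp (-(c * N))) ≤ c0 / N := by
    have h1 := (Real.tendsto_pow_mul_exp_neg_atTop_nhds_zero 2).comp
      ((tendsto_natCast_atTop_atTop (R := ℝ)).const_mul_atTop hc)
    have hη' : 0 < c ^ 2 * c0 / (5 * C') := by positivity
    filter_upwards [h1.eventually_lt_const hη', eventually_ge_atTop 1] with N hN hN1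
    simp only [Function.comp] at hN
    have hNp : (0 : ℝ) < N := by exact_mod_cast hN1
    have hN1' : (1 : ℝ) ≤ N := by exact_mod_cast hN1
    rw [lt_div_iff₀ (by positivity), mul_pow] at hN
    rw [le_div_iff₀ (by positivity)]
    have h2 : ((4 * N + 1 : ℕ) : ℝ) ≤ 5 * N := by push_cast; linarith
    have h3 : c ^ 2 * ((5 * N) * (C' * Real.exp (-(c * N))) * (N : ℝ)) < c ^ 2 * c0 := by
      calc c ^ 2 * ((5 * N) * (C' * Real.exp (-(c * N))) * (N : ℝ)) =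
          c ^ 2 * (N : ℝ) ^ 2 * Real.exp (-(c * N)) * (5 * C') := by ring
        _ < c ^ 2 * c0 := hN
    have h4 := lt_of_mul_lt_mul_left h3 (by positivity)
    have h5 : ((4 * N + 1 : ℕ) : ℝ) * (C' * Real.exp (-(c * N))) * (N : ℝ) ≤
        (5 * N) * (C' * Real.exp (-(c * N))) * (N : ℝ) := by
      apply mul_le_mul_of_nonneg_right _ (by positivity)
      exact mul_le_mul_of_nonneg_right h2 (by positivity)
    linarith
  filter_upwards [hlim, eventually_ge_atTop 2] with N hN hN2 D f g hf ι S0 v X hX0 hX S hS hSq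
  have hN1' : 1 ≤ N := by omega
  -- covering
  set E : Finset ℕ := (range (4 * N + 1)).filter fun e =>
    (10 : ℝ) ^ (η * N) ≤ 2 * ((2 ^ e : ℕ) : ℝ) ∧ ((2 ^ e : ℕ) : ℝ) ≤ (10 : ℝ) ^ (κ * N) with hE
  have hsub : S ⊆ E.biUnion fun e => ((Ico (2 ^ e) (2 * 2 ^ e)).filter (fun p => p.Coprime 210)).biUnion
      fun p => S0.filter (fun m => p ^ 2 ∣ v m) := by
    intro m hm
    obtain ⟨p, hp1, hp2, hp3, hp4⟩ := hSq m hm
    have hp0 : p ≠ 0 := by
      rintro rfl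
      norm_num at hp1
    have e1 : 2 ^ Nat.log 2 p ≤ p := Nat.pow_log_le_self 2 hp0
    have e2 : p < 2 * 2 ^ Nat.log 2 p := by
      have := Nat.lt_pow_succ_log_self (b := 2) (by norm_num) p
      rwa [Nat.succ_eq_add_one, pow_succ, mul_comm] at this
    have e1R : ((2 ^ Nat.log 2 p : ℕ) : ℝ) ≤ p := by exact_mod_cast e1
    have e2R : (p : ℝ) ≤ 2 * ((2 ^ Nat.log 2 p : ℕ) : ℝ) := by exact_mod_cast e2.le
    rw [Finset.mem_biUnion]
    refine ⟨Nat.log 2 p, ?_, ?_⟩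
    · rw [hE, mem_filter, mem_range]
      refine ⟨?_, hp2.trans e2R, e1R.trans hp3⟩
      have h3 : (2 : ℝ) ^ Nat.log 2 p ≤ (10 : ℝ) ^ (κ * N) := by
        have := e1R.trans hp3
        push_cast at this
        exact this
      have h4 : (10 : ℝ) ^ (κ * N) ≤ (2 : ℝ) ^ (4 * N) := by
        calc (10 : ℝ) ^ (κ * N) ≤ (10 : ℝ) ^ ((N : ℕ) : ℝ) := by
              apply Real.rpow_le_rpow_of_exponent_le (by norm_num)
              have : (0 : ℝ) ≤ N := Nat.cast_nonneg _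
              nlinarith
          _ = (10 : ℝ) ^ N := Real.rpow_natCast _ _
          _ ≤ (16 : ℝ) ^ N := pow_le_pow_left₀ (by norm_num) (by norm_num) N
          _ = (2 : ℝ) ^ (4 * N) := by rw [pow_mul]; norm_num
      have h5 : (2 : ℝ) ^ Nat.log 2 p ≤ (2 : ℝ) ^ (4 * N) := h3.trans h4
      have h6 := (pow_le_pow_iff_right₀ (by norm_num : (1 : ℝ) < 2)).1 h5
      omega
    · rw [Finset.mem_biUnion]
      refine ⟨p, ?_, ?_⟩
      · rw [mem_filter, mem_Ico]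
        exact ⟨⟨e1, e2⟩, hp1⟩
      · rw [mem_filter]
        exact ⟨hS hm, hp4⟩
  have h1 : (S.card : ℝ) ≤ ∑ e ∈ E, ∑ p ∈ (Ico (2 ^ e) (2 * 2 ^ e)).filter (fun p => p.Coprime 210),
      ((S0.filter (fun m => p ^ 2 ∣ v m)).card : ℝ) := by
    have h2 : S.card ≤ ∑ e ∈ E, ∑ p ∈ (Ico (2 ^ e) (2 * 2 ^ e)).filter (fun p => p.Coprime 210),
        (S0.filter (fun m => p ^ 2 ∣ v m)).card := by
      refine (Finset.card_le_card hsub).trans (Finset.card_biUnion_le.trans ?_)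
      exact Finset.sum_le_sum fun e _ => Finset.card_biUnion_le
    exact_mod_cast h2
  have h2 : ∀ e ∈ E, ∑ p ∈ (Ico (2 ^ e) (2 * 2 ^ e)).filter (fun p => p.Coprime 210),
      ((S0.filter (fun m => p ^ 2 ∣ v m)).card : ℝ) ≤ X * (C' * Real.exp (-(c * N))) := by
    intro e he
    rw [hE, mem_filter] at he
    have hP1 : 1 ≤ 2 ^ e := Nat.one_le_two_pow
    have h3 := hW N D f g hN2 hf (2 ^ e) hP1 he.2.1 he.2.2
    refine le_trans ?_ (mul_le_mul_of_nonneg_left h3 hX0)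
    unfold WW
    rw [Finset.mul_sum]
    refine sum_le_sum fun p hp => ?_
    rw [mem_filter, mem_Ico] at hp
    exact cnt_le S0 v hX (pow_pos (by omega) 2)
  refine h1.trans ((sum_le_sum h2).trans ?_)
  rw [Finset.sum_const, nsmul_eq_mul]
  have h3 : (E.card : ℝ) ≤ ((4 * N + 1 : ℕ) : ℝ) := by
    have : E.card ≤ 4 * N + 1 := by
      rw [hE]
      refine (card_filter_le _ _).trans ?_
      rw [card_range]
    exact_mod_cast this
  calc (E.card : ℝ) * (X * (C' * Real.exp (-(c * N))))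
      ≤ ((4 * N + 1 : ℕ) : ℝ) * (X * (C' * Real.exp (-(c * N)))) :=
        mul_le_mul_of_nonneg_right h3 (by positivity)
    _ = X * (((4 * N + 1 : ℕ) : ℝ) * (C' * Real.exp (-(c * N)))) := by ring
    _ ≤ X * (c0 / N) := mul_le_mul_of_nonneg_left hN hX0
    _ = _ := by ring

end Pool.Agent.L5helper11.PE
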