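import Pool.Agent.L5helper11.PE.FamB
import Pool.Agent.L5helper11.PE.Dig

/-!
# Palindromes with prescribed digits: the main theorem
-/

set_option autoImplicit false

namespace Pool.Agent.L5helper11.PE

open Finset Filter Topology Pool.Agent.Helper112
open Pool.Agent.L5helper11.PD (wt wt_inj PQ fra mem_PQ card_PQ coprime_ten FF FF_nonneg FF_le_one FF_union FF_anti FF_add_int
  sd sd_nonneg sd_le_one cut XX cf card_cf L2_PQ L2_sq cs_part ten_pow Ix vv vB S21 S21_card norm_sum vB_lt vv_coprime_ten)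

/-- the value of a pair -/
def v2 (N : ℕ) (m : Ix N × Ix N) : ℕ := vv N m.1 + vv N m.2

/-- the pairs of choices of digits -/
def S2 (N : ℕ) (F : Finset ℕ) (e : ℕ → ℕ) : Finset (Ix N × Ix N) :=
  (cf (D5 F e) (range (N + 1))) ×ˢ (cf (D6 F) (range (N + 1)))

lemma mem_S2 {N : ℕ} {F : Finset ℕ} {e : ℕ → ℕ} {m : Ix N × Ix N} : m ∈ S2 N F e ↔
    (∀ i : (range (N + 1) : Finset ℕ), m.1 i ∈ D5 F e i) ∧ (∀ i : (range (N + 1) : Finset ℕ), m.2 i ∈ D6 F i) := by
  unfold S2 cf
  rw [mem_product, Fintype.mem_piFinset, Fintype.mem_piFinset]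

lemma card_S2 {N : ℕ} {F : Finset ℕ} (hF : F ⊆ Ico 1 N) (e : ℕ → ℕ) : (S2 N F e).card = 30 ^ F.card := by
  classical
  have hFr : F ⊆ range (N + 1) := by
    intro i hi
    have := mem_Ico.1 (hF hi)
    rw [mem_range]
    omega
  unfold S2
  rw [card_product, card_cf, card_cf, ← prod_mul_distrib]
  have h1 : ∏ i ∈ range (N + 1), (D5 F e i).card * (D6 F i).card = ∏ i ∈ range (N + 1), if i ∈ F then 30 else 1 := by
    refine prod_congr rfl fun i _ => ?_
    unfold D5 D6
    split_ifs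
    · rw [card_range, card_range]
    · rw [card_singleton, card_singleton]
  rw [h1, ← prod_filter, prod_const]
  congr 2
  ext i
  rw [mem_filter]
  exact ⟨fun h => h.2, fun h => ⟨hFr h, h⟩⟩

/-- the exponential sum of the pairs -/
lemma norm_sum2 (N : ℕ) (F : Finset ℕ) (e : ℕ → ℕ) (α : ℝ) :
    ‖∑ m ∈ S2 N F e, ee (α * (v2 N m : ℝ))‖ =
      ((S2 N F e).card : ℝ) * (FF N (D5 F e) (range (N + 1)) α * FF N (D6 F) (range (N + 1)) α) := by
  have h1 : ∑ m ∈ S2 N F e, ee (α * (v2 N m : ℝ)) =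
      (∑ m ∈ cf (D5 F e) (range (N + 1)), ee (α * (vv N m : ℝ))) *
        ∑ m ∈ cf (D6 F) (range (N + 1)), ee (α * (vv N m : ℝ)) := by
    unfold S2
    rw [sum_mul_sum, sum_product]
    refine sum_congr rfl fun a _ => sum_congr rfl fun b _ => ?_
    rw [← ls_ee_add]
    congr 1
    unfold v2
    push_cast
    ring
  have h2 := norm_sum N (D5 F e) (range (N + 1)) α
  have h3 := norm_sum N (D6 F) (range (N + 1)) α
  have h4 : (S2 N F e).card = (cf (D5 F e) (range (N + 1))).card * (cf (D6 F) (range (N + 1))).card := by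
    unfold S2
    rw [card_product]
  rw [h1, norm_mul, h4]
  unfold vv
  rw [h2, h3]
  push_cast
  ring

/-- the digits of a pair -/
def e2 (N : ℕ) (m : Ix N × Ix N) (i : ℕ) : ℕ := xt N m.1 i + xt N m.2 i

lemma v2_eq (N : ℕ) (m : Ix N × Ix N) : v2 N m = ∑ i ∈ range (N + 1), e2 N m i * wt N i := by
  unfold v2 e2
  rw [vv_eq, vv_eq, ← sum_add_distrib]
  refine sum_congr rfl fun i _ => ?_
  ring

lemma e2_free {N : ℕ} {F : Finset ℕ} {e : ℕ → ℕ} {m : Ix N × Ix N} (hm : m ∈ S2 N F e) (he : ∀ i, e i < 10)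
    (i : ℕ) : e2 N m i < 10 := by
  rw [mem_S2] at hm
  unfold e2 xt
  split_ifs with h
  · have h1 : m.1 ⟨i, h⟩ ∈ D5 F e i := hm.1 ⟨i, h⟩
    have h2 : m.2 ⟨i, h⟩ ∈ D6 F i := hm.2 ⟨i, h⟩
    unfold D5 at h1
    unfold D6 at h2
    split_ifs at h1 h2 with h3
    · rw [mem_range] at h1 h2
      omega
    · rw [mem_singleton] at h1 h2
      have := he i
      omega
  · norm_num

lemma e2_fixed {N : ℕ} {F : Finset ℕ} {e : ℕ → ℕ} {m : Ix N × Ix N} (hm : m ∈ S2 N F e) {i : ℕ} (hi : i ≤ N)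
    (hiF : i ∉ F) : e2 N m i = e i := by
  rw [mem_S2] at hm
  have h : i ∈ range (N + 1) := mem_range.2 (by omega)
  unfold e2 xt
  rw [dif_pos h, dif_pos h]
  have h1 : m.1 ⟨i, h⟩ ∈ D5 F e i := hm.1 ⟨i, h⟩
  have h2 : m.2 ⟨i, h⟩ ∈ D6 F i := hm.2 ⟨i, h⟩
  unfold D5 at h1
  unfold D6 at h2
  rw [if_neg hiF, mem_singleton] at h1 h2
  omega

/-- the value is prime to ten -/
lemma v2_coprime_ten {N : ℕ} (hN : 1 ≤ N) {F : Finset ℕ} (hF : F ⊆ Ico 1 N) {e : ℕ → ℕ}
    (h0 : e 0 ∈ ({1, 3, 7, 9} : Finset ℕ)) {m : Ix N × Ix N} (hm : m ∈ S2 N F e) : (v2 N m).Coprime 10 := by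
  have hF0 : (0 : ℕ) ∉ F := fun h => by
    have := mem_Ico.1 (hF h)
    omega
  have h2 : v2 N m ≡ e 0 [MOD 10] := by
    rw [v2_eq, ← Finset.add_sum_erase _ _ (mem_range.2 (show 0 < N + 1 by omega)), e2_fixed hm (Nat.zero_le _) hF0]
    have h3 : ∑ i ∈ (range (N + 1)).erase 0, e2 N m i * wt N i ≡ 0 [MOD 10] := by
      rw [Nat.modEq_zero_iff_dvd]
      apply Finset.dvd_sum
      intro i hi
      apply Dvd.dvd.mul_left
      rw [mem_erase, mem_range] at hi
      unfold wt
      split_ifs with h4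
      · exact dvd_add (dvd_pow_self 10 hi.1) (dvd_pow_self 10 (by omega))
      · exact dvd_pow_self 10 (by omega)
    have h4 : e 0 * wt N 0 ≡ e 0 * 1 [MOD 10] := by
      apply Nat.ModEq.mul_left
      unfold wt
      rw [if_pos (by omega), pow_zero]
      have : 10 ^ (2 * N - 0) ≡ 0 [MOD 10] := Nat.modEq_zero_iff_dvd.2 (dvd_pow_self 10 (by omega))
      exact Nat.ModEq.add_left 1 this
    have h5 := h4.add h3
    rw [mul_one, add_zero] at h5
    exact h5
  rw [Nat.Coprime, h2.gcd_eq]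
  simp only [mem_insert, mem_singleton] at h0
  rcases h0 with h | h | h | h <;> rw [h] <;> norm_num

/-! ### residues modulo `21` -/

lemma wt_unit {N i : ℕ} (h : i < N) : (wt N i).Coprime 21 := by
  have h3 : (wt N i).Coprime 3 := by
    have e : wt N i ≡ 2 [MOD 3] := by
      unfold wt
      rw [if_pos h]
      have h1 : ∀ k, 10 ^ k ≡ 1 [MOD 3] := by
        intro k
        have := (show 10 ≡ 1 [MOD 3] by decide).pow k
        rwa [one_pow] at this
      exact (h1 i).add (h1 _)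
    rw [Nat.Coprime, e.gcd_eq]
    norm_num
  have h7 : (wt N i).Coprime 7 := by
    rw [Nat.Coprime, Nat.gcd_comm]
    have hz : ((wt N i : ℕ) : ZMod 7) ≠ 0 := by
      unfold wt
      rw [if_pos h]
      push_cast
      have e10 : (10 : ZMod 7) = 3 := by decide
      obtain ⟨k, hk⟩ : ∃ k, 2 * N - i = i + 2 * k := ⟨N - i, by omega⟩
      rw [hk, pow_add, pow_mul, e10]
      have e2 : ((3 : ZMod 7) ^ 2) = 2 := by decide
      rw [e2]
      have h8 : ∀ k : ℕ, (2 : ZMod 7) ^ k = 1 ∨ (2 : ZMod 7) ^ k = 2 ∨ (2 : ZMod 7) ^ k = 4 := by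
        intro k
        induction k with
        | zero => left; simp
        | succ k ih =>
          rw [pow_succ]
          rcases ih with h | h | h <;> rw [h]
          · right; left; decide
          · right; right; decide
          · left; decide
      have h9 : IsUnit ((3 : ZMod 7) ^ i) := by
        apply IsUnit.pow
        exact (ZMod.isUnit_iff_coprime 3 7).2 (by norm_num)
      have e3 : (3 : ZMod 7) ^ i + 3 ^ i * 2 ^ k = 3 ^ i * (1 + 2 ^ k) := by ring
      rw [e3]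
      have h11 : (1 + (2 : ZMod 7) ^ k) ≠ 0 := by
        rcases h8 k with h | h | h <;> rw [h] <;> decide
      have : Fact (Nat.Prime 7) := ⟨by norm_num⟩
      exact mul_ne_zero h9.ne_zero h11
    have h10 : ¬ 7 ∣ wt N i := fun hd => hz ((ZMod.natCast_eq_zero_iff _ _).2 hd)
    exact (Nat.Prime.coprime_iff_not_dvd (by norm_num)).2 h10
  have e : 21 = 3 * 7 := by norm_num
  rw [e]
  exact Nat.Coprime.mul_right h3 h7

lemma pick (a w : ZMod 21) (hw : IsUnit w) : ∃ t ∈ range 5, IsUnit (a + (t : ZMod 21) * w) := by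
  revert a w
  decide +kernel

/-- a positive proportion is prime to `21` -/
lemma local5 {N : ℕ} {F : Finset ℕ} (hF : F ⊆ Ico 1 N) (hne : F.Nonempty) (e : ℕ → ℕ) :
    (S2 N F e).card ≤ 5 * ((S2 N F e).filter fun m => (v2 N m).Coprime 21).card := by
  classical
  obtain ⟨i0, hi0⟩ := hne
  have hi0N := mem_Ico.1 (hF hi0)
  have hi0r : i0 ∈ range (N + 1) := mem_range.2 (by omega)
  set I : (range (N + 1) : Finset ℕ) := ⟨i0, hi0r⟩ with hI
  -- the change of one digit
  have hupd : ∀ (m : Ix N × Ix N) (t : ℕ), v2 N (Function.update m.1 I t, m.2) =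
      v2 N (Function.update m.1 I 0, m.2) + t * wt N i0 := by
    intro m t
    unfold v2 vv vB
    simp only
    rw [← Finset.add_sum_erase _ _ (mem_univ I), ← Finset.add_sum_erase (univ) (fun i : (range (N + 1) : Finset ℕ) =>
      Function.update m.1 I 0 i * wt N i) (mem_univ I), Function.update_self, Function.update_self]
    have h1 : ∑ x ∈ univ.erase I, Function.update m.1 I t x * wt N x =
        ∑ x ∈ univ.erase I, Function.update m.1 I 0 x * wt N x := by
      refine sum_congr rfl fun x hx => ?_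
      rw [Function.update_of_ne (ne_of_mem_erase hx), Function.update_of_ne (ne_of_mem_erase hx)]
    rw [h1]
    have : wt N (I : ℕ) = wt N i0 := rfl
    rw [this]
    ring
  have hex : ∀ m : Ix N × Ix N, ∃ t ∈ range 5, (v2 N (Function.update m.1 I t, m.2)).Coprime 21 := by
    intro m
    obtain ⟨t, ht, ht2⟩ := pick ((v2 N (Function.update m.1 I 0, m.2) : ℕ) : ZMod 21) ((wt N i0 : ℕ) : ZMod 21)
      ((ZMod.isUnit_iff_coprime _ _).2 (wt_unit hi0N.2))
    refine ⟨t, ht, ?_⟩
    rw [← ZMod.isUnit_iff_coprime, hupd]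
    push_cast
    exact ht2
  choose τ hτ1 hτ2 using hex
  set φ : Ix N × Ix N → Ix N × Ix N := fun m => (Function.update m.1 I (τ m), m.2) with hφ
  refine Finset.card_le_mul_card_image_of_maps_to (f := φ) ?_ 5 ?_
  · intro m hm
    rw [mem_filter]
    refine ⟨?_, hτ2 m⟩
    rw [mem_S2] at hm ⊢
    refine ⟨fun i => ?_, hm.2⟩
    simp only [hφ]
    by_cases h : i = I
    · rw [h, Function.update_self]
      unfold D5
      have : ((I : (range (N + 1) : Finset ℕ)) : ℕ) ∈ F := hi0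
      rw [if_pos this]
      exact hτ1 m
    · rw [Function.update_of_ne h]
      exact hm.1 i
  · intro b _
    have h1 := Finset.card_le_card_of_injOn (s := (S2 N F e).filter fun m => φ m = b) (t := range 5)
      (fun m => m.1 I) ?_ ?_
    · rwa [card_range] at h1
    · intro m hm
      rw [mem_coe, mem_filter, mem_S2] at hm
      have h2 := hm.1.1 I
      unfold D5 at h2
      have : ((I : (range (N + 1) : Finset ℕ)) : ℕ) ∈ F := hi0
      rw [if_pos this] at h2
      exact h2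
    · intro m hm m' hm' hmm
      rw [mem_coe, mem_filter] at hm hm'
      have h2 : φ m = φ m' := hm.2.trans hm'.2.symm
      simp only [hφ, Prod.mk.injEq] at h2
      refine Prod.ext ?_ h2.2
      funext i
      by_cases h : i = I
      · rw [h]
        exact hmm
      · have h3 := congrFun h2.1 i
        rwa [Function.update_of_ne h, Function.update_of_ne h] at h3

/-! ### the number of pairs with the same value -/

/-- the number of quadruples -/
lemma card_quad : ((((range 5) ×ˢ (range 6)) ×ˢ ((range 5) ×ˢ (range 6))).filter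
    fun q : (ℕ × ℕ) × (ℕ × ℕ) => q.1.1 + q.1.2 = q.2.1 + q.2.2).card = 110 := by
  decide +kernel

lemma card_same {N : ℕ} {F : Finset ℕ} (hF : F ⊆ Ico 1 N) {e : ℕ → ℕ} (he : ∀ i, e i < 10) :
    (((S2 N F e) ×ˢ (S2 N F e)).filter fun x => v2 N x.1 = v2 N x.2).card ≤ 110 ^ F.card := by
  classical
  have hFr : F ⊆ range (N + 1) := by
    intro i hi
    have := mem_Ico.1 (hF hi)
    rw [mem_range]
    omega
  set Qd : ℕ → Finset ((ℕ × ℕ) × (ℕ × ℕ)) := fun i =>
    (((D5 F e i) ×ˢ (D6 F i)) ×ˢ ((D5 F e i) ×ˢ (D6 F i))).filter fun q => q.1.1 + q.1.2 = q.2.1 + q.2.2 with hQd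
  have h1 : (((S2 N F e) ×ˢ (S2 N F e)).filter fun x => v2 N x.1 = v2 N x.2).card ≤
      (Fintype.piFinset fun i : (range (N + 1) : Finset ℕ) => Qd i).card := by
    refine Finset.card_le_card_of_injOn (fun x i => ((x.1.1 i, x.1.2 i), (x.2.1 i, x.2.2 i))) ?_ ?_
    · intro x hx
      rw [mem_coe, mem_filter, mem_product] at hx
      obtain ⟨⟨hx1, hx2⟩, hx3⟩ := hx
      have hdig : ∀ i ≤ N, e2 N x.1 i = e2 N x.2 i := by
        intro i hi
        have h2 := wt_inj (N := N) (fun i => (e2 N x.1 i : ℤ) - e2 N x.2 i) (by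
          intro j
          have h3 := e2_free hx1 he j
          have h4 := e2_free hx2 he j
          rw [abs_lt]
          constructor <;> omega) (by
          have h3 : ∀ j ∈ range (N + 1), ((e2 N x.1 j : ℤ) - e2 N x.2 j) * (wt N j : ℤ) =
              (e2 N x.1 j : ℤ) * wt N j - (e2 N x.2 j : ℤ) * wt N j := fun j _ => by ring
          rw [sum_congr rfl h3, sum_sub_distrib, sub_eq_zero]
          rw [v2_eq, v2_eq] at hx3
          exact_mod_cast hx3) i hi
        omega
      rw [mem_coe, Fintype.mem_piFinset]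
      intro i
      simp only [hQd]
      rw [mem_filter, mem_product, mem_product, mem_product]
      rw [mem_S2] at hx1 hx2
      refine ⟨⟨⟨hx1.1 i, hx1.2 i⟩, ⟨hx2.1 i, hx2.2 i⟩⟩, ?_⟩
      have h2 := hdig i (by have := mem_range.1 i.2; omega)
      unfold e2 xt at h2
      simp only [i.2, dif_pos] at h2
      exact h2
    · intro x _ y _ hxy
      have h2 : ∀ i, x.1.1 i = y.1.1 i ∧ x.1.2 i = y.1.2 i ∧ x.2.1 i = y.2.1 i ∧ x.2.2 i = y.2.2 i := by
        intro i
        have h3 := congrFun hxy i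
        simp only [Prod.mk.injEq] at h3
        exact ⟨h3.1.1, h3.1.2, h3.2.1, h3.2.2⟩
      refine Prod.ext (Prod.ext ?_ ?_) (Prod.ext ?_ ?_)
      · funext i; exact (h2 i).1
      · funext i; exact (h2 i).2.1
      · funext i; exact (h2 i).2.2.1
      · funext i; exact (h2 i).2.2.2
  refine h1.trans (le_of_eq ?_)
  rw [Fintype.card_piFinset, Finset.prod_coe_sort (range (N + 1)) (fun i => (Qd i).card)]
  have h2 : ∏ i ∈ range (N + 1), (Qd i).card = ∏ i ∈ range (N + 1), if i ∈ F then 110 else 1 := by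
    refine prod_congr rfl fun i _ => ?_
    simp only [hQd]
    unfold D5 D6
    split_ifs with h
    · exact card_quad
    · rw [card_eq_one]
      refine ⟨((e i, 0), (e i, 0)), ?_⟩
      ext q
      simp only [mem_filter, mem_product, mem_singleton]
      constructor
      · rintro ⟨⟨⟨h3, h4⟩, h5, h6⟩, _⟩
        exact Prod.ext (Prod.ext h3 h4) (Prod.ext h5 h6)
      · rintro rfl
        exact ⟨⟨⟨rfl, rfl⟩, rfl, rfl⟩, rfl⟩
  rw [h2, ← prod_filter, prod_const]
  congr 2
  ext i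
  rw [mem_filter]
  exact ⟨fun h => h.2, fun h => ⟨hFr h, h⟩⟩

/-- many values -/
lemma many_values {N : ℕ} {F : Finset ℕ} (hF : F ⊆ Ico 1 N) {e : ℕ → ℕ} (he : ∀ i, e i < 10)
    {G : Finset (Ix N × Ix N)} (hG : G ⊆ S2 N F e) :
    (G.card : ℝ) ^ 2 ≤ ((G.image (v2 N)).card : ℝ) * 110 ^ F.card := by
  classical
  set V := G.image (v2 N) with hV
  have h1 : (G.card : ℝ) = ∑ v ∈ V, ((G.filter fun m => v2 N m = v).card : ℝ) := by
    have h2 := Finset.card_eq_sum_card_image (v2 N) G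
    rw [← hV] at h2
    exact_mod_cast h2
  have h2 : (∑ v ∈ V, ((G.filter fun m => v2 N m = v).card : ℝ)) ^ 2 ≤
      (V.card : ℝ) * ∑ v ∈ V, ((G.filter fun m => v2 N m = v).card : ℝ) ^ 2 := sq_sum_le_card_mul_sum_sq
  have h3 : ∑ v ∈ V, ((G.filter fun m => v2 N m = v).card : ℝ) ^ 2 ≤ 110 ^ F.card := by
    have h4 : ∑ v ∈ V, (G.filter fun m => v2 N m = v).card ^ 2 ≤
        (((S2 N F e) ×ˢ (S2 N F e)).filter fun x => v2 N x.1 = v2 N x.2).card := by
      have h5 : ∑ v ∈ V, (G.filter fun m => v2 N m = v).card ^ 2 =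
          (V.sigma fun v => (G.filter fun m => v2 N m = v) ×ˢ (G.filter fun m => v2 N m = v)).card := by
        rw [card_sigma]
        refine sum_congr rfl fun v _ => ?_
        rw [card_product, sq]
      rw [h5]
      refine Finset.card_le_card_of_injOn (fun x => x.2) ?_ ?_
      · intro x hx
        rw [mem_coe, mem_sigma, mem_product, mem_filter, mem_filter] at hx
        rw [mem_coe, mem_filter, mem_product]
        exact ⟨⟨hG hx.2.1.1, hG hx.2.2.1⟩, hx.2.1.2.trans hx.2.2.2.symm⟩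
      · intro x hx y hy hxy
        rw [mem_coe, mem_sigma, mem_product, mem_filter, mem_filter] at hx hy
        simp only at hxy
        have h6 : x.1 = y.1 := by
          rw [← hx.2.1.2, ← hy.2.1.2, hxy]
        exact Sigma.ext h6 (heq_of_eq hxy)
    have h5 := h4.trans (card_same hF he)
    exact_mod_cast h5
  rw [h1]
  refine h2.trans ?_
  exact mul_le_mul_of_nonneg_left h3 (Nat.cast_nonneg _)

/-- the main theorem for prescribed digits -/
theorem mainB {r : ℕ} {θ lam : ℝ} (hθ0 : 0 ≤ θ) (hθ1 : θ ≤ 1 / 15)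
    (hl0 : 0 < lam) (hl1 : lam ≤ 1) (hlam : lam * (1174 / 1000) < 994 / 1000)
    (hr : 1 / lam + 88 / (43 * (277 / 376 * (1 - θ))) < r + 1) :
    ∃ c : ℝ, 0 < c ∧ ∀ᶠ N : ℕ in atTop, ∀ (F : Finset ℕ) (e : ℕ → ℕ), F ⊆ Ico 1 N → (1 - θ) * N ≤ F.card + 1 →
      (∀ i, e i < 10) → e 0 ∈ ({1, 3, 7, 9} : Finset ℕ) →
      ∃ G : Finset (Ix N × Ix N), G ⊆ S2 N F e ∧ c * 30 ^ F.card / N ≤ (G.card : ℝ) ∧ ∀ m ∈ G,
        (v2 N m).primeFactorsList.length ≤ r ∧
        ∀ p ∈ (v2 N m).primeFactorsList, (10 : ℝ) ^ (277 / 376 * (1 - θ) / 6 * N) < p := by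
  classical
  obtain ⟨t, N0, ht, hfm⟩ := fmB hθ0 hθ1
  set κ : ℝ := 277 / 376 * (1 - θ) with hκ
  have hκ0 : 0 < κ := by rw [hκ]; linarith
  have hκ74 : κ ≤ 74 / 100 := by rw [hκ]; linarith
  obtain ⟨c, hc, hsv⟩ := sieve_abs (r := r) (κ := κ) (lam := lam) (B21 := 5) hκ0 (by linarith) hl0 hl1
    hlam hr (by norm_num)
  have hlev := level3 hκ0 hκ74 (C := 42) (by norm_num) ht hc
  have hsq := squares3 (κ := κ) (C := 42) (η := κ / 6) hκ74 (by norm_num) ht (by positivity) hc
  refine ⟨c, hc, ?_⟩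
  filter_upwards [hsv, hlev, hsq, eventually_ge_atTop (max N0 3)] with N h1 h2 h3 hN F e hF hcard he he0
  have hN1 : 3 ≤ N := (le_max_right _ _).trans hN
  have hfmN := hfm N F e ((le_max_left _ _).trans hN) hF hcard he
  have hFne : F.Nonempty := by
    rw [nonempty_iff_ne_empty]
    rintro rfl
    rw [card_empty] at hcard
    have : (3 : ℝ) ≤ N := by exact_mod_cast hN1
    push_cast at hcard
    nlinarith
  have hX : ((S2 N F e).card : ℝ) = 30 ^ F.card := by
    rw [card_S2 hF e]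
    push_cast
    ring
  have hX0 : (0 : ℝ) < ((S2 N F e).card : ℝ) := by rw [hX]; positivity
  have hXf : ∀ α : ℝ, ‖∑ m ∈ S2 N F e, ee (α * (v2 N m : ℝ))‖ ≤ ((S2 N F e).card : ℝ) *
      (FF N (D5 F e) (range (N + 1)) α * FF N (D6 F) (range (N + 1)) α) := fun α => le_of_eq (norm_sum2 N F e α)
  have h4 := h2 _ _ _ hfmN (Ix N × Ix N) (S2 N F e) (v2 N) _ hX0.le hXf
  have h5 := h3 _ _ _ hfmN (Ix N × Ix N) (S2 N F e) (v2 N) _ hX0.le hXf
  have h6 := h1 (Ix N × Ix N) ((S2 N F e).filter fun m => (v2 N m).Coprime 21) (v2 N) _ hX0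
    (by exact_mod_cast local5 hF hFne e) h4
    (fun B hB hBp => h5 B (hB.trans (filter_subset _ _)) hBp)
    (fun m hm => by
      rw [mem_filter] at hm
      have e : 210 = 10 * 21 := by norm_num
      rw [e]
      exact Nat.Coprime.mul_right (v2_coprime_ten (by omega) hF he0 hm.1) hm.2)
    (fun m hm => by
      rw [mem_filter] at hm
      rw [v2_eq]
      exact val_lt (e2_free hm.1 he))
  obtain ⟨G, hG1, hG2, hG3⟩ := h6
  rw [hX] at hG2
  exact ⟨G, hG1.trans (filter_subset _ _), hG2, hG3⟩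

end Pool.Agent.L5helper11.PE
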