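import Pool.Agent.L5helper11.PE.Win

/-!
# Denominators of medium size
-/

set_option autoImplicit false

namespace Pool.Agent.L5helper11.PE

open Finset Pool.Agent.Helper112
open Pool.Agent.L5helper11.PD (dn dn_nonneg dn_le_half dn_le dn_add_int dn_sub_le dn_mul_le dn_mul_eq
  dvd_of_dn_lt le_dn_of_not_dvd wt PQ fra mem_PQ card_PQ frac_inj coprime_ten sd sd_nonneg sd_le_one
  FF FF_nonneg FF_le_one FF_anti FF_union few_bound len len_spec le_len log_ten)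

lemma log_eleven : Real.log 11 ≤ 12 / 5 := by
  rw [Real.log_le_iff_le_exp (by norm_num)]
  have h1 := Real.exp_one_gt_d9
  have h2 : (Real.exp (12 / 5)) ^ 5 = Real.exp 1 ^ 12 := by
    rw [← Real.exp_nat_mul, ← Real.exp_nat_mul]
    norm_num
  have h3 : (2.7182818283 : ℝ) ^ 12 ≤ Real.exp 1 ^ 12 := pow_le_pow_left₀ (by norm_num) h1.le 12
  have h4 : (11 : ℝ) ^ 5 ≤ (Real.exp (12 / 5)) ^ 5 := by
    rw [h2]
    refine le_trans ?_ h3
    norm_num
  exact le_of_pow_le_pow_left₀ (by norm_num) (Real.exp_pos _).le h4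

lemma log_ten_gt : (23 / 10 : ℝ) < Real.log 10 := by
  have h1 := Real.log_two_gt_d9
  have h2 : Real.log ((2 : ℝ) ^ 93) < Real.log ((10 : ℝ) ^ 28) := Real.log_lt_log (by norm_num) (by norm_num)
  rw [Real.log_pow, Real.log_pow] at h2
  push_cast at h2
  linarith

lemma log_ten_lt' : Real.log 10 < 23027 / 10000 := by
  have h1 := Real.log_two_lt_d9
  have h2 : Real.log ((10 : ℝ) ^ 59) < Real.log ((2 : ℝ) ^ 196) := Real.log_lt_log (by norm_num) (by norm_num)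
  rw [Real.log_pow, Real.log_pow] at h2
  push_cast at h2
  linarith

lemma len_le' {Q : ℕ} (hQ : 1 ≤ Q) : (len Q : ℝ) ≤ 2 + 20 / 23 * Real.log Q := by
  have hQ2 : 1 ≤ Q ^ 2 := Nat.one_le_pow _ _ hQ
  have h1 : 10 ^ (len Q).pred < 4 * Q ^ 2 := Nat.pow_pred_clog_lt_self (by norm_num) (by omega)
  have h2 : (10 : ℝ) ^ (len Q).pred < 4 * (Q : ℝ) ^ 2 := by exact_mod_cast h1
  have hQ0 : (0 : ℝ) < Q := by exact_mod_cast hQ
  have h3 := Real.log_lt_log (by positivity) h2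
  rw [Real.log_pow, Real.log_mul (by norm_num) (by positivity), Real.log_pow] at h3
  have h4 : (len Q : ℝ) ≤ (len Q).pred + 1 := by
    have : len Q ≤ (len Q).pred + 1 := by
      rw [Nat.pred_eq_sub_one]
      omega
    exact_mod_cast this
  have h5 : Real.log 4 ≤ 23 / 10 := by
    have h6 : Real.log 4 = 2 * Real.log 2 := by
      have : (4 : ℝ) = 2 ^ 2 := by norm_num
      rw [this, Real.log_pow]
      norm_num
    have := Real.log_two_lt_d9
    linarith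
  have h6 : 0 ≤ Real.log Q := Real.log_natCast_nonneg Q
  have h7 := log_ten_gt
  have h8 : (0 : ℝ) ≤ ((len Q).pred : ℝ) := Nat.cast_nonneg _
  push_cast at h3
  have h9 : ((len Q).pred : ℝ) * (23 / 10) ≤ 23 / 10 + 2 * Real.log Q := by nlinarith
  linarith

/-- the tolerance -/
noncomputable def tol (s : ℕ) : ℝ := 1 / (40 * 10 ^ s * LL s)

lemma tol_pos (s : ℕ) : 0 < tol s := by
  unfold tol
  have : (0 : ℝ) < LL s := by exact_mod_cast LL_pos s
  positivity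

lemma tol_le_one (s : ℕ) : tol s ≤ 1 := by
  unfold tol
  have h1 : (1 : ℝ) ≤ LL s := by exact_mod_cast LL_pos s
  have h2 : (1 : ℝ) ≤ 10 ^ s := one_le_pow₀ (by norm_num)
  rw [div_le_one (by positivity)]
  nlinarith

lemma tol_spec (s : ℕ) : (10 : ℝ) ^ s * (LL s * tol s) < 1 / 20 := by
  unfold tol
  have h1 : (0 : ℝ) < LL s := by exact_mod_cast LL_pos s
  have e : (10 : ℝ) ^ s * (LL s * (1 / (40 * 10 ^ s * LL s))) = 1 / 40 := by
    field_simp
  rw [e]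
  norm_num

/-- powers of eleven -/
lemma eleven_pow_le {n : ℕ} {x : ℝ} (h : (n : ℝ) ≤ x) : (11 : ℝ) ^ n ≤ Real.exp (12 / 5 * x) := by
  have h1 : (11 : ℝ) ^ n = Real.exp (n * Real.log 11) := by
    rw [mul_comm, Real.exp_mul, Real.exp_log (by norm_num), Real.rpow_natCast]
  rw [h1]
  apply Real.exp_le_exp.2
  have h2 := log_eleven
  have h3 : 0 ≤ Real.log 11 := Real.log_nonneg (by norm_num)
  have h4 : (0 : ℝ) ≤ n := Nat.cast_nonneg n
  nlinarith

/-- denominators of medium size -/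
theorem mid : ∃ (C : ℝ) (ν : ℕ), 0 < C ∧ ∀ (N Q : ℕ) (D : ℕ → Finset ℕ), GoodP N D → 1 ≤ Q →
    15 * len Q * (ν + 2) ≤ N →
    ∑ x ∈ PQ Q, FF N D (range (N + 1)) (fra x) ≤ C * (Q : ℝ) ^ (161 / 1000 : ℝ) := by
  classical
  obtain ⟨y, ε1, hy0, hy1, hε1, hfew⟩ := few_bound 1 (a := 1 / 400) (by norm_num)
  set ε : ℝ := min ε1 (1 / 38400) with hε
  have hε0 : 0 < ε := by rw [hε]; positivity
  have hεε1 : ε ≤ ε1 := min_le_left _ _
  have hε2 : ε ≤ 1 / 38400 := min_le_right _ _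
  set η : ℝ := tol 20 with hη
  have hη0 : 0 < η := tol_pos 20
  have hη1 : η ≤ 1 := tol_le_one 20
  have hηs : (10 : ℝ) ^ 20 * (LL 20 * η) < 1 / 20 := tol_spec 20
  clear_value η
  have hρ0 := rho_pos (K := 2520) (by norm_num) hη0 hη1
  have hρ1 := rho_lt_one (K := 2520) (by norm_num) hη0
  set Λ : ℝ := -Real.log (rho 2520 η) with hΛ
  have hΛ0 : 0 < Λ := by
    have := Real.log_neg hρ0 hρ1
    rw [hΛ]; linarith
  obtain ⟨ν, hν⟩ := exists_nat_ge (Real.log 10 / (ε * Λ))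
  set C1 : ℝ := ((42 * (120 * LL 20) + 1 : ℕ) : ℝ) with hC1
  have hC10 : 0 ≤ C1 := Nat.cast_nonneg _
  refine ⟨ν * (6 * C1 * Real.exp 3) + 42, ν, by positivity, fun N Q D hD hQ hN => ?_⟩
  have hQ0 : (0 : ℝ) < Q := by exact_mod_cast hQ
  have hQ1 : (1 : ℝ) ≤ Q := by exact_mod_cast hQ
  have hlQ : 0 ≤ Real.log Q := Real.log_natCast_nonneg Q
  set ℓ := len Q with hℓ
  have hspec := len_spec Q
  rw [pow_one, ← hℓ] at hspec
  have hℓ1 : 1 ≤ ℓ := by
    by_contra h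
    have h0 : ℓ = 0 := by omega
    rw [h0, pow_zero] at hspec
    have : 1 ≤ Q ^ 2 := Nat.one_le_pow _ _ hQ
    omega
  have hℓ0 : (0 : ℝ) < ℓ := by exact_mod_cast hℓ1
  have hN1 : 1 ≤ N := by
    have : 1 ≤ 15 * ℓ * (ν + 2) := Nat.mul_pos (by omega) (by omega)
    omega
  set R : ℕ := ⌊ε * (ℓ : ℝ)⌋₊ with hR
  have hRle : (R : ℝ) ≤ ε * (ℓ : ℝ) := Nat.floor_le (by positivity)
  have hRlt : ε * (ℓ : ℝ) < R + 1 := Nat.lt_floor_add_one _
  -- dense windows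
  obtain ⟨S, hSd, hSν⟩ : ∃ S ⊆ dense N D ℓ, S.card = ν := by
    apply Finset.exists_subset_card_eq
    have h1 := dense_many hD hN1 hℓ1
    have h2 : (15 * (ℓ : ℝ) * (ν + 2)) ≤ N := by exact_mod_cast hN
    have h3 : (ν : ℝ) + 2 ≤ N / (15 * ℓ) := by
      rw [le_div_iff₀ (by positivity)]
      linarith
    have h4 : (ν : ℝ) ≤ ((dense N D ℓ).card : ℝ) := by linarith
    exact_mod_cast h4
  have hSr : S ⊆ range ((N - 1) / ℓ) := hSd.trans (filter_subset _ _)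
  -- pointwise bound
  have hpt : ∀ x ∈ PQ Q, FF N D (range (N + 1)) (fra x) ≤
      ∑ k ∈ S, (if (bd 2520 N (Fr N D ∩ Wn ℓ k) η (fra x)).card ≤ R then (1 : ℝ) else 0) +
        1 / (Q : ℝ) ^ 2 := by
    intro x _
    by_cases hex : ∃ k ∈ S, (bd 2520 N (Fr N D ∩ Wn ℓ k) η (fra x)).card ≤ R
    · obtain ⟨b, hb, hb2⟩ := hex
      have h1 := FF_le_one N D (range (N + 1)) (fra x)
      have h2 : (1 : ℝ) ≤ ∑ k ∈ S,
          (if (bd 2520 N (Fr N D ∩ Wn ℓ k) η (fra x)).card ≤ R then (1 : ℝ) else 0) := by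
        refine le_trans (le_of_eq ?_) (Finset.single_le_sum (f := fun k =>
          (if (bd 2520 N (Fr N D ∩ Wn ℓ k) η (fra x)).card ≤ R then (1 : ℝ) else 0))
          (fun b _ => by positivity) hb)
        rw [if_pos hb2]
      have h3 : 0 ≤ 1 / (Q : ℝ) ^ 2 := by positivity
      linarith
    · push Not at hex
      have h2 := FF_windows (N := N) (K := 2520) (ℓ := ℓ) (R := R + 1) hD.sub hN1 (by norm_num) (dvd_refl _)
        hη0 hη1 hSr (fra x) hex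
      rw [hSν] at h2
      have h3 : (rho 2520 η ^ (R + 1)) ^ ν ≤ 1 / (Q : ℝ) ^ 2 := by
        have e1 : (rho 2520 η ^ (R + 1)) ^ ν = Real.exp (-(Λ * ((R + 1) * ν))) := by
          rw [← pow_mul, hΛ, ← Real.rpow_natCast, Real.rpow_def_of_pos hρ0]
          congr 1
          push_cast
          ring
        have e2 : 1 / (Q : ℝ) ^ 2 = Real.exp (-(2 * Real.log Q)) := by
          rw [Real.exp_neg, mul_comm, Real.exp_mul, Real.exp_log hQ0, one_div]
          norm_num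
        rw [e1, e2]
        apply Real.exp_le_exp.2
        rw [neg_le_neg_iff]
        have h4 : Real.log 10 ≤ ν * (ε * Λ) := by
          rwa [div_le_iff₀ (by positivity)] at hν
        have h5 := le_len hQ
        rw [← hℓ] at h5
        calc 2 * Real.log Q ≤ Real.log 10 * ℓ := h5
          _ ≤ (ν * (ε * Λ)) * ℓ := mul_le_mul_of_nonneg_right h4 hℓ0.le
          _ = Λ * ((ε * ℓ) * ν) := by ring
          _ ≤ Λ * ((R + 1) * ν) := by
              apply mul_le_mul_of_nonneg_left _ hΛ0.le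
              exact mul_le_mul_of_nonneg_right hRlt.le (Nat.cast_nonneg _)
      have h4 : 0 ≤ ∑ k ∈ S,
          (if (bd 2520 N (Fr N D ∩ Wn ℓ k) η (fra x)).card ≤ R then (1 : ℝ) else 0) :=
        Finset.sum_nonneg fun b _ => by positivity
      linarith
  refine (Finset.sum_le_sum hpt).trans ?_
  rw [Finset.sum_add_distrib, Finset.sum_const, nsmul_eq_mul, Finset.sum_comm]
  have hexc : ∀ k ∈ S, ∑ x ∈ PQ Q,
      (if (bd 2520 N (Fr N D ∩ Wn ℓ k) η (fra x)).card ≤ R then (1 : ℝ) else 0) ≤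
      6 * C1 * Real.exp 3 * (Q : ℝ) ^ (161 / 1000 : ℝ) := by
    intro k hk
    have hkd := hSd hk
    unfold dense at hkd
    rw [mem_filter, mem_range] at hkd
    have hend := Wn_end hN1 hkd.1
    rw [← Finset.sum_filter, Finset.sum_const, nsmul_eq_mul, mul_one]
    have h1 := exc (P := PQ Q) (th := fra) (s := 20) (u := 1 + ℓ * k) (ℓ := ℓ) (N := N) (K := 2520) (R := R)
      (m := (42 * (120 * LL 20) + 1) * (4 * Q ^ 2 / 10 ^ ℓ + 2)) (A := Fr N D ∩ Wn ℓ k) (η := η)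
      (by
        intro a ha
        rw [mem_inter, mem_Wn] at ha
        omega) hηs (fun k' => pos_PQ hQ k') hy0 hy1
    refine h1.trans ?_
    have hA : (Fr N D ∩ Wn ℓ k).card ≤ ℓ := by
      refine (card_le_card inter_subset_right).trans ?_
      unfold Wn
      rw [Nat.card_Ico]
      omega
    have h2 : (1 + y) ^ (Fr N D ∩ Wn ℓ k).card / y ^ R ≤ Real.exp (1 / 400 * ℓ) := by
      have h3 := hfew ℓ R (hRle.trans (mul_le_mul_of_nonneg_right hεε1 hℓ0.le))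
      rw [Nat.cast_one, one_mul] at h3
      refine le_trans ?_ h3
      apply div_le_div_of_nonneg_right _ (by positivity)
      exact pow_le_pow_right₀ (by linarith) hA
    have h3 : 4 * Q ^ 2 / 10 ^ ℓ ≤ 1 := by
      apply Nat.div_le_of_le_mul
      rw [mul_one]
      exact hspec
    have hunc := unc_full (N := N) (D := D) (u := 1 + ℓ * k) (ℓ := ℓ) (s := 20) (by omega) hend
    have h4 : ((unc 20 (Fr N D ∩ Wn ℓ k) (Ico (1 + ℓ * k) (1 + ℓ * k + ℓ)) + 2 * 20 * R : ℕ) : ℝ) ≤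
        3 / 40 * ℓ + 1 + ℓ / 960 := by
      have h5 := hkd.2
      have h6 : 280 * unc 20 (Fr N D ∩ Wn ℓ k) (Ico (1 + ℓ * k) (1 + ℓ * k + ℓ)) ≤ 21 * ℓ + 280 := by
        unfold Wn at h5 ⊢
        omega
      have h7 : 280 * ((unc 20 (Fr N D ∩ Wn ℓ k) (Ico (1 + ℓ * k) (1 + ℓ * k + ℓ)) : ℕ) : ℝ) ≤ 21 * ℓ + 280 := by
        exact_mod_cast h6
      have h8 : (R : ℝ) ≤ 1 / 38400 * ℓ := hRle.trans (mul_le_mul_of_nonneg_right hε2 hℓ0.le)
      push_cast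
      linarith
    have h5 := eleven_pow_le h4
    have h6 : ((2 * 11 ^ (unc 20 (Fr N D ∩ Wn ℓ k) (Ico (1 + ℓ * k) (1 + ℓ * k + ℓ)) + 2 * 20 * R) *
        ((42 * (120 * LL 20) + 1) * (4 * Q ^ 2 / 10 ^ ℓ + 2)) : ℕ) : ℝ) ≤
        6 * C1 * Real.exp (12 / 5 * (3 / 40 * ℓ + 1 + ℓ / 960)) := by
      have h7 : ((4 * Q ^ 2 / 10 ^ ℓ : ℕ) : ℝ) ≤ 1 := by exact_mod_cast h3
      rw [Nat.cast_mul, Nat.cast_mul, Nat.cast_mul ((42 * (120 * LL 20) + 1)), ← hC1, Nat.cast_pow, Nat.cast_add (4 * Q ^ 2 / 10 ^ ℓ) 2]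
      have h8 : (0 : ℝ) ≤ ((4 * Q ^ 2 / 10 ^ ℓ : ℕ) : ℝ) := Nat.cast_nonneg _
      set X : ℝ := ((11 : ℕ) : ℝ) ^ (unc 20 (Fr N D ∩ Wn ℓ k) (Ico (1 + ℓ * k) (1 + ℓ * k + ℓ)) + 2 * 20 * R) with hX
      have hX0 : 0 ≤ X := by positivity
      have h9 : X ≤ Real.exp (12 / 5 * (3 / 40 * ℓ + 1 + ℓ / 960)) := by
        rw [hX]
        push_cast
        push_cast at h5
        exact h5
      calc ((2 : ℕ) : ℝ) * X * (C1 * (((4 * Q ^ 2 / 10 ^ ℓ : ℕ) : ℝ) + ((2 : ℕ) : ℝ)))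
          ≤ 2 * X * (C1 * (1 + 2)) := by
            push_cast
            gcongr
        _ = 6 * C1 * X := by ring
        _ ≤ _ := by gcongr
    have h7 : Real.exp (1 / 400 * ℓ) * (6 * C1 * Real.exp (12 / 5 * (3 / 40 * ℓ + 1 + ℓ / 960))) ≤
        6 * C1 * Real.exp 3 * (Q : ℝ) ^ (161 / 1000 : ℝ) := by
      have h8 : Real.exp (1 / 400 * ℓ) * Real.exp (12 / 5 * (3 / 40 * ℓ + 1 + ℓ / 960)) ≤
          Real.exp 3 * (Q : ℝ) ^ (161 / 1000 : ℝ) := by
        rw [Real.rpow_def_of_pos hQ0, ← Real.exp_add, ← Real.exp_add]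
        apply Real.exp_le_exp.2
        have h9 := len_le' hQ
        rw [← hℓ] at h9
        linarith
      calc Real.exp (1 / 400 * ℓ) * (6 * C1 * Real.exp (12 / 5 * (3 / 40 * ℓ + 1 + ℓ / 960)))
          = 6 * C1 * (Real.exp (1 / 400 * ℓ) * Real.exp (12 / 5 * (3 / 40 * ℓ + 1 + ℓ / 960))) := by ring
        _ ≤ 6 * C1 * (Real.exp 3 * (Q : ℝ) ^ (161 / 1000 : ℝ)) :=
            mul_le_mul_of_nonneg_left h8 (by positivity)
        _ = _ := by ring
    exact (mul_le_mul h2 h6 (Nat.cast_nonneg _) (Real.exp_pos _).le).trans h7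
  have h1 := Finset.sum_le_sum hexc
  rw [Finset.sum_const, hSν, nsmul_eq_mul] at h1
  have h2 : ((PQ Q).card : ℝ) * (1 / (Q : ℝ) ^ 2) ≤ 42 := by
    rw [mul_one_div, div_le_iff₀ (by positivity)]
    exact_mod_cast card_PQ Q
  have h3 : (1 : ℝ) ≤ (Q : ℝ) ^ (161 / 1000 : ℝ) := Real.one_le_rpow hQ1 (by norm_num)
  calc _ ≤ (ν : ℝ) * (6 * C1 * Real.exp 3 * (Q : ℝ) ^ (161 / 1000 : ℝ)) + 42 := add_le_add h1 h2
    _ ≤ (ν : ℝ) * (6 * C1 * Real.exp 3 * (Q : ℝ) ^ (161 / 1000 : ℝ)) + 42 * (Q : ℝ) ^ (161 / 1000 : ℝ) := by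
        linarith
    _ = _ := by ring

end Pool.Agent.L5helper11.PE
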