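import Pool.Agent.L5helper11.PE.Chain
import Pool.Agent.L5helper11.PD.Cnt

/-!
# Fractions with a given position
-/

set_option autoImplicit false

namespace Pool.Agent.L5helper11.PE

open Finset Pool.Agent.Helper112
open Pool.Agent.L5helper11.PD (dn dn_nonneg dn_le_half dn_le dn_add_int dn_sub_le dn_mul_le dn_mul_eq
  dvd_of_dn_lt le_dn_of_not_dvd wt PQ fra mem_PQ frac_inj coprime_ten)

/-- counting by cells -/
lemma keys {ι : Type*} (S : Finset ι) (y : ι → ℝ) (W ℓ : ℕ) (k : ℤ)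
    (h : ∀ x ∈ S, |(10 : ℝ) ^ ℓ * y x - k| ≤ 1 / 2) (m : ℕ)
    (hcell : ∀ c : ℤ, (S.filter fun x => ⌊(W : ℝ) * y x⌋ = c).card ≤ m) :
    S.card ≤ m * (W / 10 ^ ℓ + 2) := by
  classical
  set α : ℝ := W * (((k : ℝ) - 1 / 2) / 10 ^ ℓ) with hα
  set n0 : ℕ := W / 10 ^ ℓ with hn0
  have h10 : (0 : ℝ) < (10 : ℝ) ^ ℓ := by positivity
  have hW : (W : ℝ) / 10 ^ ℓ < n0 + 1 := by
    rw [div_lt_iff₀ h10]
    have h1 : W < (n0 + 1) * 10 ^ ℓ := by
      rw [hn0, mul_comm]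
      exact Nat.lt_mul_div_succ W (by positivity)
    exact_mod_cast h1
  have h1 : S.card ≤ m * (S.image fun x => ⌊(W : ℝ) * y x⌋).card :=
    Finset.card_le_mul_card_image S m fun c _ => hcell c
  refine h1.trans (Nat.mul_le_mul_left _ ?_)
  have h2 : (S.image fun x => ⌊(W : ℝ) * y x⌋) ⊆ Icc ⌊α⌋ (⌊α⌋ + n0 + 1) := by
    intro c hc
    rw [mem_image] at hc
    obtain ⟨x, hx, rfl⟩ := hc
    have h3 := h x hx
    rw [abs_le] at h3
    have h4 : ((k : ℝ) - 1 / 2) / 10 ^ ℓ ≤ y x := by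
      rw [div_le_iff₀ h10]
      linarith [h3.1]
    have h5 : y x ≤ ((k : ℝ) - 1 / 2) / 10 ^ ℓ + 1 / 10 ^ ℓ := by
      rw [← add_div, le_div_iff₀ h10]
      linarith [h3.2]
    have hW0 : (0 : ℝ) ≤ W := Nat.cast_nonneg _
    rw [mem_Icc]
    constructor
    · exact Int.floor_le_floor (mul_le_mul_of_nonneg_left h4 hW0)
    · have h6 : (W : ℝ) * y x < ((⌊α⌋ + n0 + 1 + 1 : ℤ) : ℝ) := by
        have h7 := mul_le_mul_of_nonneg_left h5 hW0
        have h8 : (W : ℝ) * (((k : ℝ) - 1 / 2) / 10 ^ ℓ + 1 / 10 ^ ℓ) = α + W / 10 ^ ℓ := by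
          rw [hα]; ring
        have h9 := Int.lt_floor_add_one α
        push_cast
        linarith
      have h7 := Int.floor_lt.2 h6
      omega
  refine (card_le_card h2).trans (le_of_eq ?_)
  rw [Int.card_Icc]
  have e : (⌊α⌋ + (n0 : ℤ) + 1 + 1 - ⌊α⌋) = ((n0 + 2 : ℕ) : ℤ) := by push_cast; ring
  rw [e, Int.toNat_natCast]

/-- fractions in one cell -/
lemma cell_card {Q G : ℕ} (hG : 0 < G) (i : ℕ) (S : Finset (ℕ × ℕ)) (hS : S ⊆ PQ Q)
    (h : ∀ x ∈ S, ∀ x' ∈ S, dn ((10 : ℝ) ^ i * ((G : ℝ) * ((x.2 : ℝ) / x.1 - (x'.2 : ℝ) / x'.1))) <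
      1 / (4 * (Q : ℝ) ^ 2)) : S.card ≤ 42 * G + 1 := by
  classical
  rcases Finset.eq_empty_or_nonempty S with h0 | h0
  · rw [h0]; simp
  obtain ⟨x0, hx0S⟩ := h0
  have hx0 := hS hx0S
  rw [mem_PQ] at hx0
  obtain ⟨⟨ha1, ha2⟩, ha3, ha4, ha5⟩ := hx0
  have hx0pos : 0 < x0.1 := by omega
  have hQ0 : 0 < Q := by omega
  have hQR : (0 : ℝ) < Q := by exact_mod_cast hQ0
  have key : ∀ x ∈ S, 0 < x.1 ∧ x.2.Coprime x.1 ∧ x.2 < 21 * x.1 ∧
      ((x.1 * x0.1 : ℕ) : ℤ) ∣ (G : ℤ) * ((x.2 : ℤ) * x0.1 - x0.2 * x.1) := by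
    intro x hxS
    have hx := hS hxS
    rw [mem_PQ] at hx
    obtain ⟨⟨hb1, hb2⟩, hb3, hb4, hb5⟩ := hx
    have hxpos : 0 < x.1 := by omega
    refine ⟨hxpos, hb5, hb4, ?_⟩
    have h1 := h x hxS x0 hx0S
    have hp0 : 0 < x.1 * x0.1 := by positivity
    have hp0R : (0 : ℝ) < ((x.1 * x0.1 : ℕ) : ℝ) := by exact_mod_cast hp0
    have hprod : ((x.1 * x0.1 : ℕ) : ℝ) ≤ 4 * (Q : ℝ) ^ 2 := by
      have h2 : x.1 * x0.1 ≤ 4 * Q ^ 2 := by
        calc x.1 * x0.1 ≤ (2 * Q) * (2 * Q) := Nat.mul_le_mul hb2.le ha2.le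
          _ = 4 * Q ^ 2 := by ring
      exact_mod_cast h2
    have e1 : (10 : ℝ) ^ i * ((G : ℝ) * ((x.2 : ℝ) / x.1 - (x0.2 : ℝ) / x0.1)) =
        (((10 ^ i : ℕ) : ℤ) * ((G : ℤ) * ((x.2 : ℤ) * x0.1 - x0.2 * x.1)) : ℤ) / ((x.1 * x0.1 : ℕ) : ℝ) := by
      have hx1 : (x.1 : ℝ) ≠ 0 := by exact_mod_cast hxpos.ne'
      have hx2 : (x0.1 : ℝ) ≠ 0 := by exact_mod_cast hx0pos.ne'
      push_cast
      field_simp
    rw [e1] at h1
    have h2 := dvd_of_dn_lt hp0 (c := ((10 ^ i : ℕ) : ℤ) * ((G : ℤ) * ((x.2 : ℤ) * x0.1 - x0.2 * x.1)))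
      (lt_of_lt_of_le h1 (one_div_le_one_div_of_le hp0R hprod))
    have h3 : (x.1 * x0.1).Coprime (10 ^ i) := by
      apply Nat.Coprime.pow_right
      exact Nat.Coprime.mul_left (coprime_ten hb3) (coprime_ten ha3)
    have h4 : IsCoprime (((x.1 * x0.1 : ℕ) : ℤ)) (((10 ^ i : ℕ) : ℤ)) := Nat.isCoprime_iff_coprime.2 h3
    exact h4.dvd_of_dvd_mul_left h2
  -- the injection
  have hcard := Finset.card_le_card_of_injOn
    (s := S) (t := Icc (-(21 * (G : ℤ))) (21 * (G : ℤ)))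
    (fun x => (G : ℤ) * ((x.2 : ℤ) * x0.1 - x0.2 * x.1) / ((x.1 * x0.1 : ℕ) : ℤ)) ?_ ?_
  · refine hcard.trans (le_of_eq ?_)
    rw [Int.card_Icc]
    have : (21 * (G : ℤ) + 1 - -(21 * (G : ℤ))) = ((42 * G + 1 : ℕ) : ℤ) := by push_cast; ring
    rw [this, Int.toNat_natCast]
  · intro x hx
    obtain ⟨k1, k2, k3, k, hk⟩ := key x hx
    have hp0 : (0 : ℤ) < ((x.1 * x0.1 : ℕ) : ℤ) := by
      have : 0 < x.1 * x0.1 := by positivity
      exact_mod_cast this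
    simp only [coe_Icc, Set.mem_Icc]
    rw [hk, Int.mul_ediv_cancel_left _ hp0.ne']
    have hG0 : (0 : ℤ) ≤ G := Int.natCast_nonneg _
    have e1 : (x.2 : ℤ) * x0.1 ≤ 21 * ((x.1 * x0.1 : ℕ) : ℤ) := by
      push_cast
      have : (x.2 : ℤ) ≤ 21 * x.1 := by exact_mod_cast k3.le
      nlinarith
    have e2 : (x0.2 : ℤ) * x.1 ≤ 21 * ((x.1 * x0.1 : ℕ) : ℤ) := by
      push_cast
      have : (x0.2 : ℤ) ≤ 21 * x0.1 := by exact_mod_cast ha4.le
      nlinarith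
    have e3 : (0 : ℤ) ≤ (x.2 : ℤ) * x0.1 := by positivity
    have e4 : (0 : ℤ) ≤ (x0.2 : ℤ) * x.1 := by positivity
    constructor
    · have : -(21 * (G : ℤ)) * ((x.1 * x0.1 : ℕ) : ℤ) ≤ k * ((x.1 * x0.1 : ℕ) : ℤ) := by
        rw [mul_comm k, ← hk]
        nlinarith
      exact le_of_mul_le_mul_right this hp0
    · have : k * ((x.1 * x0.1 : ℕ) : ℤ) ≤ 21 * (G : ℤ) * ((x.1 * x0.1 : ℕ) : ℤ) := by
        rw [mul_comm k, ← hk]
        nlinarith
      exact le_of_mul_le_mul_right this hp0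
  · intro x hx y hy hxy
    obtain ⟨k1, k2, k3, k, hk⟩ := key x hx
    obtain ⟨l1, l2, l3, l, hl⟩ := key y hy
    have hp0 : (0 : ℤ) < ((x.1 * x0.1 : ℕ) : ℤ) := by
      have : 0 < x.1 * x0.1 := by positivity
      exact_mod_cast this
    have hp1 : (0 : ℤ) < ((y.1 * x0.1 : ℕ) : ℤ) := by
      have : 0 < y.1 * x0.1 := by positivity
      exact_mod_cast this
    simp only at hxy
    rw [hk, hl, Int.mul_ediv_cancel_left _ hp0.ne', Int.mul_ediv_cancel_left _ hp1.ne'] at hxy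
    subst hxy
    have hGpos : (0 : ℤ) < G := by exact_mod_cast hG
    have hx0Z : (0 : ℤ) < (x0.1 : ℤ) := by exact_mod_cast hx0pos
    have hcross : (x.2 : ℤ) * y.1 = y.2 * x.1 := by
      have e1 : (G : ℤ) * ((x.2 : ℤ) * x0.1 - x0.2 * x.1) * (y.1 * x0.1) =
          (G : ℤ) * ((y.2 : ℤ) * x0.1 - x0.2 * y.1) * (x.1 * x0.1) := by
        rw [hk, hl]
        push_cast
        ring
      have e2 : ((G : ℤ) * x0.1 * x0.1) * ((x.2 : ℤ) * y.1) = ((G : ℤ) * x0.1 * x0.1) * (y.2 * x.1) := by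
        linear_combination e1
      exact mul_left_cancel₀ (by positivity) e2
    have hcross' : x.2 * y.1 = y.2 * x.1 := by exact_mod_cast hcross
    obtain ⟨h1, h2⟩ := frac_inj k1 l1 k2 l2 hcross'
    exact Prod.ext h1 h2

/-- fractions with a fixed denominator in one cell -/
lemma cell_card_den {M G : ℕ} (hG : 0 < G) (hM0 : 0 < M) (hc : M.Coprime 10) (i : ℕ) (S : Finset ℕ)
    (hS : S ⊆ range M)
    (h : ∀ a ∈ S, ∀ a' ∈ S, dn ((10 : ℝ) ^ i * ((G : ℝ) * ((a : ℝ) / M - (a' : ℝ) / M))) < 1 / (M : ℝ)) :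
    S.card ≤ 2 * G + 1 := by
  classical
  have hGpos : (0 : ℤ) < G := by exact_mod_cast hG
  have hMZ : (0 : ℤ) < (M : ℤ) := by exact_mod_cast hM0
  rcases Finset.eq_empty_or_nonempty S with h0 | h0
  · rw [h0]; simp
  obtain ⟨a0, ha0S⟩ := h0
  have ha0 := mem_range.1 (hS ha0S)
  have key : ∀ a ∈ S, a < M ∧ (M : ℤ) ∣ (G : ℤ) * ((a : ℤ) - a0) := by
    intro a ha
    refine ⟨mem_range.1 (hS ha), ?_⟩
    have h1 := h a ha a0 ha0S
    have hMR : (0 : ℝ) < M := by exact_mod_cast hM0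
    have e1 : (10 : ℝ) ^ i * ((G : ℝ) * ((a : ℝ) / M - (a0 : ℝ) / M)) =
        (((10 ^ i : ℕ) : ℤ) * ((G : ℤ) * ((a : ℤ) - a0)) : ℤ) / (M : ℝ) := by
      push_cast
      field_simp
    rw [e1] at h1
    have h2 := dvd_of_dn_lt hM0 (c := ((10 ^ i : ℕ) : ℤ) * ((G : ℤ) * ((a : ℤ) - a0))) h1
    have h3 : M.Coprime (10 ^ i) := Nat.Coprime.pow_right _ hc
    have h4 : IsCoprime (((M : ℕ) : ℤ)) (((10 ^ i : ℕ) : ℤ)) := Nat.isCoprime_iff_coprime.2 h3
    exact h4.dvd_of_dvd_mul_left h2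
  have hcard := Finset.card_le_card_of_injOn
    (s := S) (t := Icc (-(G : ℤ)) (G : ℤ)) (fun a => (G : ℤ) * ((a : ℤ) - a0) / (M : ℤ)) ?_ ?_
  · refine hcard.trans (le_of_eq ?_)
    rw [Int.card_Icc]
    have : ((G : ℤ) + 1 - -(G : ℤ)) = ((2 * G + 1 : ℕ) : ℤ) := by push_cast; ring
    rw [this, Int.toNat_natCast]
  · intro a ha
    obtain ⟨k1, k, hk⟩ := key a ha
    simp only [coe_Icc, Set.mem_Icc]
    rw [hk, Int.mul_ediv_cancel_left _ hMZ.ne']
    have e1 : (a : ℤ) < M := by exact_mod_cast k1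
    have e2 : (a0 : ℤ) < M := by exact_mod_cast ha0
    have e3 : (0 : ℤ) ≤ a := by positivity
    have e4 : (0 : ℤ) ≤ a0 := by positivity
    constructor
    · have : -(G : ℤ) * (M : ℤ) ≤ k * (M : ℤ) := by
        rw [mul_comm k, ← hk]
        nlinarith
      exact le_of_mul_le_mul_right this hMZ
    · have : k * (M : ℤ) ≤ (G : ℤ) * (M : ℤ) := by
        rw [mul_comm k, ← hk]
        nlinarith
      exact le_of_mul_le_mul_right this hMZ
  · intro a ha b hb hab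
    obtain ⟨k1, k, hk⟩ := key a ha
    obtain ⟨l1, l, hl⟩ := key b hb
    simp only at hab
    rw [hk, hl, Int.mul_ediv_cancel_left _ hMZ.ne', Int.mul_ediv_cancel_left _ hMZ.ne'] at hab
    subst hab
    have e1 : (G : ℤ) * ((a : ℤ) - a0) = (G : ℤ) * ((b : ℤ) - a0) := by rw [hk, hl]
    have e2 := mul_left_cancel₀ hGpos.ne' e1
    omega

/-- two numbers in the same cell -/
lemma same_cell {W : ℕ} (hW : 0 < W) {a b : ℝ} {c : ℤ} (ha : ⌊(W : ℝ) * Int.fract a⌋ = c)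
    (hb : ⌊(W : ℝ) * Int.fract b⌋ = c) : dn (a - b) < 1 / W := by
  have hW0 : (0 : ℝ) < W := by exact_mod_cast hW
  have h1 := Int.abs_sub_lt_one_of_floor_eq_floor (ha.trans hb.symm)
  have h2 : dn (a - b) ≤ |Int.fract a - Int.fract b| := by
    refine (dn_le (a - b) (⌊a⌋ - ⌊b⌋)).trans (le_of_eq ?_)
    unfold Int.fract
    congr 1
    push_cast
    ring
  refine lt_of_le_of_lt h2 ?_
  rw [lt_div_iff₀ hW0]
  rw [← mul_sub, abs_mul, abs_of_pos hW0] at h1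
  linarith

/-- fractions of `PQ Q` with a given position -/
theorem pos_PQ {Q s u ℓ : ℕ} (hQ : 1 ≤ Q) (k : ℤ) :
    ((PQ Q).filter fun x => pos s u ℓ 2520 (fra x) = k).card ≤
      (42 * (120 * LL s) + 1) * (4 * Q ^ 2 / 10 ^ ℓ + 2) := by
  classical
  have hG : 0 < 120 * LL s := by have := LL_pos s; omega
  refine keys _ (fun x => Int.fract ((10 : ℝ) ^ u * ((LL s : ℝ) * ((2520 : ℕ) * fra x)))) (4 * Q ^ 2) ℓ k ?_ _ ?_
  · intro x hx
    rw [mem_filter] at hx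
    rw [← hx.2]
    unfold pos
    exact abs_sub_round _
  · intro c
    refine cell_card (Q := Q) hG u _ (fun x hx => ?_) ?_
    · rw [mem_filter, mem_filter] at hx
      exact hx.1.1
    · intro x hx x' hx'
      rw [mem_filter, mem_filter] at hx hx'
      have h1 := same_cell (W := 4 * Q ^ 2) (by positivity) hx.2 hx'.2
      have e : (10 : ℝ) ^ u * ((LL s : ℝ) * ((2520 : ℕ) * fra x)) - (10 : ℝ) ^ u * ((LL s : ℝ) * ((2520 : ℕ) * fra x')) =
          (10 : ℝ) ^ u * (((120 * LL s : ℕ) : ℝ) * ((x.2 : ℝ) / x.1 - (x'.2 : ℝ) / x'.1)) := by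
        have hx1 : (x.1 : ℝ) ≠ 0 := by
          have h2 := (mem_PQ.1 hx.1.1).1.1
          have : x.1 ≠ 0 := by omega
          exact_mod_cast this
        have hx2 : (x'.1 : ℝ) ≠ 0 := by
          have h2 := (mem_PQ.1 hx'.1.1).1.1
          have : x'.1 ≠ 0 := by omega
          exact_mod_cast this
        unfold fra
        push_cast
        field_simp
        ring
      rw [e] at h1
      push_cast at h1 ⊢
      exact h1

/-- fractions with a given denominator and a given position -/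
theorem pos_den {M s u ℓ K : ℕ} (hM0 : 0 < M) (hc : M.Coprime 10) (hK : 0 < K) (k : ℤ) :
    ((range M).filter fun a : ℕ => pos s u ℓ K ((a : ℝ) / M) = k).card ≤
      (2 * (K * LL s) + 1) * (M / 10 ^ ℓ + 2) := by
  classical
  have hG : 0 < K * LL s := Nat.mul_pos hK (LL_pos s)
  refine keys _ (fun a : ℕ => Int.fract ((10 : ℝ) ^ u * ((LL s : ℝ) * ((K : ℝ) * ((a : ℝ) / M))))) M ℓ k ?_ _ ?_
  · intro x hx
    rw [mem_filter] at hx
    rw [← hx.2]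
    unfold pos
    exact abs_sub_round _
  · intro c
    refine cell_card_den hG hM0 hc u _ (fun x hx => ?_) ?_
    · rw [mem_filter, mem_filter] at hx
      exact hx.1.1
    · intro x hx x' hx'
      rw [mem_filter, mem_filter] at hx hx'
      have h1 := same_cell (W := M) hM0 hx.2 hx'.2
      have e : (10 : ℝ) ^ u * ((LL s : ℝ) * ((K : ℝ) * ((x : ℝ) / M))) -
          (10 : ℝ) ^ u * ((LL s : ℝ) * ((K : ℝ) * ((x' : ℝ) / M))) =
          (10 : ℝ) ^ u * (((K * LL s : ℕ) : ℝ) * ((x : ℝ) / M - (x' : ℝ) / M)) := by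
        push_cast
        ring
      rw [e] at h1
      exact h1

end Pool.Agent.L5helper11.PE
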