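import Pool.Agent.L5helper11.PD.Rig

/-!
# Palindromes with free digits in a set of places with bounded gaps: rigidity and patterns
-/

set_option autoImplicit false

namespace Pool.Agent.L5helper11.PE

open Finset Pool.Agent.Helper112
open Pool.Agent.L5helper11.PD (dn dn_nonneg dn_le_half dn_le dn_add_int dn_sub_le dn_mul_le dn_mul_eq
  dvd_of_dn_lt le_dn_of_not_dvd sd sd_nonneg sd_le_one norm_one_add_ee wt wt_step pat_cell)

/-! ### one digit -/

/-- the saving at a bad index -/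
noncomputable def rho (K : ℕ) (η : ℝ) : ℝ := 1 - 2 / 5 * (η / K) ^ 2

lemma rho_lt_one {K : ℕ} (hK : 0 < K) {η : ℝ} (h : 0 < η) : rho K η < 1 := by
  unfold rho
  have hK0 : (0 : ℝ) < K := by exact_mod_cast hK
  have : 0 < 2 / 5 * (η / K) ^ 2 := by positivity
  linarith

lemma rho_pos {K : ℕ} (hK : 0 < K) {η : ℝ} (h0 : 0 < η) (h : η ≤ 1) : 0 < rho K η := by
  unfold rho
  have hK1 : (1 : ℝ) ≤ K := by exact_mod_cast hK
  have h1 : η / K ≤ 1 := by rw [div_le_one (by linarith)]; linarith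
  have h2 : 0 ≤ η / K := by positivity
  have : 2 / 5 * (η / K) ^ 2 < 1 := by nlinarith
  linarith

lemma sd_bad {D : Finset ℕ} (hD : D ⊆ range 10) (h2 : 2 ≤ D.card) {K : ℕ} (hK0 : 0 < K) (hK : 2520 ∣ K)
    {η x : ℝ} (hη : 0 < η) (hx : η ≤ dn (K * x)) : sd D x ≤ rho K η := by
  obtain ⟨a, ha, b, hb, hab⟩ : ∃ a ∈ D, ∃ b ∈ D, a < b := by
    obtain ⟨a, ha, b, hb, hne⟩ := Finset.one_lt_card.1 (by omega : 1 < D.card)
    rcases lt_or_gt_of_ne hne with h | h
    · exact ⟨a, ha, b, hb, h⟩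
    · exact ⟨b, hb, a, ha, h⟩
  have hb10 := mem_range.1 (hD hb)
  have hKR : (0 : ℝ) < K := by exact_mod_cast hK0
  obtain ⟨e, he⟩ := (Pool.Agent.L5helper11.PD.dvd_2520 (d := b - a) (by omega) (by omega)).trans hK
  have he0 : e ≤ K := by
    have : 1 ≤ b - a := by omega
    calc e = 1 * e := by ring
      _ ≤ (b - a) * e := Nat.mul_le_mul_right _ this
      _ = K := he.symm
  have h3 : η / K ≤ dn ((b - a : ℕ) * x) := by
    have h4 : (K : ℝ) * x = e * ((b - a : ℕ) * x) := by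
      have : ((K : ℕ) : ℝ) = ((b - a : ℕ) : ℝ) * e := by exact_mod_cast he
      rw [this]; ring
    rw [h4] at hx
    have h5 := hx.trans (dn_mul_le e _)
    have h6 : (e : ℝ) * dn (((b - a : ℕ) : ℝ) * x) ≤ K * dn (((b - a : ℕ) : ℝ) * x) :=
      mul_le_mul_of_nonneg_right (by exact_mod_cast he0) (dn_nonneg _)
    rw [div_le_iff₀ hKR]
    linarith
  have hcard : D.card ≤ 10 := by
    have := card_le_card hD
    rwa [card_range] at this
  have hc0 : (0 : ℝ) < D.card := by exact_mod_cast (by omega : 0 < D.card)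
  have hc10 : (D.card : ℝ) ≤ 10 := by exact_mod_cast hcard
  have h7 : ‖ee (a * x) + ee (b * x)‖ ≤ 2 - 4 * (η / K) ^ 2 := by
    have e1 : ee (a * x) + ee (b * x) = ee (a * x) * (1 + ee ((b - a : ℕ) * x)) := by
      rw [mul_add, mul_one, ← ls_ee_add]
      congr 2
      rw [Nat.cast_sub hab.le]
      ring
    rw [e1, norm_mul, ls_norm_ee, one_mul]
    refine (norm_one_add_ee _).trans ?_
    have := pow_le_pow_left₀ (by positivity) h3 2
    linarith
  have h8 : ‖∑ m ∈ D, ee (m * x)‖ ≤ D.card - 4 * (η / K) ^ 2 := by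
    have hb' : b ∈ D.erase a := mem_erase.2 ⟨by omega, hb⟩
    rw [← Finset.add_sum_erase D _ ha, ← Finset.add_sum_erase (D.erase a) _ hb', ← add_assoc]
    refine (norm_add_le _ _).trans ?_
    have h9 : ‖∑ m ∈ (D.erase a).erase b, ee (m * x)‖ ≤ (D.card : ℝ) - 2 := by
      refine (norm_sum_le _ _).trans ?_
      simp only [ls_norm_ee, sum_const, nsmul_eq_mul, mul_one]
      rw [card_erase_of_mem hb', card_erase_of_mem ha]
      have : D.card - 1 - 1 = D.card - 2 := by omega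
      rw [this, Nat.cast_sub h2]
      norm_num
    linarith
  unfold sd rho
  rw [div_le_iff₀ hc0]
  have h9 : 0 ≤ (η / K) ^ 2 := by positivity
  nlinarith

/-! ### rigidity -/

/-- the product of the `10 ^ (2 g) - 1`, `g ≤ G` -/
def LL (G : ℕ) : ℕ := ∏ g ∈ Icc 1 G, (10 ^ (2 * g) - 1)

lemma LL_pos (G : ℕ) : 0 < LL G := by
  unfold LL
  apply Finset.prod_pos
  intro g hg
  have h1 := (mem_Icc.1 hg).1
  have : 10 ^ 1 ≤ 10 ^ (2 * g) := Nat.pow_le_pow_right (by norm_num) (by omega)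
  omega

/-- iterated multiplication -/
lemma run {G : ℕ} {c : ℝ} (hc : (10 : ℝ) ^ G * c < 1 / 2) (u : ℝ) (a : ℕ → ℕ) (n : ℕ)
    (ha : ∀ j < n, a j ≤ a (j + 1) ∧ a (j + 1) ≤ a j + G)
    (h : ∀ j ≤ n, dn ((10 : ℝ) ^ (a j) * u) ≤ c) :
    a 0 ≤ a n ∧ (10 : ℝ) ^ (a n - a 0) * dn ((10 : ℝ) ^ (a 0) * u) ≤ c := by
  have key : ∀ j ≤ n, a 0 ≤ a j ∧
      dn ((10 : ℝ) ^ (a j) * u) = (10 : ℝ) ^ (a j - a 0) * dn ((10 : ℝ) ^ (a 0) * u) := by
    intro j
    induction j with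
    | zero => intro _; simp
    | succ j ih =>
      intro hj
      obtain ⟨h0, h1⟩ := ih (by omega)
      obtain ⟨g1, g2⟩ := ha j (by omega)
      obtain ⟨g, hg⟩ : ∃ g, a (j + 1) = a j + g := ⟨a (j + 1) - a j, by omega⟩
      have hgG : g ≤ G := by omega
      have hc0 : 0 ≤ c := (dn_nonneg _).trans (h 0 (by omega))
      have h2 : ((10 ^ g : ℕ) : ℝ) * dn ((10 : ℝ) ^ (a j) * u) < 1 / 2 := by
        refine lt_of_le_of_lt ?_ hc
        push_cast
        apply mul_le_mul (pow_le_pow_right₀ (by norm_num) hgG) (h j (by omega)) (dn_nonneg _) (by positivity)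
      have h3 := dn_mul_eq (10 ^ g) ((10 : ℝ) ^ (a j) * u) h2
      refine ⟨by omega, ?_⟩
      have e : (10 : ℝ) ^ (a (j + 1)) * u = ((10 ^ g : ℕ) : ℝ) * ((10 : ℝ) ^ (a j) * u) := by
        rw [hg, pow_add]; push_cast; ring
      rw [e, h3, h1]
      have e2 : a (j + 1) - a 0 = g + (a j - a 0) := by omega
      rw [e2, pow_add]
      push_cast
      ring
  obtain ⟨h0, h1⟩ := key n le_rfl
  refine ⟨h0, ?_⟩
  rw [← h1]
  exact h n le_rfl

/-- one step: two neighbouring free places -/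
lemma step {N i g G : ℕ} (hg1 : 1 ≤ g) (hgG : g ≤ G) (hN : i + g < N) {ε x : ℝ}
    (h1 : dn (wt N i * x) ≤ ε) (h2 : dn (wt N (i + g) * x) ≤ ε) :
    dn ((10 : ℝ) ^ i * ((LL G : ℝ) * x)) ≤ (LL G : ℝ) * ε := by
  have hε : 0 ≤ ε := (dn_nonneg _).trans h1
  obtain ⟨L', hL'⟩ : (10 ^ (2 * g) - 1) ∣ LL G := by
    unfold LL
    exact Finset.dvd_prod_of_mem _ (mem_Icc.2 ⟨hg1, hgG⟩)
  have hge : 1 ≤ 10 ^ (2 * g) := Nat.one_le_pow _ _ (by norm_num)
  have hst := wt_step (N := N) (i := i) (s := g) hN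
  have hst' : ((10 ^ g : ℕ) : ℝ) * (wt N (i + g) : ℝ) + 10 ^ i = wt N i + 10 ^ (2 * g) * 10 ^ i := by
    exact_mod_cast hst
  have e2 : ((10 ^ (2 * g) - 1 : ℕ) : ℝ) = 10 ^ (2 * g) - 1 := by
    rw [Nat.cast_sub hge]; push_cast; ring
  have e : (10 : ℝ) ^ i * ((LL G : ℝ) * x) =
      (L' : ℝ) * (((10 ^ g : ℕ) : ℝ) * (wt N (i + g) * x) - wt N i * x) := by
    rw [hL', Nat.cast_mul, e2]
    linear_combination -(L' : ℝ) * x * hst'
  rw [e]
  refine (dn_mul_le _ _).trans ?_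
  have h3 : dn (((10 ^ g : ℕ) : ℝ) * (wt N (i + g) * x) - wt N i * x) ≤ ((10 ^ g : ℕ) + 1) * ε := by
    refine (dn_sub_le _ _).trans ?_
    have := (dn_mul_le (10 ^ g) (wt N (i + g) * x)).trans (mul_le_mul_of_nonneg_left h2 (Nat.cast_nonneg _))
    linarith
  have h4 : (((10 ^ g : ℕ) : ℝ) + 1) ≤ ((10 ^ (2 * g) - 1 : ℕ) : ℝ) := by
    have h5 : 10 ^ g + 1 ≤ 10 ^ (2 * g) - 1 := by
      have h6 : 10 ^ 1 ≤ 10 ^ g := Nat.pow_le_pow_right (by norm_num) hg1
      have e : 10 ^ (2 * g) = 10 ^ g * 10 ^ g := by rw [← pow_add]; congr 1; ring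
      rw [e]
      have : 10 * 10 ^ g ≤ 10 ^ g * 10 ^ g := Nat.mul_le_mul_right _ (by simpa using h6)
      omega
    exact_mod_cast h5
  calc (L' : ℝ) * dn (((10 ^ g : ℕ) : ℝ) * (wt N (i + g) * x) - wt N i * x)
      ≤ L' * (((10 ^ g : ℕ) + 1) * ε) := mul_le_mul_of_nonneg_left h3 (Nat.cast_nonneg _)
    _ ≤ L' * (((10 ^ (2 * g) - 1 : ℕ) : ℝ) * ε) := by gcongr
    _ = (LL G : ℝ) * ε := by rw [hL']; push_cast; ring

/-- rigidity -/
lemma rigid {N n G : ℕ} {a : ℕ → ℕ} (ha : ∀ j ≤ n, a j < a (j + 1) ∧ a (j + 1) ≤ a j + G)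
    (hN : a (n + 1) < N) {ε : ℝ} (x : ℝ) (hc : (10 : ℝ) ^ G * ((LL G : ℝ) * ε) < 1 / 2)
    (h : ∀ j ≤ n + 1, dn (wt N (a j) * x) ≤ ε) :
    (10 : ℝ) ^ (a n - a 0) * dn ((10 : ℝ) ^ (a 0) * ((LL G : ℝ) * x)) ≤ (LL G : ℝ) * ε := by
  have hmono : ∀ j ≤ n, a (j + 1) ≤ a (n + 1) := by
    intro j hj
    obtain ⟨k, rfl⟩ : ∃ k, n = j + k := ⟨n - j, by omega⟩
    have key : ∀ i ≤ k, a (j + 1) ≤ a (j + i + 1) := by
      intro i
      induction i with
      | zero => intro _; exact le_rfl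
      | succ i ih =>
        intro hi
        have h1 := ih (by omega)
        have h2 := (ha (j + i + 1) (by omega)).1
        exact h1.trans h2.le
    exact key k le_rfl
  refine (run hc ((LL G : ℝ) * x) a n (fun j hj => ⟨(ha j hj.le).1.le, (ha j hj.le).2⟩) fun j hj => ?_).2
  obtain ⟨h1, h2⟩ := ha j hj
  obtain ⟨g, hg⟩ : ∃ g, a (j + 1) = a j + g := ⟨a (j + 1) - a j, by omega⟩
  have h3 := hmono j hj
  have h4 := h (j + 1) (by omega)
  rw [hg] at h4
  exact step (g := g) (by omega) (by omega) (by omega) (h j (by omega)) h4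

/-! ### patterns -/

/-- the phase of the digit number `i` -/
noncomputable def phs (K N i : ℕ) (θ : ℝ) : ℝ := K * (wt N i * θ)

/-- the bad indices among `a 0, …, a (l - 1)` -/
noncomputable def bad (K N : ℕ) (a : ℕ → ℕ) (l : ℕ) (η θ : ℝ) : Finset (Fin l) :=
  univ.filter fun j => η ≤ dn (phs K N (a (j : ℕ)) θ)

/-- the pattern of `θ` -/
noncomputable def pat (K N : ℕ) (a : ℕ → ℕ) (l m : ℕ) (θ : ℝ) (j : Fin l) : Fin (m + 1) :=
  if dn (phs K N (a (j : ℕ)) θ) < 1 / m then 0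
  else Fin.ofNat (m + 1) (⌊m * Int.fract (phs K N (a (j : ℕ)) θ)⌋₊ + 1)

lemma pat_ne_zero {K N l m : ℕ} {a : ℕ → ℕ} (hm : 0 < m) (θ : ℝ) :
    (univ.filter fun j : Fin l => pat K N a l m θ j ≠ 0) = bad K N a l (1 / m) θ := by
  unfold bad
  ext j
  rw [mem_filter, mem_filter]
  simp only [mem_univ, true_and]
  unfold pat
  split_ifs with h
  · simp only [ne_eq, not_true_eq_false, false_iff, not_le]
    exact h
  · simp only [not_lt] at h
    simp only [h, iff_true]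
    intro h0
    have h1 := pat_cell hm (phs K N (a (j : ℕ)) θ)
    rw [h0] at h1
    simp at h1

lemma pat_close {K N l m : ℕ} {a : ℕ → ℕ} (hm : 0 < m) {θ θ' : ℝ} (h : pat K N a l m θ = pat K N a l m θ')
    (j : Fin l) : dn (wt N (a (j : ℕ)) * (K * (θ - θ'))) ≤ 2 / m := by
  have hm0 : (0 : ℝ) < m := by exact_mod_cast hm
  have e : wt N (a (j : ℕ)) * (K * (θ - θ')) =
      phs K N (a (j : ℕ)) θ - phs K N (a (j : ℕ)) θ' := by unfold phs; ring
  rw [e]
  have hj := congrFun h j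
  unfold pat at hj
  generalize phs K N (a (j : ℕ)) θ = a at hj
  generalize phs K N _ θ' = b at hj
  have h2 : (2 : ℝ) / m = 1 / m + 1 / m := by ring
  split_ifs at hj with ha hb hb
  · refine (dn_sub_le a b).trans ?_
    linarith
  · exfalso
    have h1 := pat_cell hm b
    rw [← hj] at h1
    simp at h1
  · exfalso
    have h1 := pat_cell hm a
    rw [hj] at h1
    simp at h1
  · have h1 := pat_cell hm a
    rw [hj, pat_cell hm b] at h1
    have h3 : ⌊(m : ℝ) * Int.fract b⌋₊ = ⌊(m : ℝ) * Int.fract a⌋₊ := by omega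
    have ha0 : 0 ≤ (m : ℝ) * Int.fract a := mul_nonneg hm0.le (Int.fract_nonneg _)
    have hb0 : 0 ≤ (m : ℝ) * Int.fract b := mul_nonneg hm0.le (Int.fract_nonneg _)
    have h4 := Nat.floor_le ha0
    have h5 := Nat.lt_floor_add_one ((m : ℝ) * Int.fract a)
    have h6 := Nat.floor_le hb0
    have h7 := Nat.lt_floor_add_one ((m : ℝ) * Int.fract b)
    rw [h3] at h6 h7
    have h8 : |Int.fract a - Int.fract b| ≤ 1 / m := by
      rw [abs_le]
      constructor
      · rw [neg_le_iff_add_nonneg, ← sub_nonneg]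
        have : 0 ≤ ((m : ℝ) * Int.fract a - m * Int.fract b + 1) / m := by
          apply div_nonneg _ hm0.le
          linarith
        have e : ((m : ℝ) * Int.fract a - m * Int.fract b + 1) / m = Int.fract a - Int.fract b + 1 / m := by
          field_simp
        linarith
      · rw [← sub_nonneg]
        have : 0 ≤ (1 - ((m : ℝ) * Int.fract a - m * Int.fract b)) / m := by
          apply div_nonneg _ hm0.le
          linarith
        have e : (1 - ((m : ℝ) * Int.fract a - m * Int.fract b)) / m = 1 / m - (Int.fract a - Int.fract b) := by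
          field_simp
        linarith
    have h9 : dn (a - b) ≤ |Int.fract a - Int.fract b| := by
      refine (dn_le (a - b) (⌊a⌋ - ⌊b⌋)).trans (le_of_eq ?_)
      unfold Int.fract
      congr 1
      push_cast
      ring
    have h10 : 0 ≤ 1 / (m : ℝ) := by positivity
    linarith

end Pool.Agent.L5helper11.PE
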