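import Pool.Agent.L5helper11.PE.Fam

/-!
# Summation over the moduli, three ranges
-/

set_option autoImplicit false

namespace Pool.Agent.L5helper11.PE

open Finset Filter Topology Pool.Agent.Helper112
open Pool.Agent.H885R3.PBT7 (cover)
open Pool.Agent.L5helper11.PD (gblock)

/-- a block of very small moduli -/
lemma block_small {U : ℕ → ℝ} {E : ℝ} (hE : 0 ≤ E) {j M : ℕ} (hM : 2 * 2 ^ j ≤ M)
    (h : ∀ q : ℕ, 2 ^ j ≤ q → q < 2 * 2 ^ j → q.Coprime 210 → U q ≤ 21 * q * E) :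
    ∑ q ∈ (Ico (2 ^ j) (2 * 2 ^ j)).filter (fun q => q.Coprime 210),
      (q.divisors.card : ℝ) ^ 2 * U q / q ≤ 21 * (M : ℝ) ^ 3 * E := by
  have hterm : ∀ q ∈ (Ico (2 ^ j) (2 * 2 ^ j)).filter (fun q => q.Coprime 210),
      (q.divisors.card : ℝ) ^ 2 * U q / q ≤ (M : ℝ) ^ 2 * (21 * E) := by
    intro q hq
    rw [mem_filter, mem_Ico] at hq
    obtain ⟨⟨h2, h3⟩, h4⟩ := hq
    have h2j : 1 ≤ 2 ^ j := Nat.one_le_two_pow
    have hq0 : (0 : ℝ) < q := by exact_mod_cast (show 0 < q by omega)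
    have hU := h q h2 h3 h4
    have hτ : (q.divisors.card : ℝ) ≤ M := by
      have e1 : q.divisors.card ≤ q := Nat.card_divisors_le_self q
      exact_mod_cast (show q.divisors.card ≤ M by omega)
    rw [div_le_iff₀ hq0]
    calc (q.divisors.card : ℝ) ^ 2 * U q ≤ (q.divisors.card : ℝ) ^ 2 * (21 * q * E) :=
          mul_le_mul_of_nonneg_left hU (by positivity)
      _ ≤ (M : ℝ) ^ 2 * (21 * q * E) := by
          apply mul_le_mul_of_nonneg_right _ (by positivity)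
          exact pow_le_pow_left₀ (by positivity) hτ 2
      _ = (M : ℝ) ^ 2 * (21 * E) * q := by ring
  calc _ ≤ ∑ q ∈ (Ico (2 ^ j) (2 * 2 ^ j)).filter (fun q => q.Coprime 210),
        ((M : ℝ) ^ 2 * (21 * E)) := sum_le_sum hterm
    _ = (((Ico (2 ^ j) (2 * 2 ^ j)).filter (fun q => q.Coprime 210)).card : ℝ)
        * ((M : ℝ) ^ 2 * (21 * E)) := by rw [sum_const, nsmul_eq_mul]
    _ ≤ M * ((M : ℝ) ^ 2 * (21 * E)) := by
        apply mul_le_mul_of_nonneg_right _ (by positivity)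
        have := card_filter_le (Ico (2 ^ j) (2 * 2 ^ j)) (fun q => q.Coprime 210)
        rw [Nat.card_Ico] at this
        exact_mod_cast (show ((Ico (2 ^ j) (2 * 2 ^ j)).filter (fun q => q.Coprime 210)).card ≤ M by omega)
    _ = _ := by ring

/-- the sum of the `U` -/
theorem gsum3 {κ C δ ε4 : ℝ} (h1 : κ ≤ 1) (hC : 0 < C) (hδ : 0 < δ) (hε4 : 0 < ε4)
    {c0 : ℝ} (hc0 : 0 < c0) : ∀ᶠ L : ℕ in atTop, ∀ U : ℕ → ℝ, (∀ q, 0 ≤ U q) →
      (∀ q : ℕ, 1 < q → q ≤ L ^ 6 → q.Coprime 210 → U q ≤ 21 * q * (1 / (L : ℝ) ^ 30)) →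
      (∀ Q : ℕ, 1 ≤ Q → (Q : ℝ) ≤ (10 : ℝ) ^ (ε4 * L) →
        ∑ q ∈ (Ico Q (2 * Q)).filter (fun q => q.Coprime 210), U q ≤ C * (Q : ℝ) ^ (161 / 1000 : ℝ)) →
      (∀ Q : ℕ, 1 ≤ Q → (10 : ℝ) ^ (ε4 * L) ≤ Q → (Q : ℝ) ≤ (10 : ℝ) ^ (κ * L) →
        ∑ q ∈ (Ico Q (2 * Q)).filter (fun q => q.Coprime 210), U q ≤ C * (Q : ℝ) ^ (1 - δ)) →
    ∑ d ∈ (Icc 2 ⌊(10 : ℝ) ^ (κ * L)⌋₊).filter (fun q => q.Coprime 210),
      (d.divisors.card : ℝ) ^ 2 * U d / d ≤ c0 / (L : ℝ) ^ 5 := by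
  set d : ℝ := min (1 / 1000) (δ / 2) with hd
  have hd0 : 0 < d := by rw [hd]; positivity
  have hd1 : d ≤ 1 / 1000 := min_le_left _ _
  have hd2 : d ≤ δ / 2 := min_le_right _ _
  obtain ⟨C1, hC1, hτ1⟩ := divisor_bound (d / 2) (by positivity)
  have hτ : ∀ n : ℕ, 1 ≤ n → (n.divisors.card : ℝ) ^ 2 ≤ C1 ^ 2 * (n : ℝ) ^ d := by
    intro n hn
    have h1 := hτ1 n hn
    have h2 : ((n : ℝ) ^ (d / 2)) ^ 2 = (n : ℝ) ^ d := by
      rw [← Real.rpow_natCast, ← Real.rpow_mul (by positivity)]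
      congr 1
      push_cast
      ring
    calc (n.divisors.card : ℝ) ^ 2 ≤ (C1 * (n : ℝ) ^ (d / 2)) ^ 2 :=
          pow_le_pow_left₀ (by positivity) h1 2
      _ = _ := by rw [mul_pow, h2]
  set B : ℝ := C1 ^ 2 * 2 * C with hB
  have hB0 : 0 < B := by positivity
  -- the geometric series
  set r : ℝ := (2 : ℝ) ^ (-(1 / 1000) : ℝ) with hr
  have hr0 : 0 < r := by positivity
  have hr1 : r < 1 := by
    rw [hr, Real.rpow_neg (by norm_num)]
    apply inv_lt_one_of_one_lt₀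
    exact Real.one_lt_rpow (by norm_num) (by norm_num)
  -- asymptotics
  have a1 : ∀ᶠ L : ℕ in atTop, (4 * (L : ℝ)) * (21 * ((L ^ 6 : ℕ) : ℝ) ^ 3 * (1 / (L : ℝ) ^ 30)) ≤
      c0 / 3 / (L : ℝ) ^ 5 := by
    filter_upwards [(tendsto_natCast_atTop_atTop (R := ℝ)).eventually_ge_atTop (84 * 3 / c0),
      eventually_ge_atTop 1] with L hL hL1
    have hLp : (1 : ℝ) ≤ L := by exact_mod_cast hL1
    have hL0 : (0 : ℝ) < L := by linarith
    have e : (4 * (L : ℝ)) * (21 * ((L ^ 6 : ℕ) : ℝ) ^ 3 * (1 / (L : ℝ) ^ 30)) = 84 / (L : ℝ) ^ 11 := by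
      push_cast
      field_simp
      ring
    rw [e, div_le_div_iff₀ (by positivity) (by positivity)]
    rw [div_le_iff₀ hc0] at hL
    have h2 : (L : ℝ) * (L : ℝ) ^ 5 ≤ (L : ℝ) ^ 11 := by
      rw [← pow_succ']
      exact pow_le_pow_right₀ hLp (by norm_num)
    calc 84 * (L : ℝ) ^ 5 = (84 * 3) * (L : ℝ) ^ 5 / 3 := by ring
      _ ≤ ((L : ℝ) * c0) * (L : ℝ) ^ 5 / 3 := by gcongr
      _ = c0 / 3 * ((L : ℝ) * (L : ℝ) ^ 5) := by ring
      _ ≤ _ := by gcongr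
  have a2 : ∀ᶠ L : ℕ in atTop, B * ((((L ^ 6 : ℕ) : ℝ) / 2) ^ (-(837 / 1000) : ℝ)) * (1 / (1 - r)) ≤
      c0 / 3 / (L : ℝ) ^ 5 := by
    have h1 : Tendsto (fun N : ℕ => (N : ℝ) ^ (22 / 1000 : ℝ)) atTop atTop :=
      (tendsto_rpow_atTop (by norm_num)).comp tendsto_natCast_atTop_atTop
    filter_upwards [h1.eventually_ge_atTop (B * 2 * (1 / (1 - r)) * 3 / c0), eventually_ge_atTop 1] with L hL hL1
    have hLp : (1 : ℝ) ≤ L := by exact_mod_cast hL1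
    have hL0 : (0 : ℝ) < L := by linarith
    have e1 : (((L ^ 6 : ℕ) : ℝ) / 2) ^ (-(837 / 1000) : ℝ) ≤ 2 / ((L : ℝ) ^ (22 / 1000 : ℝ) * (L : ℝ) ^ 5) := by
      have e2 : (((L ^ 6 : ℕ) : ℝ) / 2) ^ (-(837 / 1000) : ℝ) =
          ((2 : ℝ) ^ (837 / 1000 : ℝ)) / ((L : ℝ) ^ (22 / 1000 : ℝ) * (L : ℝ) ^ 5) := by
        rw [Real.rpow_neg (by positivity), Real.div_rpow (by positivity) (by norm_num), inv_div]
        congr 1
        push_cast
        rw [← Real.rpow_natCast (L : ℝ) 6, ← Real.rpow_mul hL0.le, ← Real.rpow_natCast (L : ℝ) 5,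
          ← Real.rpow_add hL0]
        norm_num
      rw [e2]
      apply div_le_div_of_nonneg_right _ (by positivity)
      calc (2 : ℝ) ^ (837 / 1000 : ℝ) ≤ (2 : ℝ) ^ (1 : ℝ) :=
            Real.rpow_le_rpow_of_exponent_le (by norm_num) (by norm_num)
        _ = 2 := Real.rpow_one 2
    have hr2 : 0 < 1 / (1 - r) := by
      have : 0 < 1 - r := by linarith
      positivity
    set Y : ℝ := (L : ℝ) ^ (22 / 1000 : ℝ) with hY
    have hY0 : 0 < Y := by positivity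
    rw [div_le_iff₀ hc0] at hL
    calc B * ((((L ^ 6 : ℕ) : ℝ) / 2) ^ (-(837 / 1000) : ℝ)) * (1 / (1 - r))
        ≤ B * (2 / (Y * (L : ℝ) ^ 5)) * (1 / (1 - r)) := by gcongr
      _ = (B * 2 * (1 / (1 - r)) * 3) / 3 / Y / (L : ℝ) ^ 5 := by field_simp
      _ ≤ (Y * c0) / 3 / Y / (L : ℝ) ^ 5 := by gcongr
      _ = _ := by field_simp
  have a3 : ∀ᶠ L : ℕ in atTop, (4 * (L : ℝ)) * (B * ((10 : ℝ) ^ (ε4 * L)) ^ (-(δ / 2))) ≤
      c0 / 3 / (L : ℝ) ^ 5 := by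
    have hb : 0 < ε4 * (δ / 2) * Real.log 10 := by
      have := log_ten_gt
      positivity
    set b := ε4 * (δ / 2) * Real.log 10 with hbd
    have h1 := (Real.tendsto_pow_mul_exp_neg_atTop_nhds_zero 6).comp
      ((tendsto_natCast_atTop_atTop (R := ℝ)).const_mul_atTop hb)
    have hη' : 0 < b ^ 6 * (c0 / 3) / (4 * B) := by positivity
    filter_upwards [h1.eventually_lt_const hη', eventually_ge_atTop 1] with L hL hL1
    simp only [Function.comp] at hL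
    have hLp : (1 : ℝ) ≤ L := by exact_mod_cast hL1
    have hL0 : (0 : ℝ) < L := by linarith
    have e1 : ((10 : ℝ) ^ (ε4 * L)) ^ (-(δ / 2)) = Real.exp (-(b * L)) := by
      rw [← Real.rpow_mul (by norm_num), Real.rpow_def_of_pos (by norm_num)]
      congr 1
      rw [hbd]
      ring
    rw [e1, le_div_iff₀ (by positivity)]
    rw [lt_div_iff₀ (by positivity), mul_pow] at hL
    have h3 : b ^ 6 * ((4 * (L : ℝ)) * (B * Real.exp (-(b * L))) * (L : ℝ) ^ 5) < b ^ 6 * (c0 / 3) := by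
      calc b ^ 6 * ((4 * (L : ℝ)) * (B * Real.exp (-(b * L))) * (L : ℝ) ^ 5) =
          b ^ 6 * (L : ℝ) ^ 6 * Real.exp (-(b * L)) * (4 * B) := by ring
        _ < _ := hL
    exact (lt_of_mul_lt_mul_left h3 (by positivity)).le
  filter_upwards [a1, a2, a3, eventually_ge_atTop 2] with L ha1 ha2 ha3 hL2 U hU hsm hmid hlg
  set D : ℕ := ⌊(10 : ℝ) ^ (κ * L)⌋₊ with hD
  have hLp : (2 : ℝ) ≤ L := by exact_mod_cast hL2
  have hg : ∀ q : ℕ, 0 ≤ (q.divisors.card : ℝ) ^ 2 * U q / q := fun q =>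
    div_nonneg (mul_nonneg (by positivity) (hU q)) (Nat.cast_nonneg q)
  refine (cover 210 D _ hg).trans ?_
  have hDr : (D : ℝ) ≤ (10 : ℝ) ^ (κ * L) := Nat.floor_le (by positivity)
  -- the bound for one block
  have hterm : ∀ j ∈ Icc 1 (Nat.log 2 D),
      ∑ q ∈ (Ico (2 ^ j) (2 * 2 ^ j)).filter (fun q => q.Coprime 210),
        (q.divisors.card : ℝ) ^ 2 * U q / q ≤ 21 * ((L ^ 6 : ℕ) : ℝ) ^ 3 * (1 / (L : ℝ) ^ 30) +
          B * ((((L ^ 6 : ℕ) : ℝ) / 2) ^ (-(837 / 1000) : ℝ)) * r ^ j + B * ((10 : ℝ) ^ (ε4 * L)) ^ (-(δ / 2)) := by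
    intro j hj
    rw [mem_Icc] at hj
    have hD0 : D ≠ 0 := by
      intro h0
      rw [h0] at hj
      simp at hj
      omega
    have hjD : ((2 ^ j : ℕ) : ℝ) ≤ (10 : ℝ) ^ (κ * L) := by
      have e1 : 2 ^ j ≤ D :=
        (Nat.pow_le_pow_right (by norm_num) hj.2).trans (Nat.pow_log_le_self 2 hD0)
      have e2 : ((2 ^ j : ℕ) : ℝ) ≤ D := by exact_mod_cast e1
      exact e2.trans hDr
    set Q : ℕ := 2 ^ j with hQ
    have hQ1 : 1 ≤ Q := Nat.one_le_two_pow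
    have hQ0 : (0 : ℝ) < Q := by exact_mod_cast hQ1
    have hQ1' : (1 : ℝ) ≤ Q := by exact_mod_cast hQ1
    have t1 : 0 ≤ 21 * ((L ^ 6 : ℕ) : ℝ) ^ 3 * (1 / (L : ℝ) ^ 30) := by positivity
    have t2 : 0 ≤ B * ((((L ^ 6 : ℕ) : ℝ) / 2) ^ (-(837 / 1000) : ℝ)) * r ^ j := by positivity
    have t3 : 0 ≤ B * ((10 : ℝ) ^ (ε4 * L)) ^ (-(δ / 2)) := by positivity
    have h2d : (2 * Q : ℝ) ^ d / Q ≤ 2 * (Q : ℝ) ^ (d - 1) := by
      rw [Real.mul_rpow (by norm_num) hQ0.le, Real.rpow_sub hQ0, Real.rpow_one]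
      have : (2 : ℝ) ^ d ≤ 2 := by
        calc (2 : ℝ) ^ d ≤ (2 : ℝ) ^ (1 : ℝ) := Real.rpow_le_rpow_of_exponent_le (by norm_num) (by linarith)
          _ = 2 := Real.rpow_one 2
      calc (2 : ℝ) ^ d * (Q : ℝ) ^ d / Q ≤ 2 * (Q : ℝ) ^ d / Q := by gcongr
        _ = _ := by ring
    rcases le_or_gt (2 * Q) (L ^ 6) with hs | hs
    · have h2 := block_small (U := U) (E := 1 / (L : ℝ) ^ 30) (j := j) (M := L ^ 6) (by positivity) hs
        (fun q h3 h4 h5 => by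
          have h2j : 2 ^ 1 ≤ 2 ^ j := Nat.pow_le_pow_right (by norm_num) hj.1
          exact hsm q (by omega) (by omega) h5)
      linarith
    · have hbl := gblock 210 hU Q hQ1 d (C1 ^ 2) hd0.le (by positivity) hτ
      have hpos : 0 ≤ C1 ^ 2 * (2 * Q : ℝ) ^ d / Q := by positivity
      rcases le_or_gt (Q : ℝ) ((10 : ℝ) ^ (ε4 * L)) with hm | hm
      · have h3 := hbl.trans (mul_le_mul_of_nonneg_left (hmid Q hQ1 hm) hpos)
        have h4 : C1 ^ 2 * (2 * Q : ℝ) ^ d / Q * (C * (Q : ℝ) ^ (161 / 1000 : ℝ)) ≤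
            B * ((((L ^ 6 : ℕ) : ℝ) / 2) ^ (-(837 / 1000) : ℝ)) * r ^ j := by
          have h5 : C1 ^ 2 * (2 * Q : ℝ) ^ d / Q * (C * (Q : ℝ) ^ (161 / 1000 : ℝ)) ≤
              B * (Q : ℝ) ^ (-(838 / 1000) : ℝ) := by
            calc C1 ^ 2 * (2 * Q : ℝ) ^ d / Q * (C * (Q : ℝ) ^ (161 / 1000 : ℝ))
                = C1 ^ 2 * C * ((2 * Q : ℝ) ^ d / Q) * (Q : ℝ) ^ (161 / 1000 : ℝ) := by ring
              _ ≤ C1 ^ 2 * C * (2 * (Q : ℝ) ^ (d - 1)) * (Q : ℝ) ^ (161 / 1000 : ℝ) := by gcongr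
              _ = B * ((Q : ℝ) ^ (d - 1) * (Q : ℝ) ^ (161 / 1000 : ℝ)) := by rw [hB]; ring
              _ = B * (Q : ℝ) ^ (d - 1 + 161 / 1000) := by rw [← Real.rpow_add hQ0]
              _ ≤ B * (Q : ℝ) ^ (-(838 / 1000) : ℝ) := by
                  apply mul_le_mul_of_nonneg_left _ hB0.le
                  apply Real.rpow_le_rpow_of_exponent_le hQ1'
                  linarith
          have h6 : (Q : ℝ) ^ (-(838 / 1000) : ℝ) ≤ ((((L ^ 6 : ℕ) : ℝ) / 2) ^ (-(837 / 1000) : ℝ)) * r ^ j := by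
            have e1 : (Q : ℝ) ^ (-(838 / 1000) : ℝ) = (Q : ℝ) ^ (-(837 / 1000) : ℝ) * (Q : ℝ) ^ (-(1 / 1000) : ℝ) := by
              rw [← Real.rpow_add hQ0]
              norm_num
            have e2 : (Q : ℝ) ^ (-(1 / 1000) : ℝ) = r ^ j := by
              rw [hQ, hr]
              push_cast
              rw [← Real.rpow_natCast, ← Real.rpow_natCast, ← Real.rpow_mul (by norm_num),
                ← Real.rpow_mul (by norm_num), mul_comm]
            have e3 : (Q : ℝ) ^ (-(837 / 1000) : ℝ) ≤ (((L ^ 6 : ℕ) : ℝ) / 2) ^ (-(837 / 1000) : ℝ) := by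
              apply Real.rpow_le_rpow_of_nonpos
              · have : (0 : ℝ) < ((L ^ 6 : ℕ) : ℝ) := by
                  have : 0 < L ^ 6 := pow_pos (by omega) 6
                  exact_mod_cast this
                positivity
              · have : ((L ^ 6 : ℕ) : ℝ) ≤ 2 * Q := by exact_mod_cast hs.le
                linarith
              · norm_num
            rw [e1, e2]
            exact mul_le_mul_of_nonneg_right e3 (by positivity)
          calc _ ≤ B * (Q : ℝ) ^ (-(838 / 1000) : ℝ) := h5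
            _ ≤ B * (((((L ^ 6 : ℕ) : ℝ) / 2) ^ (-(837 / 1000) : ℝ)) * r ^ j) := mul_le_mul_of_nonneg_left h6 hB0.le
            _ = _ := by ring
        linarith
      · have h3 := hbl.trans (mul_le_mul_of_nonneg_left (hlg Q hQ1 hm.le hjD) hpos)
        have h4 : C1 ^ 2 * (2 * Q : ℝ) ^ d / Q * (C * (Q : ℝ) ^ (1 - δ)) ≤
            B * ((10 : ℝ) ^ (ε4 * L)) ^ (-(δ / 2)) := by
          calc C1 ^ 2 * (2 * Q : ℝ) ^ d / Q * (C * (Q : ℝ) ^ (1 - δ))
              = C1 ^ 2 * C * ((2 * Q : ℝ) ^ d / Q) * (Q : ℝ) ^ (1 - δ) := by ring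
            _ ≤ C1 ^ 2 * C * (2 * (Q : ℝ) ^ (d - 1)) * (Q : ℝ) ^ (1 - δ) := by gcongr
            _ = B * ((Q : ℝ) ^ (d - 1) * (Q : ℝ) ^ (1 - δ)) := by rw [hB]; ring
            _ = B * (Q : ℝ) ^ (d - 1 + (1 - δ)) := by rw [← Real.rpow_add hQ0]
            _ ≤ B * (Q : ℝ) ^ (-(δ / 2)) := by
                apply mul_le_mul_of_nonneg_left _ hB0.le
                apply Real.rpow_le_rpow_of_exponent_le hQ1'
                linarith
            _ ≤ _ := by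
                apply mul_le_mul_of_nonneg_left _ hB0.le
                apply Real.rpow_le_rpow_of_nonpos (by positivity) hm.le
                linarith
        linarith
  refine (sum_le_sum hterm).trans ?_
  rw [sum_add_distrib, sum_add_distrib, sum_const, sum_const, Nat.card_Icc, Nat.add_sub_cancel, ← mul_sum]
  rw [nsmul_eq_mul, nsmul_eq_mul]
  have hlog : (Nat.log 2 D : ℝ) ≤ 4 * L := by
    rcases Nat.eq_zero_or_pos D with h0 | h0
    · rw [h0]; simp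
    have e1 : 2 ^ Nat.log 2 D ≤ D := Nat.pow_log_le_self 2 h0.ne'
    have e2 : (2 : ℝ) ^ Nat.log 2 D ≤ (10 : ℝ) ^ (κ * L) := by
      have : (2 : ℝ) ^ Nat.log 2 D ≤ D := by exact_mod_cast e1
      exact this.trans hDr
    have e3 := Real.log_le_log (by positivity) e2
    rw [Real.log_pow, Real.log_rpow (by norm_num)] at e3
    have hl2 := Real.log_two_gt_d9
    have hl10 := log_ten_lt'
    have hl10' := log_ten_gt
    have e5 : κ * L * Real.log 10 ≤ 1 * L * (23027 / 10000) := by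
      apply mul_le_mul _ hl10.le (by linarith) (by positivity)
      exact mul_le_mul_of_nonneg_right h1 (by linarith)
    have e6 : (0 : ℝ) ≤ (Nat.log 2 D : ℝ) := Nat.cast_nonneg _
    nlinarith
  have hgeo : ∑ j ∈ Icc 1 (Nat.log 2 D), r ^ j ≤ 1 / (1 - r) := by
    have h2 : ∑ j ∈ Icc 1 (Nat.log 2 D), r ^ j ≤ ∑ j ∈ range (Nat.log 2 D + 1), r ^ j := by
      apply sum_le_sum_of_subset_of_nonneg
      · intro j hj
        rw [mem_Icc] at hj
        rw [mem_range]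
        omega
      · intro j _ _
        positivity
    refine h2.trans ?_
    rw [geom_sum_eq hr1.ne]
    have h3 : 0 < 1 - r := by linarith
    rw [← neg_div_neg_eq, neg_sub, neg_sub]
    apply div_le_div_of_nonneg_right _ h3.le
    have : 0 ≤ r ^ (Nat.log 2 D + 1) := by positivity
    linarith
  have t1 : 0 ≤ 21 * ((L ^ 6 : ℕ) : ℝ) ^ 3 * (1 / (L : ℝ) ^ 30) := by positivity
  have t2 : 0 ≤ B * ((((L ^ 6 : ℕ) : ℝ) / 2) ^ (-(837 / 1000) : ℝ)) := by positivity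
  have t3 : 0 ≤ B * ((10 : ℝ) ^ (ε4 * L)) ^ (-(δ / 2)) := by positivity
  have u1 := mul_le_mul_of_nonneg_right hlog t1
  have u2 := mul_le_mul_of_nonneg_left hgeo t2
  have u3 := mul_le_mul_of_nonneg_right hlog t3
  have e : c0 / (L : ℝ) ^ 5 = c0 / 3 / (L : ℝ) ^ 5 + c0 / 3 / (L : ℝ) ^ 5 + c0 / 3 / (L : ℝ) ^ 5 := by ring
  rw [e]
  exact add_le_add (add_le_add (u1.trans ha1) (u2.trans ha2)) (u3.trans ha3)

end Pool.Agent.L5helper11.PE
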