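import Pool.Agent.L5helper11.PE.Lev
import Pool.Agent.L5helper11.PD.Sieve

/-!
# The weighted sieve for a family
(a modification of the starting file `R471/PalShort.lean`)
-/

set_option autoImplicit false

namespace Pool.Agent.L5helper11.PE

open Finset Filter Topology
open Pool.Agent.W89.Sv (PP PZ VZ rem En weighted_sieve V_lim cV cV_pos mem_PP dvd_PZ)
open Pool.Agent.H476R2.Pal (omega_bound count_pos)
open Pool.Agent.L5helper11.PD (good_num zz zz_le zz_pow_le tendsto_bpow tendsto_zz log_ten log_ten_lt)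

/-- the weighted sieve -/
theorem sieve_abs {r : ℕ} {κ lam B21 : ℝ} (hκ0 : 0 < κ) (hκ1 : κ < 1)
    (hl0 : 0 < lam) (hl1 : lam ≤ 1) (hlam : lam * (1174 / 1000) < 994 / 1000)
    (hr : 1 / lam + 88 / (43 * κ) < r + 1) (hB0 : 0 < B21) :
    ∃ c : ℝ, 0 < c ∧ ∀ᶠ N : ℕ in atTop, ∀ (ι : Type) (S : Finset ι) (v : ι → ℕ) (X : ℝ), 0 < X →
      X ≤ B21 * S.card →
      ∑ q ∈ (Icc 1 ⌊(10 : ℝ) ^ (κ * N)⌋₊).filter (fun q => q.Coprime 210),
        (q.divisors.card : ℝ) ^ 2 * |((S.filter (fun m => q ∣ v m)).card : ℝ) - (S.card : ℝ) / q| ≤ c * X / N →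
      (∀ B ⊆ S, (∀ m ∈ B, ∃ p : ℕ, p.Coprime 210 ∧ (10 : ℝ) ^ (κ / 6 * N) ≤ p ∧ (p : ℝ) ≤ (10 : ℝ) ^ (κ * N) ∧
        p ^ 2 ∣ v m) → (B.card : ℝ) ≤ c * X / N) →
      (∀ m ∈ S, (v m).Coprime 210) → (∀ m ∈ S, v m < 10 ^ (2 * N + 1)) →
      ∃ G : Finset ι, G ⊆ S ∧ c * X / N ≤ G.card ∧ ∀ m ∈ G,
        (v m).primeFactorsList.length ≤ r ∧ ∀ p ∈ (v m).primeFactorsList, (10 : ℝ) ^ (κ / 6 * N) < p := by
  classical
  obtain ⟨δ, hδ0, z0, hsieve⟩ := weighted_sieve 210 (by norm_num) ⟨105, by norm_num⟩ hl0.le hl1 hlam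
  have hlb := log_ten
  have hlb3 := log_ten_lt
  have hlb0 : 0 < Real.log 10 := by linarith
  set K : ℝ := cV 210 with hK
  have hK0 : 0 < K := cV_pos _
  set R : ℝ := (r : ℝ) + 1 - 1 / lam with hRd
  have hRκ : 0 < R * (86 / 88) * κ - 2 := by
    have h1 : 88 / (43 * κ) < R := by rw [hRd]; linarith
    rw [div_lt_iff₀ (by positivity)] at h1
    linarith
  have hR0 : 0 < R := by
    have h1 : 0 < R * (86 / 88) * κ := by linarith
    by_contra h
    push Not at h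
    have : R * (86 / 88) * κ ≤ 0 := by
      have h2 : 0 ≤ (86 / 88 : ℝ) * κ := by positivity
      rw [mul_assoc]
      exact mul_nonpos_of_nonpos_of_nonneg h h2
    linarith
  set c : ℝ := δ * K / (16 * Real.log 10 * B21) with hc
  have hc0 : 0 < c := by positivity
  refine ⟨c, hc0, ?_⟩
  have e1 : ∀ᶠ N : ℕ in atTop, K / 2 < VZ 210 (zz κ N) * Real.log (zz κ N : ℝ) :=
    ((V_lim 210 (by norm_num)).comp (tendsto_zz hκ0)).eventually_const_lt (by linarith)
  have e2 : ∀ᶠ N : ℕ in atTop, max z0 2 ≤ zz κ N := (tendsto_zz hκ0).eventually_ge_atTop _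
  have e5 : ∀ᶠ N : ℕ in atTop, 1 / c + 1 ≤ (N : ℝ) :=
    tendsto_natCast_atTop_atTop.eventually_ge_atTop _
  have e6 : ∀ᶠ N : ℕ in atTop, 2 ≤ (10 : ℝ) ^ (κ * (2 / 11 - 1 / 6) * (N : ℝ)) :=
    (tendsto_bpow (a := κ * (2 / 11 - 1 / 6)) (by positivity)).eventually_ge_atTop 2
  have e7 : ∀ᶠ N : ℕ in atTop, Real.log 10 + R * (86 / 88) * (11 / 2 * Real.log 2) ≤
      (R * (86 / 88) * κ - 2) * Real.log 10 * (N : ℝ) :=
    ((tendsto_natCast_atTop_atTop (R := ℝ)).const_mul_atTop (by positivity)).eventually_ge_atTop _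
  filter_upwards [e1, e2, e5, e6, e7, eventually_ge_atTop 1] with N h1 h2 h5 h6 h7 hN1 ι S v X hX0 hX1X h3 h4' hc210' hlt'
  have hL1 : (1 : ℝ) ≤ N := by exact_mod_cast hN1
  have hL0 : (0 : ℝ) < N := by linarith
  set z := zz κ N with hz
  have hz0 : z0 ≤ z := (le_max_left _ _).trans h2
  have hz2 : 2 ≤ z := (le_max_right _ _).trans h2
  have hzR : (2 : ℝ) ≤ z := by exact_mod_cast hz2
  have hzle : (z : ℝ) ≤ (10 : ℝ) ^ (κ * N * (2 / 11)) := zz_le κ N
  have hzge : (10 : ℝ) ^ (κ * N * (2 / 11)) / 2 ≤ z := by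
    have h8 : (10 : ℝ) ^ (κ * N * (2 / 11)) < z + 1 := Nat.lt_floor_add_one _
    linarith
  have hzη : (10 : ℝ) ^ (κ / 6 * N) < z := by
    have e : (10 : ℝ) ^ (κ * N * (2 / 11)) = (10 : ℝ) ^ (κ / 6 * N) * (10 : ℝ) ^ (κ * (2 / 11 - 1 / 6) * (N : ℝ)) := by
      rw [← Real.rpow_add (by norm_num)]
      congr 1
      ring
    have h8 : (10 : ℝ) ^ (κ * N * (2 / 11)) < z + 1 := Nat.lt_floor_add_one _
    have h9 : 1 < (10 : ℝ) ^ (κ / 6 * N) := Real.one_lt_rpow (by norm_num) (by positivity)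
    have h10 : (10 : ℝ) ^ (κ / 6 * N) * 2 ≤ (10 : ℝ) ^ (κ * N * (2 / 11)) := by
      rw [e]
      exact mul_le_mul_of_nonneg_left h6 (by positivity)
    linarith
  have hzD : (z : ℝ) ^ (11 / 2 : ℝ) ≤ (10 : ℝ) ^ (κ * N) := zz_pow_le κ N
  have hlogz : Real.log z ≤ N * Real.log 10 := by
    have h8 := Real.log_le_log (by linarith) hzle
    rw [Real.log_rpow (by norm_num)] at h8
    refine h8.trans ?_
    apply mul_le_mul_of_nonneg_right _ hlb0.le
    have : κ * N * (2 / 11) ≤ 1 * N * 1 := by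
      apply mul_le_mul _ (by norm_num) (by norm_num) (by positivity)
      exact mul_le_mul_of_nonneg_right hκ1.le hL0.le
    linarith
  have hR : (2 * (N : ℝ) + 1) * Real.log 10 ≤ R * (86 / 88 * Real.log ((z : ℝ) ^ (11 / 2 : ℝ))) := by
    have h8 := Real.log_le_log (by positivity) hzge
    rw [Real.log_div (by positivity) (by norm_num), Real.log_rpow (by norm_num)] at h8
    rw [Real.log_rpow (by linarith)]
    have h9 : R * (86 / 88) * (11 / 2) * (κ * N * (2 / 11) * Real.log 10 - Real.log 2) ≤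
        R * (86 / 88) * (11 / 2) * Real.log z := mul_le_mul_of_nonneg_left h8 (by positivity)
    have h10 : R * (86 / 88) * (11 / 2) * (κ * N * (2 / 11) * Real.log 10 - Real.log 2) =
        (R * (86 / 88) * κ - 2) * Real.log 10 * N + 2 * N * Real.log 10 - R * (86 / 88) * (11 / 2 * Real.log 2) := by
      ring
    rw [h10] at h9
    nlinarith
  have hVpos : 0 < VZ 210 z := Pool.Agent.W89.Sv.VZ_pos _ _
  have hVL : K / (2 * (N * Real.log 10)) ≤ VZ 210 z := by
    rw [div_le_iff₀ (by positivity)]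
    have h8 := mul_le_mul_of_nonneg_left hlogz hVpos.le
    linarith
  set X1 : ℝ := (S.card : ℝ) with hX1d
  have hX10 : 0 < X1 := by
    by_contra h
    push Not at h
    have : B21 * X1 ≤ 0 := mul_nonpos_of_nonneg_of_nonpos hB0.le h
    linarith
  have hS := hsieve z hz0 ι S v X1 hX10.le
  have hRem : ∑ q ∈ (Icc 1 ⌊(z : ℝ) ^ (11 / 2 : ℝ)⌋₊).filter (fun q => q.Coprime 210),
      (q.divisors.card : ℝ) ^ 2 * |rem S v X1 q| ≤ c * X / N := by
    refine le_trans ?_ h3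
    have hsub : (Icc 1 ⌊(z : ℝ) ^ (11 / 2 : ℝ)⌋₊).filter (fun q => q.Coprime 210) ⊆
        (Icc 1 ⌊(10 : ℝ) ^ (κ * N)⌋₊).filter (fun q => q.Coprime 210) := by
      intro q hq
      rw [mem_filter, mem_Icc] at hq ⊢
      exact ⟨⟨hq.1.1, hq.1.2.trans (Nat.floor_le_floor hzD)⟩, hq.2⟩
    exact sum_le_sum_of_subset_of_nonneg hsub fun _ _ _ => by positivity
  set w : ι → ℝ := fun m => Pool.Agent.W89.Sv.wt 210 z lam (v m) with hw
  set T := S.filter (fun m => (v m).Coprime (PZ 210 z)) with hT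
  set B := S.filter (fun m => ∃ p : ℕ, p.Coprime 210 ∧
      (10 : ℝ) ^ (κ / 6 * N) ≤ p ∧ (p : ℝ) ≤ (10 : ℝ) ^ (κ * N) ∧ p ^ 2 ∣ v m) with hB
  have hD1 : 1 < (z : ℝ) ^ (11 / 2 : ℝ) := Real.one_lt_rpow (by linarith) (by norm_num)
  have hcp := count_pos T B w (by
    intro m _
    simp only [hw]
    unfold Pool.Agent.W89.Sv.wt
    have h8 : 0 ≤ ∑ p ∈ (En 210 z ((z : ℝ) ^ (11 / 2 : ℝ)) 70).filter (fun p => p ∣ v m),
        (1 - Real.log p / (86 / 88 * Real.log ((z : ℝ) ^ (11 / 2 : ℝ)))) := by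
      apply sum_nonneg
      intro p hp
      have hp' := (mem_filter.1 hp).1
      unfold En at hp'
      rw [mem_filter, mem_PP, Nat.lt_ceil] at hp'
      have e : (((70 : ℕ) : ℝ) + 16) / 88 = 86 / 88 := by norm_num
      rw [e] at hp'
      have hlD := Real.log_pos hD1
      have h9 : Real.log p ≤ 86 / 88 * Real.log ((z : ℝ) ^ (11 / 2 : ℝ)) := by
        rw [← Real.log_rpow (by linarith : 0 < (z : ℝ) ^ (11 / 2 : ℝ))]
        exact Real.log_le_log (by exact_mod_cast hp'.1.2.1.pos) hp'.1.1.le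
      rw [sub_nonneg, div_le_one (by positivity)]
      exact h9
    have h10 := mul_nonneg hl0.le h8
    linarith)
  have hsumT : δ * (X1 * VZ 210 z) - c * X / N ≤ ∑ m ∈ T, w m := by
    refine le_trans ?_ hS
    linarith
  have hBc : (B.card : ℝ) ≤ c * X / N := h4' B (filter_subset _ _) fun m hm => (mem_filter.1 hm).2
  -- lower bound for the number of good `m`
  have hnum : c * X / N ≤ (((T.filter (fun i => 0 < w i)) \ B).card : ℝ) := by
    refine le_trans ?_ hcp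
    have h8 : δ * (X1 * (K / (2 * (N * Real.log 10)))) ≤ δ * (X1 * VZ 210 z) := by gcongr
    have h9 : 8 * (c * X / N) ≤ δ * (X1 * (K / (2 * (N * Real.log 10)))) := by
      have e : δ * (X1 * (K / (2 * (N * Real.log 10)))) = 8 * (c * (B21 * X1) / N) := by
        rw [hc]; field_simp; ring
      rw [e]
      apply mul_le_mul_of_nonneg_left _ (by norm_num)
      apply div_le_div_of_nonneg_right _ hL0.le
      exact mul_le_mul_of_nonneg_left hX1X hc0.le
    have h14 : 0 ≤ c * X / N := by positivity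
    linarith
  refine ⟨(T.filter (fun i => 0 < w i)) \ B, ?_, hnum, ?_⟩
  · intro m hm
    rw [Finset.mem_sdiff, mem_filter, hT, mem_filter] at hm
    exact hm.1.1.1
  · intro m hm
    rw [Finset.mem_sdiff, mem_filter, hT, mem_filter] at hm
    obtain ⟨⟨⟨hmS, hs'⟩, hwm⟩, hmB⟩ := hm
    have hc210 := hc210' m hmS
    have hpos : 0 < v m := by
      rcases Nat.eq_zero_or_pos (v m) with h0 | h0
      · rw [h0] at hc210
        norm_num at hc210
      · exact h0
    have hlt : v m < 10 ^ (2 * N + 1) := hlt' m hmS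
    have hlog : Real.log (v m) ≤ (2 * (N : ℝ) + 1) * Real.log 10 := by
      have h8 : ((v m : ℕ) : ℝ) ≤ (10 : ℝ) ^ (2 * N + 1) := by exact_mod_cast hlt.le
      have h9 := Real.log_le_log (by exact_mod_cast hpos) h8
      rw [Real.log_pow] at h9
      push_cast at h9
      exact h9
    exact good_num (r := r) hz2 hpos hlog hc210 hs' hzD hzη (by
      intro p hp1 hp2 hp3 hp4
      apply hmB
      rw [hB, mem_filter]
      exact ⟨hmS, p, hp1, hp2, hp3, hp4⟩) hl0 hR (by rw [hRd]; linarith) hwm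

end Pool.Agent.L5helper11.PE
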