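import Pool.Agent.L5helper11.PE.Dense

/-!
# Windows with many free places
-/

set_option autoImplicit false

namespace Pool.Agent.L5helper11.PE

open Finset Pool.Agent.Helper112
open Pool.Agent.L5helper11.PD (dn dn_nonneg dn_le_half dn_le dn_add_int dn_sub_le dn_mul_le dn_mul_eq
  dvd_of_dn_lt le_dn_of_not_dvd wt PQ fra mem_PQ frac_inj coprime_ten sd sd_nonneg sd_le_one
  FF FF_nonneg FF_le_one FF_anti FF_union)

/-- the window number `k` -/
def Wn (ℓ k : ℕ) : Finset ℕ := Ico (1 + ℓ * k) (1 + ℓ * k + ℓ)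

lemma mem_Wn {ℓ k i : ℕ} : i ∈ Wn ℓ k ↔ 1 + ℓ * k ≤ i ∧ i < 1 + ℓ * k + ℓ := by
  unfold Wn
  rw [mem_Ico]

lemma Wn_disj {ℓ k k' : ℕ} (h : k ≠ k') : Disjoint (Wn ℓ k) (Wn ℓ k') := by
  rw [Finset.disjoint_left]
  intro i hi hi2
  rw [mem_Wn] at hi hi2
  rcases lt_or_gt_of_ne h with h1 | h1
  · have : ℓ * (k + 1) ≤ ℓ * k' := Nat.mul_le_mul_left _ h1
    have e : ℓ * (k + 1) = ℓ * k + ℓ := by ring
    omega
  · have : ℓ * (k' + 1) ≤ ℓ * k := Nat.mul_le_mul_left _ h1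
    have e : ℓ * (k' + 1) = ℓ * k' + ℓ := by ring
    omega

lemma Wn_end {N ℓ k : ℕ} (hN : 1 ≤ N) (h : k < (N - 1) / ℓ) : 1 + ℓ * k + ℓ ≤ N := by
  have h1 : ℓ * (k + 1) ≤ ℓ * ((N - 1) / ℓ) := Nat.mul_le_mul_left _ h
  have h2 : ℓ * ((N - 1) / ℓ) ≤ N - 1 := Nat.mul_div_le _ _
  have e : ℓ * (k + 1) = ℓ * k + ℓ := by ring
  omega

lemma Wn_sub {N ℓ k : ℕ} (hN : 1 ≤ N) (h : k < (N - 1) / ℓ) : Wn ℓ k ⊆ Ico 1 N := by
  intro i hi
  rw [mem_Wn] at hi
  have := Wn_end hN h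
  rw [mem_Ico]
  omega

/-- the number of places which are not free -/
lemma nf_sum {N ℓ : ℕ} (hN : 1 ≤ N) (D : ℕ → Finset ℕ) :
    ∑ k ∈ range ((N - 1) / ℓ), (NF D (Wn ℓ k)).card ≤ ((Ico 1 N).filter fun i => (D i).card < 2).card := by
  classical
  rw [← card_biUnion]
  · apply card_le_card
    intro i hi
    rw [mem_biUnion] at hi
    obtain ⟨k, hk, hik⟩ := hi
    rw [mem_NF] at hik
    rw [mem_filter]
    exact ⟨Wn_sub hN (mem_range.1 hk) hik.1, hik.2⟩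
  · intro a _ b _ hab
    change Disjoint (NF D (Wn ℓ a)) (NF D (Wn ℓ b))
    exact Finset.disjoint_of_subset_left (filter_subset _ _)
      (Finset.disjoint_of_subset_right (filter_subset _ _) (Wn_disj hab))

/-- the windows with many free places -/
def dense (N : ℕ) (D : ℕ → Finset ℕ) (ℓ : ℕ) : Finset ℕ :=
  (range ((N - 1) / ℓ)).filter fun k => 14 * (NF D (Wn ℓ k)).card ≤ ℓ

lemma dense_many {N ℓ : ℕ} {D : ℕ → Finset ℕ} (hD : GoodP N D) (hN : 1 ≤ N) (hℓ : 1 ≤ ℓ) :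
    (N : ℝ) / (15 * ℓ) - 2 ≤ ((dense N D ℓ).card : ℝ) := by
  classical
  set ν := (N - 1) / ℓ with hν
  set S := (range ν).filter fun k => ¬ 14 * (NF D (Wn ℓ k)).card ≤ ℓ with hS
  have h1 : (dense N D ℓ).card + S.card = ν := by
    have h2 := Finset.card_filter_add_card_filter_not (s := range ν) (fun k => 14 * (NF D (Wn ℓ k)).card ≤ ℓ)
    rw [card_range] at h2
    exact h2
  have h2 : ℓ * S.card ≤ 14 * ∑ k ∈ range ν, (NF D (Wn ℓ k)).card := by
    calc ℓ * S.card = ∑ _k ∈ S, ℓ := by rw [sum_const, smul_eq_mul, mul_comm]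
      _ ≤ ∑ k ∈ S, 14 * (NF D (Wn ℓ k)).card := by
          refine sum_le_sum fun k hk => ?_
          rw [hS, mem_filter] at hk
          omega
      _ ≤ ∑ k ∈ range ν, 14 * (NF D (Wn ℓ k)).card := sum_le_sum_of_subset (filter_subset _ _)
      _ = _ := by rw [mul_sum]
  have h3 := nf_sum (ℓ := ℓ) hN D
  rw [← hν] at h3
  have h4 : 15 * (ℓ * S.card) ≤ 14 * N := by
    have := hD.few
    omega
  have h5 : N ≤ ℓ * ν + ℓ := by
    have := Nat.lt_mul_div_succ (N - 1) (show 0 < ℓ by omega)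
    rw [← hν] at this
    have e : ℓ * (ν + 1) = ℓ * ν + ℓ := by ring
    omega
  have hℓ0 : (0 : ℝ) < ℓ := by exact_mod_cast hℓ
  have h1' : ((dense N D ℓ).card : ℝ) + S.card = ν := by exact_mod_cast h1
  have h4' : 15 * ((ℓ : ℝ) * S.card) ≤ 14 * N := by exact_mod_cast h4
  have h5' : (N : ℝ) ≤ ℓ * ν + ℓ := by exact_mod_cast h5
  rw [sub_le_iff_le_add, div_le_iff₀ (by positivity)]
  nlinarith

/-- a window with at least the average number of free places -/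
lemma best {N ℓ : ℕ} {D : ℕ → Finset ℕ} (hD : GoodP N D) (hN : 1 ≤ N) (hν : 0 < (N - 1) / ℓ) :
    ∃ k < (N - 1) / ℓ, 15 * ((N - 1) / ℓ * (NF D (Wn ℓ k)).card) ≤ N := by
  by_contra hcon
  push Not at hcon
  set ν := (N - 1) / ℓ with hν'
  have h3 := nf_sum (ℓ := ℓ) hN D
  rw [← hν'] at h3
  have h4 := hD.few
  have h5 : ν * N < ∑ k ∈ range ν, 15 * (ν * (NF D (Wn ℓ k)).card) := by
    calc ν * N = ∑ _k ∈ range ν, N := by rw [sum_const, smul_eq_mul, card_range]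
      _ < ∑ k ∈ range ν, 15 * (ν * (NF D (Wn ℓ k)).card) := by
          apply sum_lt_sum_of_nonempty
          · exact ⟨0, mem_range.2 hν⟩
          · intro k hk
            exact hcon k (mem_range.1 hk)
  have h6 : ∑ k ∈ range ν, 15 * (ν * (NF D (Wn ℓ k)).card) = ν * (15 * ∑ k ∈ range ν, (NF D (Wn ℓ k)).card) := by
    rw [mul_sum, mul_sum]
    refine sum_congr rfl fun k _ => ?_
    ring
  rw [h6] at h5
  have h7 := Nat.lt_of_mul_lt_mul_left h5
  omega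

/-- products over disjoint sets -/
lemma FF_prod {N : ℕ} {D : ℕ → Finset ℕ} {B : Finset ℕ} {S : Finset ℕ} {f : ℕ → Finset ℕ}
    (hf : ∀ k ∈ S, f k ⊆ B) (hd : ∀ k ∈ S, ∀ k' ∈ S, k ≠ k' → Disjoint (f k) (f k')) (θ : ℝ) :
    FF N D B θ ≤ ∏ k ∈ S, FF N D (f k) θ := by
  classical
  have h1 : FF N D (S.biUnion f) θ = ∏ k ∈ S, FF N D (f k) θ := by
    unfold FF
    rw [Finset.prod_biUnion]
    intro a ha b hb hab
    exact hd a ha b hb hab
  rw [← h1]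
  apply FF_anti
  intro i hi
  rw [mem_biUnion] at hi
  obtain ⟨k, hk, hik⟩ := hi
  exact hf k hk hik

/-- savings from many windows -/
lemma FF_windows {N K ℓ R : ℕ} {D : ℕ → Finset ℕ} (hD : ∀ i, D i ⊆ range 10) (hN : 1 ≤ N) (hK0 : 0 < K)
    (hK : 2520 ∣ K) {η : ℝ} (hη : 0 < η) (hη1 : η ≤ 1) {S : Finset ℕ} (hS : S ⊆ range ((N - 1) / ℓ)) (θ : ℝ)
    (h : ∀ k ∈ S, R ≤ (bd K N (Fr N D ∩ Wn ℓ k) η θ).card) :
    FF N D (range (N + 1)) θ ≤ (rho K η ^ R) ^ S.card := by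
  have h1 : FF N D (range (N + 1)) θ ≤ ∏ k ∈ S, FF N D (Wn ℓ k) θ := by
    apply FF_prod
    · intro k hk
      refine (Wn_sub hN (mem_range.1 (hS hk))).trans ?_
      intro i hi
      rw [mem_Ico] at hi
      rw [mem_range]
      omega
    · intro k _ k' _ hkk
      exact Wn_disj hkk
  refine h1.trans ?_
  refine (Finset.prod_le_prod (fun _ _ => FF_nonneg _ _ _ _) fun k hk => ?_).trans
    (le_of_eq (Finset.prod_const _))
  refine (FF_bd hD hK0 hK (A := Fr N D ∩ Wn ℓ k) inter_subset_left inter_subset_right hη θ).trans ?_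
  exact pow_le_pow_of_le_one (rho_pos hK0 hη hη1).le (rho_lt_one hK0 hη).le (h k hk)

end Pool.Agent.L5helper11.PE
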